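import Mathlib

/-!
# Project RE (MP_9056e9_nt): random factorial expansions.  Definitions
-/

namespace Pool.Agent.Helper59.RE

open Finset

/-- `e x = exp(2 pi i x)`. -/
noncomputable def e (x : ℝ) : ℂ := Complex.exp (2 * Real.pi * Complex.I * x)

theorem norm_e (x : ℝ) : ‖e x‖ = 1 := by
  unfold e
  have : (2 * Real.pi * Complex.I * x : ℂ) = ((2 * Real.pi * x : ℝ) : ℂ) * Complex.I := by
    push_cast; ring
  rw [this, Complex.norm_exp_ofReal_mul_I]

theorem e_add (x y : ℝ) : e (x + y) = e x * e y := by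
  unfold e
  rw [← Complex.exp_add]
  congr 1
  push_cast; ring

theorem conj_e (x : ℝ) : (starRingEnd ℂ) (e x) = e (-x) := by
  unfold e
  rw [← Complex.exp_conj]
  congr 1
  simp only [map_mul, Complex.conj_ofReal, Complex.conj_I, Complex.conj_ofNat,
    Complex.ofReal_neg]
  ring

theorem e_zero : e 0 = 1 := by simp [e]

theorem e_sub (x y : ℝ) : e (x - y) = e x * (starRingEnd ℂ) (e y) := by
  rw [sub_eq_add_neg, e_add, conj_e]

theorem e_int (n : ℤ) : e n = 1 := by
  unfold e
  rw [Complex.exp_eq_one_iff]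
  exact ⟨n, by push_cast; ring⟩

theorem continuous_e : Continuous e := by
  unfold e
  fun_prop

/-- The sum of `1/k!` over a finite set of digits. -/
noncomputable def xs (T : Finset ℕ) : ℝ := ∑ k ∈ T, 1 / (k.factorial : ℝ)

/-- The sum of `1/k!` over a set of digits. -/
noncomputable def xset (B : Set ℕ) : ℝ :=
  ∑' k : ℕ, B.indicator (fun k => 1 / (k.factorial : ℝ)) k

/-- The probability that the random subset of `S` is `T`. -/
noncomputable def wt (p : ℕ → ℝ) (S T : Finset ℕ) : ℝ :=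
  (∏ k ∈ T, p k) * ∏ k ∈ S \ T, (1 - p k)

/-- The average of `F` over the random subset of `S` which contains `k` with probability `p k`,
independently. -/
noncomputable def av {E : Type*} [AddCommGroup E] [Module ℝ E] (p : ℕ → ℝ) (S : Finset ℕ)
    (F : Finset ℕ → E) : E :=
  ∑ T ∈ S.powerset, wt p S T • F T

/-- The smaller of the two probabilities of the digit `k`. -/
noncomputable def mu (p : ℕ → ℝ) (k : ℕ) : ℝ := min (p k) (1 - p k)

/-- The elements of the random set in a finite window. -/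
noncomputable def dig {Ω : Type*} (A : Ω → Set ℕ) (S : Finset ℕ) (ω : Ω) : Finset ℕ :=
  haveI := Classical.decPred (fun k => k ∈ A ω)
  S.filter (fun k => k ∈ A ω)

/-- A nested chain of `R` pairs of digits `j 0 < j 1 < ... < j (R-1) < k (R-1) < ... < k 0` with
`Z / (j i)! (k i)!` between `1/4` and `3/4`. -/
structure Chain (Z : ℝ) (s R : ℕ) (j k : ℕ → ℕ) : Prop where
  jmono : ∀ i < R, j i < j (i + 1)
  jR : j R = k (R - 1)
  kanti : ∀ i, i + 1 < R → k (i + 1) < k i
  lo : ∀ i < R, 1 / 4 ≤ Z / ((j i).factorial * (k i).factorial : ℝ)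
  hi : ∀ i < R, Z / ((j i).factorial * (k i).factorial : ℝ) ≤ 3 / 4
  gap : ∀ i < R, Z / ((j (i + 1)).factorial * (k i).factorial : ℝ) ≤ 12 / (s : ℝ) ^ 2
  lin : Z / ((k (R - 1)).factorial : ℝ) ^ 2 ≤ Real.exp (-(s : ℝ))
  jlo : (s : ℝ) / 4 ≤ j 0
  khi : ∀ i < R, (k i : ℝ) ≤ 2 * s

/-- `j! (s-j)!`. -/
def NN (s j : ℕ) : ℕ := j.factorial * (s - j).factorial

end Pool.Agent.Helper59.RE
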