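import Pool.Agent.Helper59.RE.Defs

/-!
# Project RE: the exponential, one digit
-/

namespace Pool.Agent.Helper59.RE

open Finset

theorem norm_e_sub (x y : ℝ) : ‖e x - e y‖ ≤ 2 * Real.pi * |x - y| := by
  have h1 : e x - e y = e y * (e (x - y) - 1) := by
    have : e x = e y * e (x - y) := by
      rw [← e_add]
      congr 1
      ring
    rw [this]
    ring
  have h2 : e (x - y) = Complex.exp (Complex.I * ((2 * Real.pi * (x - y) : ℝ) : ℂ)) := by
    unfold e
    congr 1
    push_cast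
    ring
  rw [h1, norm_mul, norm_e, one_mul, h2]
  refine Real.norm_exp_I_mul_ofReal_sub_one_le.trans ?_
  rw [Real.norm_eq_abs, abs_mul, abs_of_pos (by have := Real.pi_pos; positivity)]

theorem norm_digit (p t : ℝ) (hp0 : 0 ≤ p) (hp1 : p ≤ 1) :
    ‖(1 - (p : ℂ)) + p * e t‖ ≤ 1 - 2 * (p * (1 - p)) * Real.sin (Real.pi * t) ^ 2 := by
  have hs : Real.sin (Real.pi * t) ^ 2 ≤ 1 := Real.sin_sq_le_one _
  have hs0 : 0 ≤ Real.sin (Real.pi * t) ^ 2 := sq_nonneg _
  have hq0 : 0 ≤ p * (1 - p) := mul_nonneg hp0 (by linarith)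
  have hq1 : p * (1 - p) ≤ 1 / 4 := by nlinarith [sq_nonneg (p - 1 / 2)]
  have hR : 0 ≤ 1 - 2 * (p * (1 - p)) * Real.sin (Real.pi * t) ^ 2 := by nlinarith
  refine le_of_sq_le_sq ?_ hR
  have he : e t = ((Real.cos (2 * Real.pi * t) : ℝ) : ℂ) + ((Real.sin (2 * Real.pi * t) : ℝ) : ℂ) * Complex.I := by
    unfold e
    have : (2 * Real.pi * Complex.I * t : ℂ) = ((2 * Real.pi * t : ℝ) : ℂ) * Complex.I := by
      push_cast; ring
    rw [this, Complex.exp_mul_I]
    push_cast
    ring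
  have h1 : ‖(1 - (p : ℂ)) + p * e t‖ ^ 2 =
      (1 - p + p * Real.cos (2 * Real.pi * t)) ^ 2 + (p * Real.sin (2 * Real.pi * t)) ^ 2 := by
    have h2 : (1 - (p : ℂ)) + p * e t = ((1 - p + p * Real.cos (2 * Real.pi * t) : ℝ) : ℂ) +
        ((p * Real.sin (2 * Real.pi * t) : ℝ) : ℂ) * Complex.I := by
      rw [he]
      push_cast
      ring
    rw [h2, ← Complex.normSq_eq_norm_sq, Complex.normSq_add_mul_I]
  have hc : Real.cos (2 * Real.pi * t) = 1 - 2 * Real.sin (Real.pi * t) ^ 2 := by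
    have h3 : 2 * Real.pi * t = 2 * (Real.pi * t) := by ring
    rw [h3, Real.cos_two_mul]
    have := Real.sin_sq_add_cos_sq (Real.pi * t)
    linarith
  have hsc := Real.sin_sq_add_cos_sq (2 * Real.pi * t)
  rw [h1]
  have h4 : (1 - p + p * Real.cos (2 * Real.pi * t)) ^ 2 + (p * Real.sin (2 * Real.pi * t)) ^ 2 =
      1 - 4 * (p * (1 - p)) * Real.sin (Real.pi * t) ^ 2 := by
    have h5 : Real.sin (2 * Real.pi * t) ^ 2 = 1 - Real.cos (2 * Real.pi * t) ^ 2 := by linarith
    rw [mul_pow, h5, hc]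
    ring
  rw [h4]
  nlinarith [sq_nonneg (p * (1 - p) * Real.sin (Real.pi * t) ^ 2)]

theorem sin_sq_lip (a b : ℝ) :
    |Real.sin (Real.pi * a) ^ 2 - Real.sin (Real.pi * b) ^ 2| ≤ Real.pi * |a - b| := by
  have h1 : Real.sin (Real.pi * a) ^ 2 - Real.sin (Real.pi * b) ^ 2 =
      Real.sin (Real.pi * a - Real.pi * b) * Real.sin (Real.pi * a + Real.pi * b) := by
    rw [Real.sin_sub, Real.sin_add]
    have e1 := Real.sin_sq_add_cos_sq (Real.pi * a)
    have e2 := Real.sin_sq_add_cos_sq (Real.pi * b)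
    have e3 : Real.cos (Real.pi * a) ^ 2 = 1 - Real.sin (Real.pi * a) ^ 2 := by linarith
    have e4 : Real.cos (Real.pi * b) ^ 2 = 1 - Real.sin (Real.pi * b) ^ 2 := by linarith
    have e5 : (Real.sin (Real.pi * a) * Real.cos (Real.pi * b) - Real.cos (Real.pi * a) * Real.sin (Real.pi * b)) *
        (Real.sin (Real.pi * a) * Real.cos (Real.pi * b) + Real.cos (Real.pi * a) * Real.sin (Real.pi * b)) =
        Real.sin (Real.pi * a) ^ 2 * Real.cos (Real.pi * b) ^ 2 -
          Real.cos (Real.pi * a) ^ 2 * Real.sin (Real.pi * b) ^ 2 := by ring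
    rw [e5, e3, e4]
    ring
  rw [h1, abs_mul]
  have h2 : |Real.sin (Real.pi * a - Real.pi * b)| ≤ Real.pi * |a - b| := by
    refine Real.abs_sin_le_abs.trans ?_
    rw [← mul_sub, abs_mul, abs_of_pos Real.pi_pos]
  have h3 : |Real.sin (Real.pi * a + Real.pi * b)| ≤ 1 := Real.abs_sin_le_one _
  calc |Real.sin (Real.pi * a - Real.pi * b)| * |Real.sin (Real.pi * a + Real.pi * b)|
      ≤ (Real.pi * |a - b|) * 1 := mul_le_mul h2 h3 (abs_nonneg _) (by have := Real.pi_pos; positivity)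
    _ = _ := mul_one _

/-- Switching one digit which shifts the phase by `u`, `1/4 ≤ u ≤ 0.76`. -/
theorem flip (p β η t u : ℝ) (hp0 : 0 ≤ p) (hp1 : p ≤ 1) (hβ : 0 ≤ β) (hu : 1 / 4 ≤ u)
    (hu' : u ≤ 0.76) :
    (1 - p) * (1 - β * Real.sin (Real.pi * t) ^ 2 + η) +
      p * (1 - β * Real.sin (Real.pi * (t + u)) ^ 2 + η) ≤
      1 - 0.27 * β * min p (1 - p) + η := by
  have hpi := Real.pi_pos
  have hsum : 0.27 ≤ Real.sin (Real.pi * t) ^ 2 + Real.sin (Real.pi * (t + u)) ^ 2 := by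
    have h1 : Real.sin (Real.pi * t) ^ 2 + Real.sin (Real.pi * (t + u)) ^ 2 =
        1 - Real.cos (Real.pi * (2 * t + u)) * Real.cos (Real.pi * u) := by
      have a1 : Real.sin (Real.pi * t) ^ 2 = 1 / 2 - Real.cos (2 * (Real.pi * t)) / 2 := Real.sin_sq_eq_half_sub _
      have a2 : Real.sin (Real.pi * (t + u)) ^ 2 = 1 / 2 - Real.cos (2 * (Real.pi * (t + u))) / 2 :=
        Real.sin_sq_eq_half_sub _
      have a3 : 2 * (Real.pi * t) = Real.pi * (2 * t + u) - Real.pi * u := by ring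
      have a4 : 2 * (Real.pi * (t + u)) = Real.pi * (2 * t + u) + Real.pi * u := by ring
      rw [a1, a2, a3, a4, Real.cos_sub, Real.cos_add]
      ring
    have hcu : |Real.cos (Real.pi * u)| ≤ 0.73 := by
      have hpi2 : Real.pi < 3.141593 := Real.pi_lt_d6
      have hs2 : Real.sqrt 2 < 1.41422 := by
        rw [Real.sqrt_lt' (by norm_num)]
        norm_num
      have hs2' : 0 ≤ Real.sqrt 2 := Real.sqrt_nonneg _
      rw [abs_le]
      constructor
      · have h2 : Real.cos (Real.pi * 0.76) ≤ Real.cos (Real.pi * u) := by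
          apply Real.cos_le_cos_of_nonneg_of_le_pi
          · nlinarith
          · nlinarith
          · nlinarith
        have h3 : Real.cos (Real.pi * 0.76) = - Real.cos (Real.pi / 4 - Real.pi * 0.01) := by
          rw [← Real.cos_pi_sub]
          congr 1
          ring
        have h4 : Real.cos (Real.pi / 4 - Real.pi * 0.01) ≤ 0.73 := by
          rw [Real.cos_sub, Real.cos_pi_div_four, Real.sin_pi_div_four]
          have h5 : Real.cos (Real.pi * 0.01) ≤ 1 := Real.cos_le_one _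
          have h6 : Real.sin (Real.pi * 0.01) ≤ Real.pi * 0.01 := (Real.sin_lt (by positivity)).le
          nlinarith
        linarith
      · have h2 : Real.cos (Real.pi * u) ≤ Real.cos (Real.pi / 4) := by
          apply Real.cos_le_cos_of_nonneg_of_le_pi
          · positivity
          · nlinarith
          · nlinarith
        rw [Real.cos_pi_div_four] at h2
        linarith
    have h7 : |Real.cos (Real.pi * (2 * t + u)) * Real.cos (Real.pi * u)| ≤ 0.73 := by
      rw [abs_mul]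
      calc _ ≤ 1 * (0.73 : ℝ) := mul_le_mul (Real.abs_cos_le_one _) hcu (abs_nonneg _) (by norm_num)
        _ = 0.73 := one_mul _
    rw [h1]
    have h8 := (abs_le.1 h7).2
    linarith
  have hs1 : 0 ≤ Real.sin (Real.pi * t) ^ 2 := sq_nonneg _
  have hs2 : 0 ≤ Real.sin (Real.pi * (t + u)) ^ 2 := sq_nonneg _
  have hm0 : 0 ≤ min p (1 - p) := le_min hp0 (by linarith)
  have hm1 : min p (1 - p) ≤ p := min_le_left _ _
  have hm2 : min p (1 - p) ≤ 1 - p := min_le_right _ _
  generalize Real.sin (Real.pi * t) ^ 2 = s1 at *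
  generalize Real.sin (Real.pi * (t + u)) ^ 2 = s2 at *
  generalize min p (1 - p) = m at *
  have h9 : m * 0.27 ≤ (1 - p) * s1 + p * s2 := by nlinarith
  nlinarith [mul_le_mul_of_nonneg_left h9 hβ]

end Pool.Agent.Helper59.RE
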