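import Pool.Agent.Helper59.RE.Arc

/-!
# Project RE: counting in arcs with the weights `1/h`
-/

namespace Pool.Agent.Helper59.RE

open Finset

theorem arcCount_tail (H : ℕ) (hH : 1 ≤ H) :
    Summable (fun h : ℕ => if h ≤ H then (0 : ℝ) else 1 / (h : ℝ) ^ 2) ∧
      ∑' h : ℕ, (if h ≤ H then (0 : ℝ) else 1 / (h : ℝ) ^ 2) ≤ 1 / H := by
  have hs : Summable (fun h : ℕ => if h ≤ H then (0 : ℝ) else 1 / (h : ℝ) ^ 2) := by
    refine Summable.of_nonneg_of_le (fun h => ?_) (fun h => ?_)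
      (Real.summable_one_div_nat_pow.mpr (le_refl 2))
    · split_ifs <;> positivity
    · split_ifs
      · positivity
      · exact le_rfl
  refine ⟨hs, ?_⟩
  refine Real.tsum_le_of_sum_range_le (fun h => ?_) (fun n => ?_)
  · split_ifs <;> positivity
  · rcases le_or_gt n H with hn | hn
    · rw [Finset.sum_eq_zero]
      · positivity
      · intro i hi
        rw [Finset.mem_range] at hi
        rw [if_pos (by omega)]
    · have h1 : ∑ i ∈ Finset.range n, (if i ≤ H then (0 : ℝ) else 1 / (i : ℝ) ^ 2) ≤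
          ∑ i ∈ Finset.Ioc H n, ((i : ℝ) ^ 2)⁻¹ := by
        rw [← Finset.sum_filter_add_sum_filter_not (Finset.range n) (fun i => i ≤ H)]
        rw [Finset.sum_eq_zero (s := (Finset.range n).filter (fun i => i ≤ H)), zero_add]
        · have h2 : ∑ i ∈ (Finset.range n).filter (fun i => ¬ i ≤ H),
              (if i ≤ H then (0 : ℝ) else 1 / (i : ℝ) ^ 2) =
              ∑ i ∈ (Finset.range n).filter (fun i => ¬ i ≤ H), ((i : ℝ) ^ 2)⁻¹ := by
            refine Finset.sum_congr rfl (fun i hi => ?_)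
            rw [Finset.mem_filter] at hi
            rw [if_neg hi.2, one_div]
          rw [h2]
          refine Finset.sum_le_sum_of_subset_of_nonneg (fun i hi => ?_)
            (fun i _ _ => by positivity)
          rw [Finset.mem_filter, Finset.mem_range] at hi
          rw [Finset.mem_Ioc]
          omega
        · intro i hi
          rw [Finset.mem_filter] at hi
          rw [if_pos hi.2]
      have h3 := sum_Ioc_inv_sq_le_sub (α := ℝ) (k := H) (n := n) (by omega) hn.le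
      have h4 : (0 : ℝ) ≤ ((n : ℝ))⁻¹ := by positivity
      rw [one_div]
      linarith

theorem arcCount_norm_one_sub (t : ℝ) : ‖1 - e t‖ ≤ 2 * Real.pi * |t| := by
  have h1 := Real.norm_exp_I_mul_ofReal_sub_one_le (x := 2 * Real.pi * t)
  have h2 : e t = Complex.exp (Complex.I * ((2 * Real.pi * t : ℝ) : ℂ)) := by
    unfold e
    congr 1
    push_cast
    ring
  rw [norm_sub_rev, h2]
  refine h1.trans ?_
  rw [Real.norm_eq_abs, abs_mul, abs_of_pos (by positivity : (0 : ℝ) < 2 * Real.pi)]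

theorem arcCount_norm_one_sub_two (t : ℝ) : ‖1 - e t‖ ≤ 2 := by
  calc ‖1 - e t‖ ≤ ‖(1 : ℂ)‖ + ‖e t‖ := norm_sub_le _ _
    _ = 2 := by rw [norm_e, norm_one]; norm_num

theorem arcCount_cos (t : ℝ) : Real.cos (2 * Real.pi * t) = (e t).re := by
  unfold e
  have : (2 * Real.pi * Complex.I * (t : ℂ)) = ((2 * Real.pi * t : ℝ) : ℂ) * Complex.I := by
    push_cast
    ring
  rw [this, Complex.exp_ofReal_mul_I_re]

/-- The sum of the four Bernoulli functions. -/
theorem arcCount_bt4 (S : Finset ℕ) (x : ℕ → ℝ) (H : ℕ) (hH : 1 ≤ H) (c l δ : ℝ)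
    (hδ : 0 < δ) :
    |∑ n ∈ S, (bt (x n - c) - bt (x n - c - δ) - bt (x n - c - (δ + l)) +
      bt (x n - c - (2 * δ + l)))| ≤
      1 / Real.pi ^ 2 * (4 * Real.pi * δ * ∑ h ∈ Icc 1 H, 1 / (h : ℝ) * ‖∑ n ∈ S, e (h * x n)‖ +
        4 * S.card / H) := by
  have key : HasSum (fun h : ℕ => ∑ n ∈ S, 1 / (h : ℝ) ^ 2 *
      (Real.cos (2 * Real.pi * h * (x n - c)) - Real.cos (2 * Real.pi * h * (x n - c - δ)) -
        Real.cos (2 * Real.pi * h * (x n - c - (δ + l))) +
        Real.cos (2 * Real.pi * h * (x n - c - (2 * δ + l)))))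
      (∑ n ∈ S, Real.pi ^ 2 * (bt (x n - c) - bt (x n - c - δ) - bt (x n - c - (δ + l)) +
      bt (x n - c - (2 * δ + l)))) := by
    refine hasSum_sum (fun n _ => ?_)
    have h1 := (((hasSum_bt (x n - c)).sub (hasSum_bt (x n - c - δ))).sub
      (hasSum_bt (x n - c - (δ + l)))).add (hasSum_bt (x n - c - (2 * δ + l)))
    simp only [← mul_sub, ← mul_add] at h1
    exact h1
  have term : ∀ h : ℕ, ∑ n ∈ S, 1 / (h : ℝ) ^ 2 *
      (Real.cos (2 * Real.pi * h * (x n - c)) - Real.cos (2 * Real.pi * h * (x n - c - δ)) -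
        Real.cos (2 * Real.pi * h * (x n - c - (δ + l))) +
        Real.cos (2 * Real.pi * h * (x n - c - (2 * δ + l)))) =
      1 / (h : ℝ) ^ 2 * (e (-(h * c)) * ((1 - e (-(h * δ))) * (1 - e (-(h * (δ + l))))) *
        ∑ n ∈ S, e (h * x n)).re := by
    intro h
    rw [← Finset.mul_sum]
    congr 1
    rw [Finset.mul_sum, Complex.re_sum]
    refine Finset.sum_congr rfl (fun n _ => ?_)
    have r0 : Real.cos (2 * Real.pi * h * (x n - c)) = (e (-(h * c)) * e (h * x n)).re := by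
      rw [← e_add, ← arcCount_cos]
      congr 1
      ring
    have r1 : Real.cos (2 * Real.pi * h * (x n - c - δ)) =
        (e (-(h * c)) * e (-(h * δ)) * e (h * x n)).re := by
      rw [← e_add, ← e_add, ← arcCount_cos]
      congr 1
      ring
    have r2 : Real.cos (2 * Real.pi * h * (x n - c - (δ + l))) =
        (e (-(h * c)) * e (-(h * (δ + l))) * e (h * x n)).re := by
      rw [← e_add, ← e_add, ← arcCount_cos]
      congr 1
      ring
    have r3 : Real.cos (2 * Real.pi * h * (x n - c - (2 * δ + l))) =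
        (e (-(h * c)) * (e (-(h * δ)) * e (-(h * (δ + l)))) * e (h * x n)).re := by
      rw [← e_add, ← e_add, ← e_add, ← arcCount_cos]
      congr 1
      ring
    rw [r0, r1, r2, r3, ← Complex.sub_re, ← Complex.sub_re, ← Complex.add_re]
    congr 1
    ring
  have bound : ∀ h : ℕ, ‖∑ n ∈ S, 1 / (h : ℝ) ^ 2 *
      (Real.cos (2 * Real.pi * h * (x n - c)) - Real.cos (2 * Real.pi * h * (x n - c - δ)) -
        Real.cos (2 * Real.pi * h * (x n - c - (δ + l))) +
        Real.cos (2 * Real.pi * h * (x n - c - (2 * δ + l))))‖ ≤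
      (if h ∈ Icc 1 H then 4 * Real.pi * δ * (1 / (h : ℝ) * ‖∑ n ∈ S, e (h * x n)‖) else 0) +
      4 * S.card * (if h ≤ H then (0 : ℝ) else 1 / (h : ℝ) ^ 2) := by
    intro h
    rw [term h]
    rcases Nat.eq_zero_or_pos h with h0 | hpos
    · subst h0
      simp
    have hh1 : (1 : ℝ) ≤ h := by exact_mod_cast hpos
    have hh0 : (0 : ℝ) < h := by linarith
    rw [norm_mul, Real.norm_of_nonneg (by positivity)]
    have n0 : ‖(e (-(h * c)) * ((1 - e (-(h * δ))) * (1 - e (-(h * (δ + l))))) *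
        ∑ n ∈ S, e (h * x n)).re‖ ≤ ‖1 - e (-(h * δ))‖ * 2 * ‖∑ n ∈ S, e (h * x n)‖ := by
      rw [Real.norm_eq_abs]
      refine (Complex.abs_re_le_norm _).trans ?_
      rw [norm_mul, norm_mul, norm_mul, norm_e, one_mul]
      gcongr
      exact arcCount_norm_one_sub_two _
    have n1 : ‖∑ n ∈ S, e (h * x n)‖ ≤ S.card := by
      calc ‖∑ n ∈ S, e (h * x n)‖ ≤ ∑ n ∈ S, ‖e (h * x n)‖ := norm_sum_le _ _
        _ = S.card := by simp [norm_e]
    rcases le_or_gt h H with hle | hgt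
    · rw [if_pos (by rw [Finset.mem_Icc]; exact ⟨hpos, hle⟩), if_pos hle, mul_zero, add_zero]
      have n2 := arcCount_norm_one_sub (-(h * δ))
      rw [abs_neg, abs_of_pos (by positivity)] at n2
      calc 1 / (h : ℝ) ^ 2 * ‖(e (-(h * c)) * ((1 - e (-(h * δ))) * (1 - e (-(h * (δ + l))))) *
            ∑ n ∈ S, e (h * x n)).re‖
          ≤ 1 / (h : ℝ) ^ 2 * (2 * Real.pi * (h * δ) * 2 * ‖∑ n ∈ S, e (h * x n)‖) := by
            refine mul_le_mul_of_nonneg_left (n0.trans ?_) (by positivity)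
            gcongr
        _ = 4 * Real.pi * δ * (1 / (h : ℝ) * ‖∑ n ∈ S, e (h * x n)‖) := by
            field_simp
            ring
    · rw [if_neg (by rw [Finset.mem_Icc]; omega), if_neg (by omega), zero_add]
      have n2 := arcCount_norm_one_sub_two (-(h * δ))
      calc 1 / (h : ℝ) ^ 2 * ‖(e (-(h * c)) * ((1 - e (-(h * δ))) * (1 - e (-(h * (δ + l))))) *
            ∑ n ∈ S, e (h * x n)).re‖
          ≤ 1 / (h : ℝ) ^ 2 * (2 * 2 * S.card) := by
            refine mul_le_mul_of_nonneg_left (n0.trans ?_) (by positivity)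
            gcongr
        _ = 4 * S.card * (1 / (h : ℝ) ^ 2) := by ring
  obtain ⟨t1, t2⟩ := arcCount_tail H hH
  have hg : HasSum (fun h : ℕ =>
      (if h ∈ Icc 1 H then 4 * Real.pi * δ * (1 / (h : ℝ) * ‖∑ n ∈ S, e (h * x n)‖) else 0) +
      4 * S.card * (if h ≤ H then (0 : ℝ) else 1 / (h : ℝ) ^ 2))
      (4 * Real.pi * δ * ∑ h ∈ Icc 1 H, 1 / (h : ℝ) * ‖∑ n ∈ S, e (h * x n)‖ +
        4 * S.card * ∑' h : ℕ, (if h ≤ H then (0 : ℝ) else 1 / (h : ℝ) ^ 2)) := by
    refine HasSum.add ?_ (t1.hasSum.mul_left _)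
    have h1 : HasSum (fun h : ℕ =>
      (if h ∈ Icc 1 H then 4 * Real.pi * δ * (1 / (h : ℝ) * ‖∑ n ∈ S, e (h * x n)‖) else 0))
      (∑ h ∈ Icc 1 H, (if h ∈ Icc 1 H then
        4 * Real.pi * δ * (1 / (h : ℝ) * ‖∑ n ∈ S, e (h * x n)‖) else 0)) :=
      hasSum_sum_of_ne_finset_zero (fun h hh => if_neg hh)
    convert h1 using 1
    rw [Finset.mul_sum]
    refine Finset.sum_congr rfl (fun h hh => ?_)
    rw [if_pos hh]
  have h14 := tsum_of_norm_bounded hg bound
  rw [key.tsum_eq, ← Finset.mul_sum, norm_mul, Real.norm_of_nonneg (by positivity),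
    Real.norm_eq_abs] at h14
  have hpi : (0 : ℝ) < Real.pi ^ 2 := by positivity
  have h15 : 4 * (S.card : ℝ) * ∑' h : ℕ, (if h ≤ H then (0 : ℝ) else 1 / (h : ℝ) ^ 2) ≤
      4 * S.card / H := by
    calc 4 * (S.card : ℝ) * ∑' h : ℕ, (if h ≤ H then (0 : ℝ) else 1 / (h : ℝ) ^ 2) ≤
        4 * S.card * (1 / H) := mul_le_mul_of_nonneg_left t2 (by positivity)
      _ = 4 * S.card / H := by ring
  rw [one_div, ← div_eq_inv_mul, le_div_iff₀ hpi]
  linarith

/-- Counting in an arc, upper bound. -/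
theorem arcCount_upper (S : Finset ℕ) (x : ℕ → ℝ) (H : ℕ) (hH : 1 ≤ H) (a l : ℝ) (hl : 0 ≤ l) :
    ((S.filter (fun n => Int.fract (x n - a) < l)).card : ℝ) ≤
      l * S.card + 4 * (S.card / Real.sqrt H +
        ∑ h ∈ Icc 1 H, 1 / (h : ℝ) * ‖∑ n ∈ S, e (h * x n)‖) := by
  have hH0 : (0 : ℝ) < H := by exact_mod_cast hH
  set δ : ℝ := 1 / Real.sqrt H with hδdef
  have hsq : 0 < Real.sqrt H := Real.sqrt_pos.mpr hH0
  have hδ : 0 < δ := by positivity
  have hsg : 0 ≤ ∑ h ∈ Icc 1 H, 1 / (h : ℝ) * ‖∑ n ∈ S, e (h * x n)‖ :=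
    Finset.sum_nonneg (fun h _ => by positivity)
  have hcd : (S.card : ℝ) / Real.sqrt H = δ * S.card := by rw [hδdef]; ring
  have hc0 : (0 : ℝ) ≤ S.card := Nat.cast_nonneg _
  rcases le_or_gt (l + 2 * δ) 1 with h1 | h1
  · have h2 : ((S.filter (fun n => Int.fract (x n - a) < l)).card : ℝ) =
        ∑ n ∈ S, (if Int.fract (x n - a) < l then (1 : ℝ) else 0) := by
      rw [← Finset.sum_filter]
      simp
    rw [h2]
    have h3 := Finset.sum_le_sum (fun n (_ : n ∈ S) => arc_majorant (x n) a l δ hl hδ h1)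
    refine h3.trans ?_
    rw [Finset.sum_sub_distrib, Finset.sum_const, nsmul_eq_mul, ← Finset.mul_sum]
    have b0 := arcCount_bt4 S x H hH (a - δ) l δ hδ
    have r0 : ∀ n, x n - a + δ = x n - (a - δ) := fun n => by ring
    simp only [r0]
    rw [abs_le] at b0
    have h5 := mul_le_mul_of_nonneg_left b0.1 (by positivity : (0 : ℝ) ≤ 1 / (2 * δ))
    have h6 : 1 / (2 * δ) * -(1 / Real.pi ^ 2 * (4 * Real.pi * δ *
        ∑ h ∈ Icc 1 H, 1 / (h : ℝ) * ‖∑ n ∈ S, e (h * x n)‖ + 4 * S.card / H)) =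
        -(2 / Real.pi * ∑ h ∈ Icc 1 H, 1 / (h : ℝ) * ‖∑ n ∈ S, e (h * x n)‖ +
          2 / Real.pi ^ 2 * (δ * S.card)) := by
      have h7 : (1 : ℝ) / H = δ * δ := by
        rw [hδdef, div_mul_div_comm, one_mul, Real.mul_self_sqrt hH0.le]
      have h8 : 4 * (S.card : ℝ) / H = 4 * S.card * (δ * δ) := by rw [← h7]; ring
      rw [h8]
      field_simp
      ring
    rw [h6] at h5
    have hpi := Real.pi_gt_three
    have h9 : 2 / Real.pi ≤ 1 := by
      rw [div_le_one (by positivity)]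
      linarith
    have h10 : 2 / Real.pi ^ 2 ≤ 1 := by
      rw [div_le_one (by positivity)]
      nlinarith
    have h11 := mul_le_mul_of_nonneg_right h9 hsg
    have h12 := mul_le_mul_of_nonneg_right h10 (by positivity : (0 : ℝ) ≤ δ * S.card)
    rw [hcd]
    nlinarith
  · have h2 : ((S.filter (fun n => Int.fract (x n - a) < l)).card : ℝ) ≤ S.card := by
      exact_mod_cast Finset.card_filter_le _ _
    have h3 : (S.card : ℝ) ≤ (l + 2 * δ) * S.card :=
      le_mul_of_one_le_left (Nat.cast_nonneg _) h1.le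
    rw [hcd]
    nlinarith [mul_nonneg hδ.le hc0]

/-- A weak form of the Erdos-Turan inequality (with the square root of `H`). -/
theorem arc_count_w (S : Finset ℕ) (x : ℕ → ℝ) (H : ℕ) (hH : 1 ≤ H) (α β : ℝ) (hα : 0 ≤ α)
    (hαβ : α < β) (hβ : β ≤ 1) :
    |((S.filter (fun n => α ≤ Int.fract (x n) ∧ Int.fract (x n) < β)).card : ℝ) -
      (β - α) * S.card| ≤
      4 * (S.card / Real.sqrt H + ∑ h ∈ Icc 1 H, 1 / (h : ℝ) * ‖∑ n ∈ S, e (h * x n)‖) := by
  classical
  have u1 := arcCount_upper S x H hH α (β - α) (by linarith)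
  have u2 := arcCount_upper S x H hH β (1 - (β - α)) (by linarith)
  have f1 : S.filter (fun n => Int.fract (x n - α) < β - α) =
      S.filter (fun n => α ≤ Int.fract (x n) ∧ Int.fract (x n) < β) :=
    Finset.filter_congr (fun n _ => fract_arc (x n) α β hα hαβ hβ)
  have f2 : S.filter (fun n => Int.fract (x n - β) < 1 - (β - α)) =
      S.filter (fun n => ¬ (α ≤ Int.fract (x n) ∧ Int.fract (x n) < β)) :=
    Finset.filter_congr (fun n _ => fract_arc_compl (x n) α β hα hαβ hβ)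
  rw [f1] at u1
  rw [f2] at u2
  have hcard : ((S.filter (fun n => α ≤ Int.fract (x n) ∧ Int.fract (x n) < β)).card : ℝ) +
      ((S.filter (fun n => ¬ (α ≤ Int.fract (x n) ∧ Int.fract (x n) < β))).card : ℝ) =
      S.card := by
    exact_mod_cast Finset.card_filter_add_card_filter_not _
  rw [abs_le]
  constructor <;> linarith

end Pool.Agent.Helper59.RE
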