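import Pool.Agent.Helper59.RE.Defs

/-!
# Project RE: weighted averages over subsets
-/

namespace Pool.Agent.Helper59.RE

open Finset

private lemma h24_wt_left (p : ℕ → ℝ) (S T : Finset ℕ) (a : ℕ) (ha : a ∉ S) (hT : T ⊆ S) :
    wt p (insert a S) T = (1 - p a) * wt p S T := by
  have haT : a ∉ T := fun h => ha (hT h)
  unfold wt
  rw [Finset.insert_sdiff_of_notMem _ haT, Finset.prod_insert (by simp [ha])]
  ring

private lemma h24_wt_right (p : ℕ → ℝ) (S T : Finset ℕ) (a : ℕ) (ha : a ∉ S) (hT : T ⊆ S) :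
    wt p (insert a S) (insert a T) = p a * wt p S T := by
  have haT : a ∉ T := fun h => ha (hT h)
  unfold wt
  have h1 : insert a S \ insert a T = S \ T := by
    ext x
    simp only [Finset.mem_sdiff, Finset.mem_insert, not_or]
    constructor
    · rintro ⟨h1 | h1, h2, h3⟩
      · exact absurd h1 h2
      · exact ⟨h1, h3⟩
    · rintro ⟨h1, h2⟩
      refine ⟨Or.inr h1, ?_, h2⟩
      rintro rfl
      exact ha h1
  rw [h1, Finset.prod_insert haT]
  ring

theorem wt_nonneg (p : ℕ → ℝ) (hp0 : ∀ k, 0 ≤ p k) (hp1 : ∀ k, p k ≤ 1) (S T : Finset ℕ) :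
    0 ≤ wt p S T := by
  unfold wt
  refine mul_nonneg (Finset.prod_nonneg fun k _ => hp0 k)
    (Finset.prod_nonneg fun k _ => sub_nonneg.2 (hp1 k))

theorem av_empty {E : Type*} [AddCommGroup E] [Module ℝ E] (p : ℕ → ℝ) (F : Finset ℕ → E) :
    av p ∅ F = F ∅ := by
  simp [av, wt]

/-- The digit `a` is averaged alone. -/
theorem av_insert {E : Type*} [AddCommGroup E] [Module ℝ E] (p : ℕ → ℝ) (S : Finset ℕ) (a : ℕ)
    (ha : a ∉ S) (F : Finset ℕ → E) :
    av p (insert a S) F = av p S (fun T => (1 - p a) • F T + p a • F (insert a T)) := by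
  unfold av
  rw [Finset.sum_powerset_insert ha, ← Finset.sum_add_distrib]
  refine Finset.sum_congr rfl fun T hT => ?_
  rw [Finset.mem_powerset] at hT
  rw [h24_wt_left p S T a ha hT, h24_wt_right p S T a ha hT, smul_add, smul_smul, smul_smul,
    mul_comm (wt p S T) (1 - p a), mul_comm (wt p S T) (p a)]

theorem av_congr {E : Type*} [AddCommGroup E] [Module ℝ E] (p : ℕ → ℝ) (S : Finset ℕ)
    (F G : Finset ℕ → E) (h : ∀ T, T ⊆ S → F T = G T) : av p S F = av p S G := by
  unfold av
  refine Finset.sum_congr rfl fun T hT => ?_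
  rw [h T (Finset.mem_powerset.1 hT)]

theorem av_add {E : Type*} [AddCommGroup E] [Module ℝ E] (p : ℕ → ℝ) (S : Finset ℕ)
    (F G : Finset ℕ → E) : av p S (fun T => F T + G T) = av p S F + av p S G := by
  unfold av
  rw [← Finset.sum_add_distrib]
  refine Finset.sum_congr rfl fun T _ => ?_
  rw [smul_add]

theorem av_union {E : Type*} [AddCommGroup E] [Module ℝ E] (p : ℕ → ℝ) (S S' : Finset ℕ)
    (h : Disjoint S S') (F : Finset ℕ → E) :
    av p (S ∪ S') F = av p S (fun T => av p S' (fun T' => F (T ∪ T'))) := by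
  induction S' using Finset.induction_on generalizing F with
  | empty =>
    rw [Finset.union_empty]
    refine av_congr p S _ _ fun T _ => ?_
    rw [av_empty, Finset.union_empty]
  | insert a S' ha ih =>
    have hd : Disjoint S S' := h.mono_right (Finset.subset_insert a S')
    have haS : a ∉ S := fun hS => (Finset.disjoint_left.1 h hS) (Finset.mem_insert_self a S')
    have hau : a ∉ S ∪ S' := by
      rw [Finset.mem_union, not_or]
      exact ⟨haS, ha⟩
    rw [Finset.union_insert, av_insert p _ a hau, ih hd]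
    refine av_congr p S _ _ fun T _ => ?_
    rw [av_insert p S' a ha]
    refine av_congr p S' _ _ fun T' _ => ?_
    rw [Finset.union_insert]

theorem av_const {E : Type*} [AddCommGroup E] [Module ℝ E] (p : ℕ → ℝ) (S : Finset ℕ) (c : E) :
    av p S (fun _ => c) = c := by
  induction S using Finset.induction_on with
  | empty => rw [av_empty]
  | insert a S ha ih =>
    rw [av_insert p S a ha]
    have h1 : (1 - p a) • c + p a • c = c := by
      rw [← add_smul, sub_add_cancel, one_smul]
    rw [h1, ih]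

theorem av_mono (p : ℕ → ℝ) (hp0 : ∀ k, 0 ≤ p k) (hp1 : ∀ k, p k ≤ 1) (S : Finset ℕ)
    (F G : Finset ℕ → ℝ) (h : ∀ T, T ⊆ S → F T ≤ G T) : av p S F ≤ av p S G := by
  unfold av
  refine Finset.sum_le_sum fun T hT => ?_
  rw [smul_eq_mul, smul_eq_mul]
  exact mul_le_mul_of_nonneg_left (h T (Finset.mem_powerset.1 hT)) (wt_nonneg p hp0 hp1 S T)

theorem av_norm (p : ℕ → ℝ) (hp0 : ∀ k, 0 ≤ p k) (hp1 : ∀ k, p k ≤ 1) (S : Finset ℕ)
    (F : Finset ℕ → ℂ) : ‖av p S F‖ ≤ av p S (fun T => ‖F T‖) := by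
  unfold av
  refine (norm_sum_le _ _).trans (le_of_eq ?_)
  refine Finset.sum_congr rfl fun T _ => ?_
  rw [norm_smul, Real.norm_eq_abs, abs_of_nonneg (wt_nonneg p hp0 hp1 S T), smul_eq_mul]

/-- Multiplication by a function which depends on the other digits only. -/
theorem av_mul_left (p : ℕ → ℝ) (S : Finset ℕ) (c : ℝ) (F : Finset ℕ → ℝ) :
    av p S (fun T => c * F T) = c * av p S F := by
  unfold av
  rw [Finset.mul_sum]
  refine Finset.sum_congr rfl fun T _ => ?_
  rw [smul_eq_mul, smul_eq_mul]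
  ring

theorem av_prod (p : ℕ → ℝ) (S : Finset ℕ) (z : ℕ → ℂ) :
    av p S (fun T => ∏ k ∈ T, z k) = ∏ k ∈ S, (1 - (p k : ℂ) + p k * z k) := by
  induction S using Finset.induction_on with
  | empty => rw [av_empty]; simp
  | insert a S ha ih =>
    rw [av_insert p S a ha, Finset.prod_insert ha, ← ih]
    unfold av
    rw [Finset.mul_sum]
    refine Finset.sum_congr rfl fun T hT => ?_
    have haT : a ∉ T := fun h => ha (Finset.mem_powerset.1 hT h)
    show wt p S T • ((1 - p a) • ∏ k ∈ T, z k + p a • ∏ k ∈ insert a T, z k) =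
      (1 - (p a : ℂ) + p a * z a) * wt p S T • ∏ k ∈ T, z k
    rw [Finset.prod_insert haT]
    simp only [Complex.real_smul]
    push_cast
    ring

end Pool.Agent.Helper59.RE
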