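import Pool.Agent.Helper59.RE.Defs

/-!
# Project RE: from exponential sums to counting in arcs

The majorants `bt`, `hasSum_bt`, `bt_sub`, `arc_majorant`, `fract_arc`, `fract_arc_compl` are
those of `Pool.Agent.Helper71.Disc` (copied, so that this project has no further imports).
-/

namespace Pool.Agent.Helper59.RE

open Finset

/-- The second periodic Bernoulli function. -/
noncomputable def bt (x : ℝ) : ℝ := Int.fract x ^ 2 - Int.fract x + 1 / 6

theorem hasSum_bt (x : ℝ) :
    HasSum (fun h : ℕ => 1 / (h : ℝ) ^ 2 * Real.cos (2 * Real.pi * h * x))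
      (Real.pi ^ 2 * bt x) := by
  have hx : Int.fract x ∈ Set.Icc (0 : ℝ) 1 := ⟨Int.fract_nonneg x, (Int.fract_lt_one x).le⟩
  have h1 := hasSum_one_div_nat_pow_mul_cos (k := 1) one_ne_zero hx
  have h2 : (fun h : ℕ => 1 / (h : ℝ) ^ 2 * Real.cos (2 * Real.pi * h * x)) =
      (fun n : ℕ => 1 / (n : ℝ) ^ (2 * 1) * Real.cos (2 * Real.pi * n * Int.fract x)) := by
    funext h
    congr 1
    have h3 : 2 * Real.pi * h * x = 2 * Real.pi * h * Int.fract x +
        ((h * ⌊x⌋ : ℤ) : ℝ) * (2 * Real.pi) := by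
      have := Int.fract_add_floor x
      push_cast
      linear_combination (-2 * Real.pi * h) * this
    rw [h3, Real.cos_add_int_mul_two_pi]
  rw [h2]
  convert h1 using 1
  have h4 : (Polynomial.map (algebraMap ℚ ℝ) (Polynomial.bernoulli (2 * 1))).eval (Int.fract x) =
      Int.fract x ^ 2 - Int.fract x + 1 / 6 := by
    have h5 : Polynomial.bernoulli (2 * 1) =
        Polynomial.X ^ 2 - Polynomial.X + Polynomial.C (1 / 6 : ℚ) := by
      rw [Polynomial.bernoulli]
      simp only [Finset.sum_range_succ, Finset.sum_range_zero, mul_one, zero_add]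
      norm_num [bernoulli_eq_bernoulli'_of_ne_one, bernoulli'_two, bernoulli_one, Nat.choose,
        Polynomial.monomial_zero_left, ← Polynomial.C_mul_X_pow_eq_monomial]
      ring
    rw [h5]
    simp
  rw [h4]
  unfold bt
  have h6 : ((-1 : ℝ)) ^ (1 + 1) * (2 * Real.pi) ^ (2 * 1) / 2 / ((2 * 1).factorial : ℝ) =
      Real.pi ^ 2 := by
    norm_num [Nat.factorial]
    ring
  rw [h6]

theorem bt_sub (w c : ℝ) (hc0 : 0 ≤ c) (hc1 : c ≤ 1) :
    bt (w - c) = (Int.fract w - c) ^ 2 - |Int.fract w - c| + 1 / 6 := by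
  set y := Int.fract w with hy
  have hy0 : 0 ≤ y := Int.fract_nonneg w
  have hy1 : y < 1 := Int.fract_lt_one w
  have hw : w - c = y - c + ⌊w⌋ := by
    have := Int.fract_add_floor w
    linarith
  unfold bt
  rw [hw, Int.fract_add_intCast]
  rcases le_or_gt c y with h | h
  · have h1 : Int.fract (y - c) = y - c := Int.fract_eq_self.mpr ⟨by linarith, by linarith⟩
    rw [h1, abs_of_nonneg (by linarith)]
  · have h1 : Int.fract (y - c) = y - c + 1 := by
      rw [← Int.fract_add_one]
      exact Int.fract_eq_self.mpr ⟨by linarith, by linarith⟩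
    rw [h1, abs_of_neg (by linarith)]
    ring

/-- The pointwise majorant of an arc. -/
theorem arc_majorant (x a l δ : ℝ) (hl : 0 ≤ l) (hδ : 0 < δ) (h1 : l + 2 * δ ≤ 1) :
    (if Int.fract (x - a) < l then (1 : ℝ) else 0) ≤ (l + δ) -
      1 / (2 * δ) * (bt (x - a + δ) - bt (x - a + δ - δ) - bt (x - a + δ - (δ + l)) +
        bt (x - a + δ - (2 * δ + l))) := by
  set w := x - a + δ with hw
  have e0 : bt w = bt (w - 0) := by rw [sub_zero]
  rw [e0, bt_sub w 0 le_rfl zero_le_one, bt_sub w δ hδ.le (by linarith),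
    bt_sub w (δ + l) (by linarith) (by linarith), bt_sub w (2 * δ + l) (by linarith) (by linarith)]
  set y := Int.fract w with hy
  have hy0 : 0 ≤ y := Int.fract_nonneg w
  have hy1 : y < 1 := Int.fract_lt_one w
  have key : (l + δ) - 1 / (2 * δ) * ((y - 0) ^ 2 - |y - 0| + 1 / 6 -
      ((y - δ) ^ 2 - |y - δ| + 1 / 6) - ((y - (δ + l)) ^ 2 - |y - (δ + l)| + 1 / 6) +
      ((y - (2 * δ + l)) ^ 2 - |y - (2 * δ + l)| + 1 / 6)) =
      1 / (2 * δ) * (|y| - |y - δ| - |y - (δ + l)| + |y - (2 * δ + l)|) := by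
    rw [sub_zero]
    field_simp
    ring
  rw [key]
  split_ifs with hin
  · -- inside the arc
    have h2 : δ ≤ y ∧ y < δ + l := by
      have h3 : Int.fract (x - a) = x - a - ⌊x - a⌋ := rfl
      have h4 : y = Int.fract (x - a) + δ := by
        rw [hy, hw]
        have : x - a + δ = (Int.fract (x - a) + δ) + ⌊x - a⌋ := by rw [h3]; ring
        rw [this, Int.fract_add_intCast]
        exact Int.fract_eq_self.mpr ⟨by have := Int.fract_nonneg (x - a); linarith, by linarith⟩
      have := Int.fract_nonneg (x - a)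
      constructor <;> linarith
    rw [abs_of_nonneg hy0, abs_of_nonneg (by linarith : 0 ≤ y - δ),
      abs_of_nonpos (by linarith : y - (δ + l) ≤ 0), abs_of_nonpos (by linarith)]
    apply le_of_eq
    field_simp
    ring
  · apply mul_nonneg (by positivity)
    rw [abs_of_nonneg hy0]
    rcases abs_cases (y - δ) with h | h <;> rcases abs_cases (y - (δ + l)) with h' | h' <;>
      rcases abs_cases (y - (2 * δ + l)) with h'' | h'' <;> linarith

theorem fract_arc (x α β : ℝ) (hα : 0 ≤ α) (hαβ : α < β) (hβ : β ≤ 1) :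
    Int.fract (x - α) < β - α ↔ (α ≤ Int.fract x ∧ Int.fract x < β) := by
  set y := Int.fract x with hy
  have hy0 : 0 ≤ y := Int.fract_nonneg x
  have hy1 : y < 1 := Int.fract_lt_one x
  have hw : x - α = y - α + ⌊x⌋ := by
    have := Int.fract_add_floor x
    linarith
  rw [hw, Int.fract_add_intCast]
  rcases le_or_gt α y with h | h
  · have h1 : Int.fract (y - α) = y - α := Int.fract_eq_self.mpr ⟨by linarith, by linarith⟩
    rw [h1]
    constructor
    · intro h2; exact ⟨h, by linarith⟩
    · intro h2; linarith [h2.2]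
  · have h1 : Int.fract (y - α) = y - α + 1 := by
      rw [← Int.fract_add_one]
      exact Int.fract_eq_self.mpr ⟨by linarith, by linarith⟩
    rw [h1]
    constructor
    · intro h2; linarith
    · intro h2; linarith [h2.1]

theorem fract_arc_compl (x α β : ℝ) (hα : 0 ≤ α) (hαβ : α < β) (hβ : β ≤ 1) :
    Int.fract (x - β) < 1 - (β - α) ↔ ¬ (α ≤ Int.fract x ∧ Int.fract x < β) := by
  set y := Int.fract x with hy
  have hy0 : 0 ≤ y := Int.fract_nonneg x
  have hy1 : y < 1 := Int.fract_lt_one x
  have hw : x - β = y - β + ⌊x⌋ := by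
    have := Int.fract_add_floor x
    linarith
  rw [hw, Int.fract_add_intCast]
  rcases le_or_gt β y with h | h
  · have h1 : Int.fract (y - β) = y - β := Int.fract_eq_self.mpr ⟨by linarith, by linarith⟩
    rw [h1]
    constructor
    · intro _ h2; linarith [h2.2]
    · intro _; linarith
  · have h1 : Int.fract (y - β) = y - β + 1 := by
      rw [← Int.fract_add_one]
      exact Int.fract_eq_self.mpr ⟨by linarith, by linarith⟩
    rw [h1]
    constructor
    · intro h2 h3; linarith [h3.1]
    · intro h2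
      by_contra h3
      exact h2 ⟨by linarith, h⟩

end Pool.Agent.Helper59.RE
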