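import Pool.Agent.Helper59.RE.Defs

/-!
# Project RE: asymptotic estimates
-/

namespace Pool.Agent.Helper59.RE

open Finset

/-- `s^s ≥ c b^m` with `b > 1` forces `s ≥ sqrt m`. -/
theorem s_ge (c b : ℝ) (hc : 0 < c) (hb : 1 < b) : ∃ m₀ : ℕ, ∀ m : ℕ, m₀ ≤ m → ∀ s : ℕ,
    1 ≤ s → c * b ^ m ≤ (s : ℝ) ^ s → Real.sqrt m ≤ s := by
  have hlb : 0 < Real.log b := Real.log_pos hb
  have h1 : ∀ᶠ y : ℝ in Filter.atTop, Real.log y ≤ Real.log b / 2 * y := by
    have h := Real.isLittleO_log_id_atTop.bound (half_pos hlb)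
    filter_upwards [h, Filter.eventually_ge_atTop (1 : ℝ)] with y hy hy1
    rw [Real.norm_of_nonneg (Real.log_nonneg hy1), id, Real.norm_of_nonneg (by linarith)] at hy
    exact hy
  have h2 : Filter.Tendsto (fun m : ℕ => Real.sqrt (m : ℝ)) Filter.atTop Filter.atTop :=
    Real.tendsto_sqrt_atTop.comp tendsto_natCast_atTop_atTop
  have h3 : ∀ᶠ m : ℕ in Filter.atTop, 0 < Real.log c + Real.log b / 2 * (m : ℝ) := by
    have h4 : Filter.Tendsto (fun m : ℕ => Real.log c + Real.log b / 2 * (m : ℝ))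
        Filter.atTop Filter.atTop :=
      Filter.tendsto_atTop_add_const_left _ _
        (tendsto_natCast_atTop_atTop.const_mul_atTop (half_pos hlb))
    exact h4.eventually_gt_atTop 0
  obtain ⟨m₀, hm₀⟩ := Filter.eventually_atTop.1
    ((h2.eventually h1).and (h3.and (Filter.eventually_ge_atTop 1)))
  refine ⟨m₀, fun m hm s hs h => ?_⟩
  obtain ⟨e1, e2, e3⟩ := hm₀ m hm
  by_contra hlt
  push Not at hlt
  have hs' : (1 : ℝ) ≤ s := by exact_mod_cast hs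
  have hy0 : 0 < Real.sqrt m := by linarith
  have hm0 : (0 : ℝ) ≤ m := Nat.cast_nonneg m
  have h5 : Real.log (c * b ^ m) ≤ Real.log ((s : ℝ) ^ s) :=
    Real.log_le_log (by positivity) h
  rw [Real.log_mul hc.ne' (by positivity), Real.log_pow, Real.log_pow] at h5
  have h6 : (s : ℝ) * Real.log s ≤ Real.sqrt m * (Real.log b / 2 * Real.sqrt m) := by
    have h7 : Real.log s ≤ Real.log (Real.sqrt m) := Real.log_le_log (by linarith) hlt.le
    have h8 : 0 ≤ Real.log s := Real.log_nonneg hs'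
    exact mul_le_mul hlt.le (h7.trans e1) h8 hy0.le
  have h9 : Real.sqrt m * (Real.log b / 2 * Real.sqrt m) = Real.log b / 2 * m := by
    rw [mul_left_comm, Real.mul_self_sqrt hm0]
  rw [h9] at h6
  linarith

/-- The width `2/q'!` with `q' = ⌊sqrt m / 8⌋` is small. -/
theorem width_small (C : ℝ) (hC : 0 < C) : ∃ m₀ : ℕ, ∀ m : ℕ, m₀ ≤ m →
    2 / ((Nat.sqrt m / 8).factorial : ℝ) ≤ 1 / (C * m) := by
  have h0 : ∀ q : ℕ, (q + 1) ^ 2 ≤ 4 ^ q := by
    intro q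
    induction q with
    | zero => norm_num
    | succ k ih =>
      rw [pow_succ 4 k]
      calc (k + 1 + 1) ^ 2 ≤ (k + 1) ^ 2 * 4 := by nlinarith [Nat.zero_le (k * k), Nat.zero_le k]
        _ ≤ 4 ^ k * 4 := Nat.mul_le_mul_right 4 ih
  have h1 : ∀ᶠ q : ℕ in Filter.atTop, (4 : ℝ) ^ q / (q.factorial : ℝ) ≤ 1 / (128 * C) := by
    have h := FloorSemiring.tendsto_pow_div_factorial_atTop (4 : ℝ)
    exact (h.eventually (ge_mem_nhds (show (0 : ℝ) < 1 / (128 * C) by positivity)))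
  obtain ⟨q₀, hq₀⟩ := Filter.eventually_atTop.1 h1
  refine ⟨(8 * q₀) ^ 2 + 1, fun m hm => ?_⟩
  set q := Nat.sqrt m / 8 with hq
  have hq1 : q₀ ≤ q := by
    rw [hq, Nat.le_div_iff_mul_le (by norm_num), Nat.le_sqrt']
    nlinarith
  have hm1 : m < (8 * (q + 1)) ^ 2 := by
    have h2 : Nat.sqrt m < 8 * (q + 1) := by omega
    have h3 := Nat.lt_succ_sqrt' m
    have h4 : (Nat.sqrt m).succ ≤ 8 * (q + 1) := h2
    exact h3.trans_le (Nat.pow_le_pow_left h4 2)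
  have hm2 : (m : ℝ) ≤ 64 * 4 ^ q := by
    have h5 : m ≤ 64 * 4 ^ q := by
      have := h0 q
      nlinarith
    exact_mod_cast h5
  have hm0 : (0 : ℝ) < m := by
    have : 0 < m := by omega
    exact_mod_cast this
  have hf : (0 : ℝ) < (q.factorial : ℝ) := by exact_mod_cast q.factorial_pos
  have h6 := hq₀ q hq1
  rw [div_le_div_iff₀ hf (by positivity)] at h6
  rw [div_le_div_iff₀ hf (by positivity)]
  nlinarith

/-- The digits in the chain are random enough. -/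
theorem mu_large (δ : ℝ) (hδ0 : 0 < δ) (hδ1 : δ < 1 / 2) (p : ℕ → ℝ) (k₀ : ℕ)
    (hμ : ∀ k : ℕ, k₀ ≤ k → (k : ℝ) ^ (-(1 / 2 : ℝ) + δ) ≤ mu p k) :
    ∃ S : ℕ, ∀ s : ℕ, S ≤ s → ∀ k : ℕ, (s : ℝ) / 4 ≤ k → (k : ℝ) ≤ 2 * s →
      (2 * s : ℝ) ^ (-(1 / 2 : ℝ) + δ) ≤ mu p k ∧ 1500 / (s : ℝ) ^ 2 ≤ mu p k := by
  refine ⟨max (4 * k₀) 1500, fun s hs k hk1 hk2 => ?_⟩
  have hs1 : (4 : ℝ) * k₀ ≤ s := by
    have : 4 * k₀ ≤ s := (le_max_left _ _).trans hs
    exact_mod_cast this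
  have hs2 : (1500 : ℝ) ≤ s := by
    have : 1500 ≤ s := (le_max_right _ _).trans hs
    exact_mod_cast this
  have hk0 : k₀ ≤ k := by
    have : (k₀ : ℝ) ≤ k := by linarith
    exact_mod_cast this
  have hkpos : (0 : ℝ) < k := by linarith
  have h1 : (2 * s : ℝ) ^ (-(1 / 2 : ℝ) + δ) ≤ (k : ℝ) ^ (-(1 / 2 : ℝ) + δ) :=
    Real.rpow_le_rpow_of_nonpos hkpos hk2 (by linarith)
  have h2 := h1.trans (hμ k hk0)
  refine ⟨h2, le_trans ?_ h2⟩
  have h3 : (2 * s : ℝ) ^ (-(1 / 2 : ℝ)) ≤ (2 * s : ℝ) ^ (-(1 / 2 : ℝ) + δ) :=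
    Real.rpow_le_rpow_of_exponent_le (by linarith) (by linarith)
  refine le_trans ?_ h3
  rw [Real.rpow_neg (by linarith), ← Real.sqrt_eq_rpow]
  have h4 : Real.sqrt (2 * s) ≤ s := by
    rw [Real.sqrt_le_left (by linarith)]
    nlinarith
  have h5 : 0 < Real.sqrt (2 * s) := Real.sqrt_pos.2 (by linarith)
  rw [← one_div, div_le_div_iff₀ (by positivity) h5]
  nlinarith

end Pool.Agent.Helper59.RE
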