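import Mathlib

/-!
# Project RE: the final asymptotic estimate
-/

namespace Pool.Agent.Helper59.RE

open Finset

private lemma h24_decay (c b d : ℝ) (hb : 0 < b) (hd : 0 < d) :
    ∃ S : ℕ, ∀ s : ℕ, S ≤ s → c * Real.exp (-(b * (s : ℝ) ^ d)) * (s : ℝ) ^ 8 ≤ 1 / 2 := by
  have h1 := tendsto_rpow_mul_exp_neg_mul_atTop_nhds_zero (8 / d) b hb
  have h2 := (h1.comp (tendsto_rpow_atTop hd)).const_mul c
  have h3 := h2.comp tendsto_natCast_atTop_atTop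
  rw [mul_zero] at h3
  have h4 := h3.eventually (gt_mem_nhds (show (0 : ℝ) < 1 / 2 by norm_num))
  obtain ⟨S, hS⟩ := Filter.eventually_atTop.1 h4
  refine ⟨S, fun s hs => ?_⟩
  have h5 := (hS s hs).le
  simp only [Function.comp] at h5
  have hs0 : (0 : ℝ) ≤ (s : ℝ) := Nat.cast_nonneg s
  have h6 : ((s : ℝ) ^ d) ^ (8 / d) = (s : ℝ) ^ 8 := by
    rw [← Real.rpow_mul hs0, mul_div_cancel₀ _ hd.ne']
    exact_mod_cast Real.rpow_natCast (s : ℝ) 8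
  rw [h6] at h5
  calc c * Real.exp (-(b * (s : ℝ) ^ d)) * (s : ℝ) ^ 8
      = c * ((s : ℝ) ^ 8 * Real.exp (-b * (s : ℝ) ^ d)) := by
        rw [neg_mul]; ring
    _ ≤ 1 / 2 := h5

/-- The final bound. -/
theorem final_small (δ : ℝ) (hδ0 : 0 < δ) (hδ1 : δ < 1 / 2) :
    ∃ m₀ S : ℕ, ∀ m : ℕ, m₀ ≤ m → ∀ s R : ℕ, S ≤ s → Real.sqrt m ≤ s →
      (s : ℝ) ^ (1 - δ) ≤ 2 * R →
      8 * Real.pi * Real.exp (-(s : ℝ)) +
        (1 - 0.2 * ((2 * s : ℝ) ^ (-(1 / 2 : ℝ) + δ) * (2 * s : ℝ) ^ (-(1 / 2 : ℝ) + δ))) ^ R ≤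
      1 / (m : ℝ) ^ 4 := by
  obtain ⟨S1, hS1⟩ := h24_decay (8 * Real.pi) 1 1 one_pos one_pos
  obtain ⟨S2, hS2⟩ := h24_decay 1 0.05 δ (by norm_num) hδ0
  refine ⟨1, max 1 (max S1 S2), fun m hm s R hs hms hR => ?_⟩
  have hs1 : 1 ≤ s := (le_max_left _ _).trans hs
  have hsS1 : S1 ≤ s := ((le_max_left _ _).trans (le_max_right _ _)).trans hs
  have hsS2 : S2 ≤ s := ((le_max_right _ _).trans (le_max_right _ _)).trans hs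
  have hsr : (1 : ℝ) ≤ s := by exact_mod_cast hs1
  have hs0 : (0 : ℝ) < s := by linarith
  have hmr : (1 : ℝ) ≤ m := by exact_mod_cast hm
  have h2s : (0 : ℝ) < 2 * s := by linarith
  have h2s1 : (1 : ℝ) ≤ 2 * s := by linarith
  set x : ℝ := 0.2 * ((2 * s : ℝ) ^ (-(1 / 2 : ℝ) + δ) * (2 * s : ℝ) ^ (-(1 / 2 : ℝ) + δ)) with hx
  have hpr : (2 * s : ℝ) ^ (-(1 / 2 : ℝ) + δ) * (2 * s : ℝ) ^ (-(1 / 2 : ℝ) + δ) =
      (2 * s : ℝ) ^ (-1 + 2 * δ) := by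
    rw [← Real.rpow_add h2s]
    congr 1
    ring
  rw [hpr] at hx
  have hx0 : 0 ≤ x := by
    rw [hx]; positivity
  have hx1 : x ≤ 1 := by
    rw [hx]
    have h := Real.rpow_le_one_of_one_le_of_nonpos h2s1 (show -1 + 2 * δ ≤ 0 by linarith)
    linarith
  have hxR : 0.05 * (s : ℝ) ^ δ ≤ x * R := by
    have e1 : (2 * s : ℝ) ^ (-1 + 2 * δ) = (2 : ℝ) ^ (-1 + 2 * δ) * (s : ℝ) ^ (-1 + 2 * δ) :=
      Real.mul_rpow (by norm_num) hs0.le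
    have e2 : (1 / 2 : ℝ) ≤ (2 : ℝ) ^ (-1 + 2 * δ) := by
      have h := Real.rpow_le_rpow_of_exponent_le (show (1 : ℝ) ≤ 2 by norm_num)
        (show (-1 : ℝ) ≤ -1 + 2 * δ by linarith)
      rw [Real.rpow_neg_one] at h
      linarith
    have e3 : (s : ℝ) ^ δ = (s : ℝ) ^ (-1 + 2 * δ) * (s : ℝ) ^ (1 - δ) := by
      rw [← Real.rpow_add hs0]
      congr 1
      ring
    have hpos : 0 < (s : ℝ) ^ (-1 + 2 * δ) := Real.rpow_pos_of_pos hs0 _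
    have e4 : (s : ℝ) ^ (-1 + 2 * δ) * (s : ℝ) ^ (1 - δ) ≤ (s : ℝ) ^ (-1 + 2 * δ) * (2 * R) :=
      mul_le_mul_of_nonneg_left hR hpos.le
    have hRr : (0 : ℝ) ≤ R := Nat.cast_nonneg R
    have e5 : (1 / 2 : ℝ) * ((s : ℝ) ^ (-1 + 2 * δ) * (2 * R)) ≤
        (2 : ℝ) ^ (-1 + 2 * δ) * ((s : ℝ) ^ (-1 + 2 * δ) * (2 * R)) :=
      mul_le_mul_of_nonneg_right e2 (by positivity)
    rw [hx, e1, e3]
    calc 0.05 * ((s : ℝ) ^ (-1 + 2 * δ) * (s : ℝ) ^ (1 - δ))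
        ≤ 0.05 * ((s : ℝ) ^ (-1 + 2 * δ) * (2 * R)) := by linarith
      _ = 0.1 * ((1 / 2 : ℝ) * ((s : ℝ) ^ (-1 + 2 * δ) * (2 * R))) := by ring
      _ ≤ 0.1 * ((2 : ℝ) ^ (-1 + 2 * δ) * ((s : ℝ) ^ (-1 + 2 * δ) * (2 * R))) := by linarith
      _ = 0.2 * ((2 : ℝ) ^ (-1 + 2 * δ) * (s : ℝ) ^ (-1 + 2 * δ)) * R := by ring
  have hpow : (1 - x) ^ R ≤ Real.exp (-(0.05 * (s : ℝ) ^ δ)) := by
    calc (1 - x) ^ R ≤ (Real.exp (-x)) ^ R :=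
          pow_le_pow_left₀ (by linarith) (Real.one_sub_le_exp_neg x) R
      _ = Real.exp (-(x * R)) := by
          rw [← Real.exp_nat_mul]
          congr 1
          ring
      _ ≤ Real.exp (-(0.05 * (s : ℝ) ^ δ)) := Real.exp_le_exp.2 (by linarith)
  have h1 := hS1 s hsS1
  have h2 := hS2 s hsS2
  rw [Real.rpow_one, one_mul] at h1
  rw [one_mul] at h2
  have hs8 : (0 : ℝ) < (s : ℝ) ^ 8 := by positivity
  have h3 : 8 * Real.pi * Real.exp (-(s : ℝ)) ≤ 1 / 2 / (s : ℝ) ^ 8 := (le_div_iff₀ hs8).2 h1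
  have h4 : Real.exp (-(0.05 * (s : ℝ) ^ δ)) ≤ 1 / 2 / (s : ℝ) ^ 8 := (le_div_iff₀ hs8).2 h2
  have hm2 : (m : ℝ) ≤ (s : ℝ) ^ 2 := by
    have h := Real.sqrt_le_iff.1 hms
    exact h.2
  have hm4 : (m : ℝ) ^ 4 ≤ (s : ℝ) ^ 8 := by
    calc (m : ℝ) ^ 4 ≤ ((s : ℝ) ^ 2) ^ 4 := pow_le_pow_left₀ (by linarith) hm2 4
      _ = (s : ℝ) ^ 8 := by ring
  have hm40 : (0 : ℝ) < (m : ℝ) ^ 4 := by positivity
  calc 8 * Real.pi * Real.exp (-(s : ℝ)) + (1 - x) ^ R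
      ≤ 1 / 2 / (s : ℝ) ^ 8 + 1 / 2 / (s : ℝ) ^ 8 := add_le_add h3 (hpow.trans h4)
    _ = 1 / (s : ℝ) ^ 8 := by ring
    _ ≤ 1 / (m : ℝ) ^ 4 := one_div_le_one_div_of_le hm40 hm4

end Pool.Agent.Helper59.RE
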