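import Pool.Agent.Helper59.RE.Defs

/-!
# Project RE: factorial tails, the exponential
-/

namespace Pool.Agent.Helper59.RE

open Finset

theorem xs_nonneg (T : Finset ℕ) : 0 ≤ xs T := by
  unfold xs
  exact Finset.sum_nonneg fun k _ => by positivity

theorem xs_union (T T' : Finset ℕ) (h : Disjoint T T') : xs (T ∪ T') = xs T + xs T' := by
  unfold xs
  exact Finset.sum_union h

theorem xs_insert (T : Finset ℕ) (a : ℕ) (h : a ∉ T) :
    xs (insert a T) = xs T + 1 / (a.factorial : ℝ) := by
  unfold xs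
  rw [Finset.sum_insert h, add_comm]

private theorem bas_mono {T T' : Finset ℕ} (h : T ⊆ T') : xs T ≤ xs T' := by
  unfold xs
  exact Finset.sum_le_sum_of_subset_of_nonneg h fun k _ _ => by positivity

/-- The telescoping bound for the sum of `1/k!`. -/
theorem xs_le (q M : ℕ) (hq : 1 ≤ q) (hM : q ≤ M) (T : Finset ℕ) (hT : T ⊆ Ico q M) :
    xs T ≤ 2 / (q.factorial : ℝ) - 2 / (M.factorial : ℝ) := by
  refine (bas_mono hT).trans ?_
  clear hT
  induction M, hM using Nat.le_induction with
  | base => simp [xs]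
  | succ M hM ih =>
    have h1 : Ico q (M + 1) = insert M (Ico q M) := by
      ext x
      simp only [mem_Ico, mem_insert]
      omega
    rw [h1, xs_insert _ _ (by simp)]
    have hM1 : (1:ℝ) ≤ M := by exact_mod_cast hq.trans hM
    have h2 : (0:ℝ) < (M.factorial : ℝ) := by exact_mod_cast Nat.factorial_pos M
    have h3 : 2 / ((M + 1).factorial : ℝ) ≤ 1 / (M.factorial : ℝ) := by
      rw [Nat.factorial_succ]
      push_cast
      rw [div_le_div_iff₀ (by positivity) h2]
      nlinarith
    have h4 : 2 / (M.factorial : ℝ) = 1 / (M.factorial : ℝ) + 1 / (M.factorial : ℝ) := by ring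
    linarith

theorem xs_le' (q M : ℕ) (hq : 1 ≤ q) (T : Finset ℕ) (hT : T ⊆ Ico q M) :
    xs T ≤ 2 / (q.factorial : ℝ) := by
  rcases le_or_gt q M with h | h
  · have h1 := xs_le q M hq h T hT
    have h2 : 0 ≤ 2 / (M.factorial : ℝ) := by positivity
    linarith
  · have h1 : Ico q M = ∅ := Finset.Ico_eq_empty (by omega)
    rw [h1] at hT
    rw [Finset.subset_empty.mp hT]
    simp only [xs, Finset.sum_empty]
    positivity

theorem summable_ind (B : Set ℕ) :
    Summable (B.indicator (fun k : ℕ => 1 / (k.factorial : ℝ))) := by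
  apply Summable.indicator
  have := Real.summable_pow_div_factorial 1
  simpa using this

private theorem bas_ind_nonneg (B : Set ℕ) (k : ℕ) :
    0 ≤ B.indicator (fun k : ℕ => 1 / (k.factorial : ℝ)) k :=
  Set.indicator_nonneg (fun k _ => by positivity) k

theorem xset_nonneg (B : Set ℕ) : 0 ≤ xset B := by
  unfold xset
  exact tsum_nonneg (bas_ind_nonneg B)

/-- partial sums through `xs` -/
private theorem bas_sum_eq (B : Set ℕ) (S T : Finset ℕ) (hT : ∀ k, k ∈ T ↔ k ∈ S ∧ k ∈ B) :
    ∑ k ∈ S, B.indicator (fun k : ℕ => 1 / (k.factorial : ℝ)) k = xs T := by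
  classical
  unfold xs
  have h1 : T = S.filter (fun k => k ∈ B) := by
    ext k
    rw [hT, Finset.mem_filter]
  rw [h1, Finset.sum_filter]
  refine Finset.sum_congr rfl fun k _ => ?_
  rw [Set.indicator_apply]

theorem xset_le (B : Set ℕ) (q : ℕ) (hq : 1 ≤ q) :
    xset (B ∩ Set.Ici q) ≤ 2 / (q.factorial : ℝ) := by
  classical
  unfold xset
  refine Real.tsum_le_of_sum_range_le (bas_ind_nonneg _) fun n => ?_
  rw [bas_sum_eq (B ∩ Set.Ici q) (range n) ((Ico q n).filter (fun k => k ∈ B))]
  · exact xs_le' q n hq _ (Finset.filter_subset _ _)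
  · intro k
    simp only [Finset.mem_filter, mem_Ico, mem_range, Set.mem_inter_iff, Set.mem_Ici]
    tauto

/-- Splitting off the digits below `q`. -/
theorem xset_split {Ω : Type*} (A : Ω → Set ℕ) (q : ℕ) (ω : Ω) :
    xset (A ω) = xs (dig A (range q) ω) + xset (A ω ∩ Set.Ici q) := by
  classical
  have h1 : ∀ k, (A ω).indicator (fun k : ℕ => 1 / (k.factorial : ℝ)) k
      = (A ω ∩ Set.Iio q).indicator (fun k : ℕ => 1 / (k.factorial : ℝ)) k
        + (A ω ∩ Set.Ici q).indicator (fun k : ℕ => 1 / (k.factorial : ℝ)) k := by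
    intro k
    simp only [Set.indicator_apply, Set.mem_inter_iff, Set.mem_Iio, Set.mem_Ici]
    by_cases h : k ∈ A ω <;> by_cases h' : k < q
    · simp [h, h']
    · simp [h, h', not_lt.mp h']
    · simp [h]
    · simp [h]
  unfold xset
  rw [tsum_congr h1, (summable_ind _).tsum_add (summable_ind _)]
  congr 1
  rw [tsum_eq_sum (s := range q)]
  · refine bas_sum_eq _ _ _ fun k => ?_
    simp only [dig, Finset.mem_filter, mem_range, Set.mem_inter_iff, Set.mem_Iio]
    tauto
  · intro k hk
    rw [Set.indicator_of_notMem]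
    intro h
    exact hk (mem_range.mpr h.2)

/-- Partial sums. -/
theorem xset_tendsto {Ω : Type*} (A : Ω → Set ℕ) (q : ℕ) (ω : Ω) :
    Filter.Tendsto (fun M => xs (dig A (Ico q M) ω)) Filter.atTop
      (nhds (xset (A ω ∩ Set.Ici q))) := by
  classical
  have h1 := (summable_ind (A ω ∩ Set.Ici q)).hasSum.tendsto_sum_nat
  unfold xset
  refine h1.congr fun M => ?_
  refine bas_sum_eq _ _ _ fun k => ?_
  simp only [dig, Finset.mem_filter, mem_range, mem_Ico, Set.mem_inter_iff, Set.mem_Ici]
  tauto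

end Pool.Agent.Helper59.RE
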