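import Mathlib

/-!
# Project RE: mean value estimates
-/

namespace Pool.Agent.Helper59.RE

open Finset

theorem calc1 (f g g2 : ℝ → ℝ) (a b Z : ℝ) (hZ : 0 ≤ Z)
    (hf : ∀ x ∈ Set.Icc a b, HasDerivAt f (g x) x)
    (hg : ∀ x ∈ Set.Icc a b, HasDerivAt g (g2 x) x)
    (h2 : ∀ x ∈ Set.Icc a b, Z ≤ g2 x ∧ g2 x ≤ 1.01 * Z) (x y : ℝ) (hx : a ≤ x) (hy : 0 ≤ y)
    (hxy : x + y ≤ b) :
    |f (x + y) - f x - g x * y| ≤ Z * y ^ 2 ∧ Z * y ≤ g (x + y) - g x ∧
      g (x + y) - g x ≤ 1.01 * Z * y := by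
  -- the bound for `g`
  have hG : ∀ t : ℝ, 0 ≤ t → x + t ≤ b → Z * t ≤ g (x + t) - g x ∧ g (x + t) - g x ≤ 1.01 * Z * t := by
    intro t ht htb
    rcases ht.eq_or_lt with h0 | h0
    · subst h0; simp
    obtain ⟨ξ, hξ, he⟩ := exists_hasDerivAt_eq_slope g g2 (show x < x + t by linarith)
      (fun z hz => (hg z ⟨hx.trans hz.1, hz.2.trans htb⟩).continuousAt.continuousWithinAt)
      (fun z hz => hg z ⟨hx.trans hz.1.le, hz.2.le.trans htb⟩)
    have hb := h2 ξ ⟨hx.trans hξ.1.le, hξ.2.le.trans htb⟩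
    have h3 : g (x + t) - g x = g2 ξ * t := by
      have h8 : (x + t - x) = t := by ring
      rw [h8, eq_div_iff h0.ne'] at he
      exact he.symm
    rw [h3]
    exact ⟨mul_le_mul_of_nonneg_right hb.1 ht, mul_le_mul_of_nonneg_right hb.2 ht⟩
  refine ⟨?_, (hG y hy hxy).1, (hG y hy hxy).2⟩
  rcases hy.eq_or_lt with h0 | h0
  · subst h0; simp
  have hd : ∀ c : ℝ, ∀ z ∈ Set.Icc x (x + y),
      HasDerivAt (fun z => f z - g x * z - c * (z - x) ^ 2) (g z - g x - 2 * c * (z - x)) z := by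
    intro c z hz
    have h4 := hf z ⟨hx.trans hz.1, hz.2.trans hxy⟩
    have h5 : HasDerivAt (fun z : ℝ => g x * z) (g x) z := by
      simpa using (hasDerivAt_id z).const_mul (g x)
    have h6 : HasDerivAt (fun z : ℝ => c * (z - x) ^ 2) (2 * c * (z - x)) z := by
      have h7 : HasDerivAt (fun z : ℝ => (z - x) ^ 2) (2 * (z - x)) z := by
        have h9 := HasDerivAt.fun_pow ((hasDerivAt_id z).sub_const x) 2
        simpa using h9
      exact (h7.const_mul c).congr_deriv (by ring)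
    exact (h4.sub h5).sub h6
  have hS : ∀ c : ℝ, ∃ ξ ∈ Set.Ioo x (x + y),
      f (x + y) - f x - g x * y = (g ξ - g x - 2 * c * (ξ - x)) * y + c * y ^ 2 := by
    intro c
    obtain ⟨ξ, hξ, he⟩ := exists_hasDerivAt_eq_slope (fun z => f z - g x * z - c * (z - x) ^ 2)
      (fun z => g z - g x - 2 * c * (z - x)) (show x < x + y by linarith)
      (fun z hz => (hd c z hz).continuousAt.continuousWithinAt)
      (fun z hz => hd c z ⟨hz.1.le, hz.2.le⟩)
    refine ⟨ξ, hξ, ?_⟩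
    have h8 : (x + y - x) = y := by ring
    rw [h8, eq_div_iff h0.ne'] at he
    rw [he]; ring
  rw [abs_le]
  constructor
  · obtain ⟨ξ, hξ, he⟩ := hS 0
    have h9 := (hG (ξ - x) (by linarith [hξ.1]) (by linarith [hξ.2])).1
    have h10 : x + (ξ - x) = ξ := by ring
    rw [h10] at h9
    rw [he]
    have h11 : 0 ≤ Z * (ξ - x) := mul_nonneg hZ (by linarith [hξ.1])
    have h12 : 0 ≤ (g ξ - g x) * y := mul_nonneg (by linarith) hy
    have h13 : 0 ≤ Z * y ^ 2 := by positivity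
    nlinarith
  · obtain ⟨ξ, hξ, he⟩ := hS (0.505 * Z)
    have h9 := (hG (ξ - x) (by linarith [hξ.1]) (by linarith [hξ.2])).2
    have h10 : x + (ξ - x) = ξ := by ring
    rw [h10] at h9
    rw [he]
    have h12 : (g ξ - g x - 2 * (0.505 * Z) * (ξ - x)) * y ≤ 0 :=
      mul_nonpos_of_nonpos_of_nonneg (by linarith) hy
    have h13 : 0 ≤ Z * y ^ 2 := by positivity
    linarith

end Pool.Agent.Helper59.RE
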