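import Mathlib

/-!
# Project RE: the differences x^m - x^n
-/

namespace Pool.Agent.Helper59.RE

open Finset

/-- `x^m - x^n`. -/
def G0 (m n : ℕ) (x : ℝ) : ℝ := x ^ m - x ^ n

/-- Its derivative. -/
def G1 (m n : ℕ) (x : ℝ) : ℝ := m * x ^ (m - 1) - n * x ^ (n - 1)

/-- Its second derivative. -/
def G2 (m n : ℕ) (x : ℝ) : ℝ :=
  m * (m - 1 : ℝ) * x ^ (m - 2) - n * (n - 1 : ℝ) * x ^ (n - 2)

theorem hasDerivAt_G0 (m n : ℕ) (x : ℝ) : HasDerivAt (G0 m n) (G1 m n x) x :=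
  (hasDerivAt_pow m x).sub (hasDerivAt_pow n x)

private lemma hasDerivAt_aux (m : ℕ) (x : ℝ) :
    HasDerivAt (fun y : ℝ => (m : ℝ) * y ^ (m - 1)) (m * (m - 1 : ℝ) * x ^ (m - 2)) x := by
  have h := (hasDerivAt_pow (m - 1) x).const_mul (m : ℝ)
  refine h.congr_deriv ?_
  rcases Nat.eq_zero_or_pos m with rfl | hm
  · simp
  · have e : m - 1 - 1 = m - 2 := by omega
    rw [e]
    push_cast [Nat.cast_sub hm]
    ring

theorem hasDerivAt_G1 (m n : ℕ) (x : ℝ) : HasDerivAt (G1 m n) (G2 m n x) x :=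
  (hasDerivAt_aux m x).sub (hasDerivAt_aux n x)

private lemma mul_pow_pred (n : ℕ) (x : ℝ) : x * ((n : ℝ) * x ^ (n - 1)) = n * x ^ n := by
  rcases Nat.eq_zero_or_pos n with rfl | hn
  · simp
  · obtain ⟨k, rfl⟩ : ∃ k, n = k + 1 := ⟨n - 1, by omega⟩
    rw [Nat.add_sub_cancel]
    ring

private lemma mul_pow_pred2 (n : ℕ) (x : ℝ) :
    x * ((n : ℝ) * (n - 1 : ℝ) * x ^ (n - 2)) = n * (n - 1 : ℝ) * x ^ (n - 1) := by
  match n with
  | 0 => simp
  | 1 => simp
  | k + 2 =>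
    have e1 : k + 2 - 2 = k := by omega
    have e2 : k + 2 - 1 = k + 1 := by omega
    rw [e1, e2]
    ring

private lemma nn1 (n : ℕ) : (0 : ℝ) ≤ (n : ℝ) * (n - 1 : ℝ) := by
  match n with
  | 0 => simp
  | k + 1 =>
    push_cast
    have : (0 : ℝ) ≤ k := Nat.cast_nonneg k
    nlinarith

theorem G0_bd (m n : ℕ) (hn : n < m) (x : ℝ) (hx : 1 < x) :
    0 < G0 m n x ∧ (m : ℝ) * G0 m n x ≤ x * G1 m n x := by
  have hx0 : 0 < x := by linarith
  constructor
  · exact sub_pos.mpr (pow_lt_pow_right₀ hx hn)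
  · unfold G0 G1
    rw [mul_sub, mul_sub, mul_pow_pred, mul_pow_pred]
    have h1 : (n : ℝ) ≤ m := by exact_mod_cast hn.le
    have h2 : 0 < x ^ n := pow_pos hx0 n
    nlinarith

theorem G1_bd (m n : ℕ) (hm : 2 ≤ m) (hn : n < m) (x : ℝ) (hx : 1 < x) :
    0 < G1 m n x ∧ (m - 1 : ℝ) * G1 m n x ≤ x * G2 m n x := by
  have hx0 : 0 < x := by linarith
  have h1 : (n : ℝ) < m := by exact_mod_cast hn
  have hn0 : (0 : ℝ) ≤ n := Nat.cast_nonneg n
  have hp : 0 < x ^ (n - 1) := pow_pos hx0 _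
  constructor
  · unfold G1
    have h2 : x ^ (n - 1) ≤ x ^ (m - 1) := pow_le_pow_right₀ hx.le (by omega)
    have h3 : (n : ℝ) * x ^ (n - 1) < m * x ^ (n - 1) := mul_lt_mul_of_pos_right h1 hp
    have h4 : (m : ℝ) * x ^ (n - 1) ≤ m * x ^ (m - 1) :=
      mul_le_mul_of_nonneg_left h2 (Nat.cast_nonneg m)
    linarith
  · unfold G1 G2
    rw [mul_sub x, mul_pow_pred2, mul_pow_pred2, mul_sub]
    have h5 : (n : ℝ) * (n - 1 : ℝ) * x ^ (n - 1) ≤ (m - 1 : ℝ) * (n * x ^ (n - 1)) := by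
      have h6 : (n : ℝ) * (n - 1 : ℝ) ≤ (m - 1 : ℝ) * n := by nlinarith
      calc (n : ℝ) * (n - 1 : ℝ) * x ^ (n - 1) ≤ ((m - 1 : ℝ) * n) * x ^ (n - 1) :=
            mul_le_mul_of_nonneg_right h6 hp.le
        _ = (m - 1 : ℝ) * (n * x ^ (n - 1)) := by ring
    have h7 : (m - 1 : ℝ) * (m * x ^ (m - 1)) = m * (m - 1 : ℝ) * x ^ (m - 1) := by ring
    linarith

theorem G2_lower (m n : ℕ) (hm : 3 ≤ m) (hn : n < m) (x : ℝ) (hx : 1 < x) :
    x ^ (m - 3) ≤ G2 m n x := by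
  have hx0 : 0 < x := by linarith
  obtain ⟨k, rfl⟩ : ∃ k, m = k + 3 := ⟨m - 3, by omega⟩
  have e1 : k + 3 - 3 = k := by omega
  have e2 : k + 3 - 2 = k + 1 := by omega
  unfold G2
  rw [e1, e2]
  push_cast
  have hk : (0 : ℝ) ≤ k := Nat.cast_nonneg k
  have hp : 0 < x ^ k := pow_pos hx0 k
  have h1 : (n : ℝ) * (n - 1 : ℝ) * x ^ (n - 2) ≤ (k + 2) * (k + 1) * x ^ k := by
    rcases Nat.lt_or_ge n 2 with h | h
    · have h0 : (n : ℝ) * (n - 1 : ℝ) = 0 := by
        interval_cases n <;> simp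
      rw [h0, zero_mul]
      positivity
    · obtain ⟨j, rfl⟩ : ∃ j, n = j + 2 := ⟨n - 2, by omega⟩
      have hj : (j : ℝ) ≤ k := by
        have : j ≤ k := by omega
        exact_mod_cast this
      have hj0 : (0 : ℝ) ≤ j := Nat.cast_nonneg j
      have e3 : j + 2 - 2 = j := by omega
      rw [e3]
      push_cast
      have h2 : x ^ j ≤ x ^ k := pow_le_pow_right₀ hx.le (by omega)
      have h3 : ((j : ℝ) + 2) * (j + 2 - 1) ≤ (k + 2) * (k + 1) := by nlinarith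
      exact mul_le_mul h3 h2 (pow_nonneg hx0.le j) (by positivity)
  have h4 : x ^ (k + 1) = x * x ^ k := by ring
  rw [h4]
  have h5 : ((k : ℝ) + 3) * (k + 3 - 1) * x ^ k ≤ (k + 3) * (k + 3 - 1) * (x * x ^ k) := by
    have h6 : x ^ k ≤ x * x ^ k := by nlinarith
    exact mul_le_mul_of_nonneg_left h6 (by nlinarith)
  have h7 : x ^ k ≤ (((k : ℝ) + 3) * (k + 3 - 1) - (k + 2) * (k + 1)) * x ^ k := by
    have h8 : (1 : ℝ) ≤ ((k : ℝ) + 3) * (k + 3 - 1) - (k + 2) * (k + 1) := by nlinarith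
    nlinarith
  nlinarith

private lemma bern_inv (k : ℕ) {t : ℝ} (ht : 0 ≤ t) : (1 - k * t) * (1 + t) ^ k ≤ 1 := by
  induction k with
  | zero => simp
  | succ k ih =>
    have hp : 0 ≤ (1 + t) ^ k := by positivity
    have hk : (0 : ℝ) ≤ k := Nat.cast_nonneg k
    push_cast
    calc (1 - ((k : ℝ) + 1) * t) * (1 + t) ^ (k + 1)
        = (1 - k * t) * (1 + t) ^ k - (k + 1) * t ^ 2 * (1 + t) ^ k := by ring
      _ ≤ (1 - k * t) * (1 + t) ^ k := by
          have : 0 ≤ ((k : ℝ) + 1) * t ^ 2 * (1 + t) ^ k := by positivity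
          linarith
      _ ≤ 1 := ih

/-- `G2` is nearly constant on short intervals. -/
theorem G2_ratio (m n : ℕ) (hm : 3 ≤ m) (hn : n < m) (b x η : ℝ) (hb : 1 < b) (hbx : b ≤ x)
    (hη : (x - b) * (m + 1 / (b - 1)) ≤ η) (hη1 : η ≤ 1) :
    G2 m n b ≤ G2 m n x ∧ G2 m n x ≤ (1 + 3 * η) * G2 m n b := by
  have hb0 : 0 < b := by linarith
  have hb1 : 0 < b - 1 := by linarith
  obtain ⟨t, ht⟩ : ∃ t, t = x / b - 1 := ⟨_, rfl⟩
  have hxt : x = b * (1 + t) := by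
    rw [ht]; field_simp; ring
  have ht0 : 0 ≤ t := by
    by_contra h
    rw [not_le] at h
    nlinarith
  have htx : t ≤ x - b := by
    rw [hxt]; nlinarith
  have h1t : 1 ≤ 1 + t := by linarith
  have hρ0 : 0 < 1 + t := by linarith
  obtain ⟨c, hc⟩ : ∃ c, c = (n : ℝ) * (n - 1 : ℝ) * b ^ (n - 2) := ⟨_, rfl⟩
  obtain ⟨M, hM⟩ : ∃ M, M = (m : ℝ) * (m - 1 : ℝ) * b ^ (m - 2) := ⟨_, rfl⟩
  obtain ⟨X, hX⟩ : ∃ X, X = (n : ℝ) * (n - 1 : ℝ) * x ^ (n - 2) := ⟨_, rfl⟩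
  obtain ⟨ρ, hρ⟩ : ∃ ρ, ρ = (1 + t) ^ (m - 2) := ⟨_, rfl⟩
  have hc0 : 0 ≤ c := by
    rw [hc]; exact mul_nonneg (nn1 n) (pow_nonneg hb0.le _)
  have hM0 : 0 ≤ M := by
    rw [hM]; exact mul_nonneg (nn1 m) (pow_nonneg hb0.le _)
  have hρ1 : 1 ≤ ρ := by rw [hρ]; exact one_le_pow₀ h1t
  have eb : G2 m n b = M - c := by rw [hM, hc]; rfl
  have ex : G2 m n x = M * ρ - X := by
    have h1 : x ^ (m - 2) = b ^ (m - 2) * (1 + t) ^ (m - 2) := by rw [hxt, mul_pow]
    unfold G2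
    rw [h1, hM, hX, hρ]
    ring
  have hG : 0 < G2 m n b := lt_of_lt_of_le (pow_pos hb0 _) (G2_lower m n hm hn b hb)
  obtain ⟨k, hk⟩ : ∃ k : ℝ, k = (m : ℝ) - n := ⟨_, rfl⟩
  have hk0 : 0 ≤ k := by
    rw [hk]
    have : (n : ℝ) ≤ m := by exact_mod_cast hn.le
    linarith
  -- the three facts on the second term
  have key : X ≤ c * ρ ∧ c * ρ * (1 - k * t) ≤ X ∧ c * (1 + k * (b - 1)) ≤ M := by
    rcases Nat.lt_or_ge n 2 with h | h
    · have h0 : (n : ℝ) * (n - 1 : ℝ) = 0 := by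
        interval_cases n <;> simp
      rw [h0, zero_mul] at hc hX
      rw [hc, hX]
      refine ⟨by simp, by simp, by simpa using hM0⟩
    · obtain ⟨j, hj⟩ : ∃ j, n = j + 2 := ⟨n - 2, by omega⟩
      obtain ⟨l, hl⟩ : ∃ l, m = n + l := ⟨m - n, by omega⟩
      have hkl : k = l := by rw [hk, hl]; push_cast; ring
      have e1 : n - 2 = j := by omega
      have e2 : m - 2 = j + l := by omega
      have hnn := nn1 n
      have eX : X = c * (1 + t) ^ j := by
        rw [hX, hc, hxt, e1, mul_pow]; ring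
      have eρ : ρ = (1 + t) ^ j * (1 + t) ^ l := by rw [hρ, e2, pow_add]
      have hpj : 0 < (1 + t) ^ j := pow_pos hρ0 j
      have hcj : 0 ≤ c * (1 + t) ^ j := mul_nonneg hc0 hpj.le
      refine ⟨?_, ?_, ?_⟩
      · rw [eX, eρ]
        have : 1 ≤ (1 + t) ^ l := one_le_pow₀ h1t
        calc c * (1 + t) ^ j = c * (1 + t) ^ j * 1 := by ring
          _ ≤ c * (1 + t) ^ j * (1 + t) ^ l := mul_le_mul_of_nonneg_left this hcj
          _ = c * ((1 + t) ^ j * (1 + t) ^ l) := by ring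
      · rw [eX, eρ, hkl]
        calc c * ((1 + t) ^ j * (1 + t) ^ l) * (1 - l * t)
            = c * (1 + t) ^ j * ((1 - l * t) * (1 + t) ^ l) := by ring
          _ ≤ c * (1 + t) ^ j * 1 := mul_le_mul_of_nonneg_left (bern_inv l ht0) hcj
          _ = c * (1 + t) ^ j := by ring
      · have hbern : 1 + (l : ℝ) * (b - 1) ≤ (1 + (b - 1)) ^ l :=
          one_add_mul_le_pow (by linarith) l
        have e3 : (1 + (b - 1)) = b := by ring
        rw [e3] at hbern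
        have hmn : (n : ℝ) * (n - 1 : ℝ) ≤ m * (m - 1 : ℝ) := by
          have h1 : (n : ℝ) ≤ m := by exact_mod_cast hn.le
          have h2 : (2 : ℝ) ≤ n := by exact_mod_cast h
          nlinarith
        rw [hkl]
        calc c * (1 + l * (b - 1)) ≤ c * b ^ l := mul_le_mul_of_nonneg_left hbern hc0
          _ = (n : ℝ) * (n - 1 : ℝ) * b ^ (m - 2) := by
              rw [hc, e1, e2, pow_add]; ring
          _ ≤ M := by
              rw [hM]
              exact mul_le_mul_of_nonneg_right hmn (pow_nonneg hb0.le _)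
  obtain ⟨k1, k2, k3⟩ := key
  constructor
  · rw [ex]
    calc G2 m n b = 1 * G2 m n b := by ring
      _ ≤ ρ * G2 m n b := mul_le_mul_of_nonneg_right hρ1 hG.le
      _ = M * ρ - c * ρ := by rw [eb]; ring
      _ ≤ M * ρ - X := by linarith
  · have s1 : G2 m n x ≤ ρ * (G2 m n b + c * (k * t)) := by
      rw [ex, eb]
      have : c * ρ * (1 - k * t) = c * ρ - ρ * (c * (k * t)) := by ring
      have h2 : ρ * (M - c + c * (k * t)) = M * ρ - c * ρ + ρ * (c * (k * t)) := by ring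
      linarith
    have s2 : c * (k * t) ≤ G2 m n b * (t / (b - 1)) := by
      have h1 : c * (k * (b - 1)) ≤ G2 m n b := by
        rw [eb]
        have : c * (1 + k * (b - 1)) = c + c * (k * (b - 1)) := by ring
        linarith
      have h2 : c * (k * t) = c * (k * (b - 1)) * (t / (b - 1)) := by
        field_simp
      rw [h2]
      exact mul_le_mul_of_nonneg_right h1 (by positivity)
    have s3 : ρ ≤ Real.exp ((m : ℝ) * t) := by
      have h1 : 1 + t ≤ Real.exp t := by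
        have := Real.add_one_le_exp t
        linarith
      have h2 : (1 + t) ^ (m - 2) ≤ (1 + t) ^ m := pow_le_pow_right₀ h1t (by omega)
      have h3 : (1 + t) ^ m ≤ Real.exp t ^ m := pow_le_pow_left₀ hρ0.le h1 m
      rw [← Real.exp_nat_mul] at h3
      rw [hρ]
      exact h2.trans h3
    have s4 : 1 + t / (b - 1) ≤ Real.exp (t / (b - 1)) := by
      have := Real.add_one_le_exp (t / (b - 1))
      linarith
    have s5 : (m : ℝ) * t + t / (b - 1) ≤ η := by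
      refine le_trans ?_ hη
      have h1 : (x - b) * (m + 1 / (b - 1)) = (m : ℝ) * (x - b) + (x - b) / (b - 1) := by ring
      rw [h1]
      have h2 : (m : ℝ) * t ≤ m * (x - b) := mul_le_mul_of_nonneg_left htx (Nat.cast_nonneg m)
      have h3 : t / (b - 1) ≤ (x - b) / (b - 1) := div_le_div_of_nonneg_right htx hb1.le
      linarith
    have hη0 : 0 ≤ η := by
      refine le_trans ?_ s5
      positivity
    have s6 : Real.exp η ≤ 1 + 3 * η := by
      have h1 := Real.abs_exp_sub_one_sub_id_le (x := η) (by rw [abs_of_nonneg hη0]; exact hη1)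
      have h2 := (abs_le.mp h1).2
      nlinarith
    have hρ00 : 0 ≤ ρ := by linarith
    calc G2 m n x ≤ ρ * (G2 m n b + c * (k * t)) := s1
      _ ≤ ρ * (G2 m n b + G2 m n b * (t / (b - 1))) :=
          mul_le_mul_of_nonneg_left (by linarith) hρ00
      _ = ρ * (1 + t / (b - 1)) * G2 m n b := by ring
      _ ≤ Real.exp ((m : ℝ) * t) * Real.exp (t / (b - 1)) * G2 m n b := by
          apply mul_le_mul_of_nonneg_right _ hG.le
          exact mul_le_mul s3 s4 (by positivity) (Real.exp_pos _).le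
      _ = Real.exp ((m : ℝ) * t + t / (b - 1)) * G2 m n b := by rw [Real.exp_add]
      _ ≤ Real.exp η * G2 m n b :=
          mul_le_mul_of_nonneg_right (Real.exp_le_exp.mpr s5) hG.le
      _ ≤ (1 + 3 * η) * G2 m n b := mul_le_mul_of_nonneg_right s6 hG.le

end Pool.Agent.Helper59.RE
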