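import Pool.Agent.Helper59.RE.Calc2

/-!
# Project RE: polynomials times x^m - x^n
-/

namespace Pool.Agent.Helper59.RE

open Finset Polynomial

/-- `P(x) (x^m - x^n)`. -/
noncomputable def FF (P : ℝ[X]) (m n : ℕ) (x : ℝ) : ℝ := P.eval x * G0 m n x

/-- Its derivative. -/
noncomputable def FF1 (P : ℝ[X]) (m n : ℕ) (x : ℝ) : ℝ :=
  (derivative P).eval x * G0 m n x + P.eval x * G1 m n x

/-- Its second derivative. -/
noncomputable def FF2 (P : ℝ[X]) (m n : ℕ) (x : ℝ) : ℝ :=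
  (derivative (derivative P)).eval x * G0 m n x + 2 * ((derivative P).eval x * G1 m n x) +
    P.eval x * G2 m n x

theorem hasDerivAt_FF (P : ℝ[X]) (m n : ℕ) (x : ℝ) :
    HasDerivAt (FF P m n) (FF1 P m n x) x := by
  exact (P.hasDerivAt x).mul (hasDerivAt_G0 m n x)

theorem hasDerivAt_FF1 (P : ℝ[X]) (m n : ℕ) (x : ℝ) :
    HasDerivAt (FF1 P m n) (FF2 P m n x) x := by
  have h1 := (((derivative P).hasDerivAt x).mul (hasDerivAt_G0 m n x)).add
    ((P.hasDerivAt x).mul (hasDerivAt_G1 m n x))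
  refine h1.congr_deriv ?_
  unfold FF2
  ring

private lemma Calc3_bound (Q : ℝ[X]) (a b : ℝ) : ∃ L : ℝ, 0 ≤ L ∧ ∀ x ∈ Set.Icc a b, |Q.eval x| ≤ L := by
  obtain ⟨L, hL⟩ := isCompact_Icc.exists_bound_of_continuousOn (s := Set.Icc a b)
    (f := fun x => Q.eval x) Q.continuous.continuousOn
  refine ⟨max L 0, le_max_right _ _, fun x hx => ?_⟩
  exact (hL x hx).trans (le_max_left _ _)

private lemma Calc3_lip (P : ℝ[X]) (a b L : ℝ) (hL : ∀ x ∈ Set.Icc a b, |(derivative P).eval x| ≤ L)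
    (x y : ℝ) (hx : x ∈ Set.Icc a b) (hy : y ∈ Set.Icc a b) : |P.eval y - P.eval x| ≤ L * |y - x| := by
  have h := Convex.norm_image_sub_le_of_norm_deriv_le (f := fun x => P.eval x) (C := L) (s := Set.Icc a b)
    (x := x) (y := y) (fun z _ => P.differentiable z) (fun z hz => ?_) (convex_Icc a b) hx hy
  · simpa [Real.norm_eq_abs] using h
  · rw [Polynomial.deriv, Real.norm_eq_abs]
    exact hL z hz

/-- The pointwise estimate behind `calc3`. -/
private lemma Calc3_point {p p0 p1 p2 g0 g1 g2 g20 c0 L B μ : ℝ} (hc0 : 0 < c0) (hp0 : c0 ≤ p0)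
    (hL : 0 ≤ L) (hB : 0 ≤ B) (hμ : 0 < μ) (h1 : |p1| ≤ L) (h2 : |p2| ≤ L) (hg0 : 0 < g0) (hg1 : 0 < g1)
    (hg20 : 0 < g20) (e0 : μ * g0 ≤ B * g1) (e1 : μ * g1 ≤ B * g2) (hμ1 : 1 ≤ μ)
    (hμL : L * (B ^ 2 + 2 * B) * 1000 ≤ c0 * μ) (hp : |p - p0| ≤ p0 / 1000) (r1 : g20 ≤ g2)
    (r2 : g2 ≤ (1 + 3 * (1 / 1000)) * g20) :
    998 / 1000 * (p0 * g20) ≤ p2 * g0 + 2 * (p1 * g1) + p * g2 ∧
      p2 * g0 + 2 * (p1 * g1) + p * g2 ≤ 1.01 * (998 / 1000 * (p0 * g20)) := by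
  have hg2 : 0 < g2 := lt_of_lt_of_le hg20 r1
  have hp00 : 0 < p0 := lt_of_lt_of_le hc0 hp0
  -- the error terms
  have a1 : g1 ≤ B * g2 / μ := by rw [le_div_iff₀ hμ]; linarith
  have a0 : g0 ≤ B ^ 2 * g2 / μ := by
    have b1 : g0 ≤ B * g1 / μ := by rw [le_div_iff₀ hμ]; linarith
    have b2 : B * g1 / μ ≤ B * (B * g2 / μ) := by
      rw [div_le_iff₀ hμ]
      have b3 : B * g1 ≤ B * (B * g2 / μ) := mul_le_mul_of_nonneg_left a1 hB
      have b4 : 0 ≤ B * (B * g2 / μ) := by positivity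
      nlinarith
    calc g0 ≤ B * (B * g2 / μ) := b1.trans b2
      _ = B ^ 2 * g2 / μ := by ring
  have a2 : |p2 * g0 + 2 * (p1 * g1)| ≤ L * (B ^ 2 + 2 * B) / μ * g2 := by
    calc |p2 * g0 + 2 * (p1 * g1)| ≤ |p2 * g0| + |2 * (p1 * g1)| := abs_add_le _ _
      _ = |p2| * g0 + 2 * (|p1| * g1) := by
          rw [abs_mul, abs_mul, abs_mul, abs_of_pos hg0, abs_of_pos hg1, abs_two]
      _ ≤ L * g0 + 2 * (L * g1) := by
          have c1 := mul_le_mul_of_nonneg_right h2 hg0.le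
          have c2 := mul_le_mul_of_nonneg_right h1 hg1.le
          linarith
      _ ≤ L * (B ^ 2 * g2 / μ) + 2 * (L * (B * g2 / μ)) := by
          have c1 := mul_le_mul_of_nonneg_left a0 hL
          have c2 := mul_le_mul_of_nonneg_left a1 hL
          linarith
      _ = L * (B ^ 2 + 2 * B) / μ * g2 := by ring
  have a3 : L * (B ^ 2 + 2 * B) / μ ≤ p0 / 1000 := by
    rw [div_le_iff₀ hμ]
    have : c0 * μ ≤ p0 * μ := mul_le_mul_of_nonneg_right hp0 hμ.le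
    linarith
  have a4 : |p2 * g0 + 2 * (p1 * g1)| ≤ p0 / 1000 * g2 :=
    a2.trans (mul_le_mul_of_nonneg_right a3 hg2.le)
  obtain ⟨u1, u2⟩ := abs_le.1 a4
  obtain ⟨v1, v2⟩ := abs_le.1 hp
  have w1 : (p0 - p0 / 1000) * g2 ≤ p * g2 := mul_le_mul_of_nonneg_right (by linarith) hg2.le
  have w2 : p * g2 ≤ (p0 + p0 / 1000) * g2 := mul_le_mul_of_nonneg_right (by linarith) hg2.le
  have x1 : p0 * g20 ≤ p0 * g2 := mul_le_mul_of_nonneg_left r1 hp00.le
  have x2 : p0 * g2 ≤ p0 * ((1 + 3 * (1 / 1000)) * g20) := mul_le_mul_of_nonneg_left r2 hp00.le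
  have x3 : 0 < p0 * g20 := mul_pos hp00 hg20
  constructor
  · nlinarith
  · nlinarith

theorem calc3 (P : ℝ[X]) (b' w0 : ℝ) (hb : 1 < b') (hw0 : 0 < w0)
    (hP : ∀ x ∈ Set.Icc b' (b' + w0), 0 < P.eval x) :
    ∃ c C : ℝ, 0 < c ∧ 0 < C ∧ ∃ m₁ : ℕ, ∀ m : ℕ, m₁ ≤ m → ∀ n < m, ∀ b'' w : ℝ, b' ≤ b'' →
      0 ≤ w → w ≤ 1 / (C * m) → b'' + w ≤ b' + w0 →
      ∃ Z : ℝ, c * b' ^ m ≤ Z ∧ ∀ x ∈ Set.Icc b'' (b'' + w),
        Z ≤ FF2 P m n x ∧ FF2 P m n x ≤ 1.01 * Z := by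
  -- constants
  obtain ⟨L1, hL10, hL1⟩ := Calc3_bound (derivative P) b' (b' + w0)
  obtain ⟨L2, hL20, hL2⟩ := Calc3_bound (derivative (derivative P)) b' (b' + w0)
  obtain ⟨c0, hc0, hc⟩ : ∃ c0 : ℝ, 0 < c0 ∧ ∀ x ∈ Set.Icc b' (b' + w0), c0 ≤ P.eval x := by
    obtain ⟨z, hz, hmin⟩ := isCompact_Icc.exists_isMinOn (s := Set.Icc b' (b' + w0))
      ⟨b', Set.left_mem_Icc.2 (by linarith)⟩ (f := fun x => P.eval x) P.continuous.continuousOn
    exact ⟨P.eval z, hP z hz, fun x hx => hmin hx⟩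
  obtain ⟨L, hLdef⟩ : ∃ L, L = L1 + L2 + 1 := ⟨_, rfl⟩
  obtain ⟨B, hBdef⟩ : ∃ B, B = b' + w0 := ⟨_, rfl⟩
  have hL0 : 0 < L := by linarith
  have hB0 : 0 < B := by linarith
  have hb0 : 0 < b' := by linarith
  have hb1 : 0 < b' - 1 := by linarith
  refine ⟨998 / 1000 * c0 / b' ^ 3, 1000 * (1 + 1 / (b' - 1)) + 1000 * L / c0, by positivity,
    by positivity, ⌈L * (B ^ 2 + 2 * B) * 1000 / c0⌉₊ + 3, ?_⟩
  intro m hm n hn b'' w hb'' hw hw1 hw2
  have hm3 : 3 ≤ m := by omega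
  have hmr : (3 : ℝ) ≤ m := by exact_mod_cast hm3
  have hm0 : (0 : ℝ) < m := by linarith
  have hmL : L * (B ^ 2 + 2 * B) * 1000 ≤ c0 * (m - 1 : ℝ) := by
    have h1 := Nat.le_ceil (L * (B ^ 2 + 2 * B) * 1000 / c0)
    have h2 : ((⌈L * (B ^ 2 + 2 * B) * 1000 / c0⌉₊ + 3 : ℕ) : ℝ) ≤ m := by exact_mod_cast hm
    push_cast at h2
    have h3 : L * (B ^ 2 + 2 * B) * 1000 / c0 ≤ (m - 1 : ℝ) := by linarith
    rw [div_le_iff₀ hc0] at h3
    linarith
  have hCm : 0 < (1000 * (1 + 1 / (b' - 1)) + 1000 * L / c0) * (m : ℝ) := by positivity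
  have hwC : w * (1000 * (1 + 1 / (b' - 1)) + 1000 * L / c0) * m ≤ 1 := by
    rw [le_div_iff₀ hCm] at hw1
    linarith
  have hw1000 : w * m * (1 + 1 / (b' - 1)) ≤ 1 / 1000 := by
    have h1 : 0 ≤ w * m * (1000 * L / c0) := by positivity
    have h2 : w * (1000 * (1 + 1 / (b' - 1)) + 1000 * L / c0) * m =
      1000 * (w * m * (1 + 1 / (b' - 1))) + w * m * (1000 * L / c0) := by ring
    linarith
  have hwL : w * L ≤ c0 / 1000 := by
    have h1 : 0 ≤ w * m * (1000 * (1 + 1 / (b' - 1))) := by positivity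
    have h2 : w * (1000 * (1 + 1 / (b' - 1)) + 1000 * L / c0) * m =
      w * m * (1000 * (1 + 1 / (b' - 1))) + 1000 * (w * m * L) / c0 := by ring
    have h3 : 1000 * (w * m * L) / c0 ≤ 1 := by linarith
    rw [div_le_iff₀ hc0] at h3
    have h4 : w * L ≤ w * m * L := by
      have : 0 ≤ w * L := by positivity
      nlinarith
    linarith
  have hb''1 : 1 < b'' := by linarith
  have hb''K : b'' ∈ Set.Icc b' (b' + w0) := ⟨hb'', by linarith⟩
  have hp0 : c0 ≤ P.eval b'' := hc b'' hb''K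
  have hg20 : b'' ^ (m - 3) ≤ G2 m n b'' := G2_lower m n hm3 hn b'' hb''1
  have hg200 : 0 < G2 m n b'' := lt_of_lt_of_le (pow_pos (by linarith) _) hg20
  refine ⟨998 / 1000 * (P.eval b'' * G2 m n b''), ?_, ?_⟩
  · have h1 : b' ^ (m - 3) ≤ G2 m n b'' := (pow_le_pow_left₀ hb0.le hb'' _).trans hg20
    have h2 : b' ^ m = b' ^ (m - 3) * b' ^ 3 := by
      rw [← pow_add]
      congr 1
      omega
    rw [h2]
    have h3 : 998 / 1000 * c0 / b' ^ 3 * (b' ^ (m - 3) * b' ^ 3) = 998 / 1000 * (c0 * b' ^ (m - 3)) := by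
      field_simp
    rw [h3]
    have h4 : c0 * b' ^ (m - 3) ≤ P.eval b'' * G2 m n b'' :=
      mul_le_mul hp0 h1 (by positivity) (by linarith)
    linarith
  · intro x hx
    have hxK : x ∈ Set.Icc b' (b' + w0) := ⟨hb''.trans hx.1, hx.2.trans hw2⟩
    have hx1 : 1 < x := by linarith [hx.1]
    have hxB : x ≤ B := by rw [hBdef]; exact hxK.2
    have hxw : x - b'' ≤ w := by linarith [hx.2]
    have hxw0 : 0 ≤ x - b'' := by linarith [hx.1]
    obtain ⟨g0p, g0b⟩ := G0_bd m n hn x hx1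
    obtain ⟨g1p, g1b⟩ := G1_bd m n (by omega) hn x hx1
    have hη : (x - b'') * (m + 1 / (b'' - 1)) ≤ 1 / 1000 := by
      have h1 : 1 / (b'' - 1) ≤ 1 / (b' - 1) := by
        apply one_div_le_one_div_of_le hb1
        linarith
      have h2 : (m : ℝ) + 1 / (b'' - 1) ≤ m * (1 + 1 / (b' - 1)) := by
        have h3 : 1 / (b' - 1) ≤ m * (1 / (b' - 1)) := by
          have : 0 < 1 / (b' - 1) := by positivity
          nlinarith
        linarith
      have h4 : 0 ≤ (m : ℝ) * (1 + 1 / (b' - 1)) := by positivity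
      calc (x - b'') * (m + 1 / (b'' - 1)) ≤ (x - b'') * (m * (1 + 1 / (b' - 1))) :=
            mul_le_mul_of_nonneg_left h2 hxw0
        _ ≤ w * (m * (1 + 1 / (b' - 1))) := mul_le_mul_of_nonneg_right hxw h4
        _ = w * m * (1 + 1 / (b' - 1)) := by ring
        _ ≤ 1 / 1000 := hw1000
    obtain ⟨r1, r2⟩ := G2_ratio m n hm3 hn b'' x (1 / 1000) hb''1 hx.1 hη (by norm_num)
    have hlip : |P.eval x - P.eval b''| ≤ P.eval b'' / 1000 := by
      have h1 := Calc3_lip P b' (b' + w0) L1 hL1 b'' x hb''K hxK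
      rw [abs_of_nonneg hxw0] at h1
      have h2 : L1 * (x - b'') ≤ w * L := by
        have h3 : L1 ≤ L := by linarith
        calc L1 * (x - b'') ≤ L * (x - b'') := mul_le_mul_of_nonneg_right h3 hxw0
          _ ≤ L * w := mul_le_mul_of_nonneg_left hxw hL0.le
          _ = w * L := by ring
      linarith
    have hG2x : 0 < G2 m n x := lt_of_lt_of_le hg200 r1
    have e0 : (m - 1 : ℝ) * G0 m n x ≤ B * G1 m n x := by
      have h1 : (m - 1 : ℝ) * G0 m n x ≤ m * G0 m n x := by nlinarith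
      have h2 : x * G1 m n x ≤ B * G1 m n x := mul_le_mul_of_nonneg_right hxB g1p.le
      linarith
    have e1 : (m - 1 : ℝ) * G1 m n x ≤ B * G2 m n x :=
      g1b.trans (mul_le_mul_of_nonneg_right hxB hG2x.le)
    exact Calc3_point (p := P.eval x) (p0 := P.eval b'') (p1 := (derivative P).eval x)
      (p2 := (derivative (derivative P)).eval x) (g0 := G0 m n x) (g1 := G1 m n x) (g2 := G2 m n x)
      (g20 := G2 m n b'') (c0 := c0) (L := L) (B := B) (μ := (m - 1 : ℝ)) hc0 hp0 hL0.le hB0.le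
      (by linarith) ((hL1 x hxK).trans (by linarith)) ((hL2 x hxK).trans (by linarith)) g0p g1p hg200
      e0 e1 (by linarith) hmL hlip r1 r2

end Pool.Agent.Helper59.RE
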