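import Pool.Agent.Helper59.RE.Defs

/-!
# Project RE: the numbers j! (s-j)!, the range of admissible s
-/

namespace Pool.Agent.Helper59.RE

open Finset

/-- Ratio of neighbours. -/
theorem NN_succ (s j : ℕ) (hj : j + 1 ≤ s) : NN s j * (j + 1) = NN s (j + 1) * (s - j) := by
  unfold NN
  obtain ⟨d, hd⟩ : ∃ d, s - j = d + 1 := ⟨s - j - 1, by omega⟩
  have h2 : s - (j + 1) = d := by omega
  rw [h2, hd, Nat.factorial_succ, Nat.factorial_succ]
  ring

theorem NN_pos (s j : ℕ) : 0 < NN s j := by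
  unfold NN
  positivity

theorem NN_le_pred (s j : ℕ) (hj1 : 1 ≤ j) (hj : 2 * j ≤ s + 1) : NN s j ≤ NN s (j - 1) := by
  have h := NN_succ s (j - 1) (by omega)
  rw [Nat.sub_add_cancel hj1] at h
  have h2 : s - (j - 1) ≥ j := by omega
  have h3 : NN s j * j ≤ NN s j * (s - (j - 1)) := Nat.mul_le_mul_left _ h2
  rw [← h] at h3
  exact Nat.le_of_mul_le_mul_right h3 hj1

/-- `NN` decreases up to the middle. -/
theorem NN_anti (s i j : ℕ) (hij : i ≤ j) (hj : 2 * j ≤ s + 1) : NN s j ≤ NN s i := by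
  induction j, hij using Nat.le_induction with
  | base => exact le_rfl
  | succ j hij ih =>
    have h1 := ih (by omega)
    have h2 := NN_le_pred s (j + 1) (by omega) hj
    rw [Nat.add_sub_cancel] at h2
    exact h2.trans h1

theorem NN_same (s j : ℕ) (hj : j ≤ s) : NN (s + 1) j = (s + 1 - j) * NN s j := by
  unfold NN
  have h : s + 1 - j = (s - j) + 1 := by omega
  rw [h, Nat.factorial_succ]
  ring

theorem NN_both (s j : ℕ) : NN (s + 1) (j + 1) = (j + 1) * NN s j := by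
  unfold NN
  rw [Nat.factorial_succ, Nat.add_sub_add_right]
  ring

/-- The quarter point is monotone in `s`. -/
theorem NN_quarter_mono (s t : ℕ) (hs : 8 ≤ s) (hst : s ≤ t) :
    NN s (s / 4 + 1) ≤ NN t (t / 4 + 1) := by
  induction t, hst using Nat.le_induction with
  | base => exact le_rfl
  | succ t hst ih =>
    refine ih.trans ?_
    rcases Nat.lt_or_ge ((t + 1) / 4) (t / 4 + 1) with h | h
    · have h1 : (t + 1) / 4 = t / 4 := by omega
      rw [h1, NN_same t (t / 4 + 1) (by omega)]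
      exact Nat.le_mul_of_pos_left _ (by omega)
    · have h1 : (t + 1) / 4 = t / 4 + 1 := by omega
      rw [h1, NN_both]
      exact Nat.le_mul_of_pos_left _ (by omega)

/-- From `s` to `s+1` at the point `2s/5`. -/
theorem NN_step (s : ℕ) (hs : 8 ≤ s) :
    NN (s + 1) (2 * (s + 1) / 5) ≤ (s + 1) * NN s (2 * s / 5) := by
  rcases Nat.lt_or_ge (2 * (s + 1) / 5) (2 * s / 5 + 1) with h | h
  · have h1 : 2 * (s + 1) / 5 = 2 * s / 5 := by omega
    rw [h1, NN_same s (2 * s / 5) (by omega)]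
    exact Nat.mul_le_mul_right _ (by omega)
  · have h1 : 2 * (s + 1) / 5 = 2 * s / 5 + 1 := by omega
    rw [h1, NN_both]
    exact Nat.mul_le_mul_right _ (by omega)

/-- One step below `2s/5`. -/
theorem NN_two_thirds (s j : ℕ) (hj1 : 1 ≤ j) (hj : 5 * j ≤ 2 * s) :
    (NN s j : ℝ) ≤ 2 / 3 * NN s (j - 1) := by
  have h := NN_succ s (j - 1) (by omega)
  rw [Nat.sub_add_cancel hj1] at h
  have h2 : 3 * j ≤ 2 * (s - (j - 1)) := by omega
  have h3 : 3 * (NN s j * j) ≤ 2 * (NN s (j - 1) * j) := by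
    rw [h]
    calc 3 * (NN s j * j) = NN s j * (3 * j) := by ring
      _ ≤ NN s j * (2 * (s - (j - 1))) := Nat.mul_le_mul_left _ h2
      _ = 2 * (NN s j * (s - (j - 1))) := by ring
  have h4 : 3 * NN s j ≤ 2 * NN s (j - 1) := by
    have h5 : (3 * NN s j) * j ≤ (2 * NN s (j - 1)) * j := by
      calc (3 * NN s j) * j = 3 * (NN s j * j) := by ring
        _ ≤ 2 * (NN s (j - 1) * j) := h3
        _ = (2 * NN s (j - 1)) * j := by ring
    exact Nat.le_of_mul_le_mul_right h5 hj1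
  have h6 : (3 : ℝ) * NN s j ≤ 2 * NN s (j - 1) := by exact_mod_cast h4
  linarith

/-- The value at `2s/5` is exponentially smaller than that at `s/4`. -/
theorem NN_ratio (s : ℕ) (hs : 100 ≤ s) :
    (NN s (2 * s / 5) : ℝ) ≤ (2 / 3 : ℝ) ^ (s / 10) * NN s (s / 4 + 1) := by
  have key : ∀ n : ℕ, s / 4 + 1 + n ≤ 2 * s / 5 →
      (NN s (s / 4 + 1 + n) : ℝ) ≤ (2 / 3 : ℝ) ^ n * NN s (s / 4 + 1) := by
    intro n
    induction n with
    | zero => intro _; simp
    | succ n ih =>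
      intro hn
      have h1 := ih (by omega)
      have h2 := NN_two_thirds s (s / 4 + 1 + (n + 1)) (by omega) (by omega)
      have h3 : s / 4 + 1 + (n + 1) - 1 = s / 4 + 1 + n := by omega
      rw [h3] at h2
      calc (NN s (s / 4 + 1 + (n + 1)) : ℝ) ≤ 2 / 3 * NN s (s / 4 + 1 + n) := h2
        _ ≤ 2 / 3 * ((2 / 3 : ℝ) ^ n * NN s (s / 4 + 1)) :=
          mul_le_mul_of_nonneg_left h1 (by norm_num)
        _ = (2 / 3 : ℝ) ^ (n + 1) * NN s (s / 4 + 1) := by ring
  obtain ⟨n, hn⟩ : ∃ n, 2 * s / 5 = s / 4 + 1 + n := ⟨2 * s / 5 - (s / 4 + 1), by omega⟩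
  have h1 := key n (by omega)
  rw [← hn] at h1
  refine h1.trans (mul_le_mul_of_nonneg_right ?_ (Nat.cast_nonneg _))
  exact pow_le_pow_of_le_one (by norm_num) (by norm_num) (by omega)

end Pool.Agent.Helper59.RE
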