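import Pool.Agent.Helper59.RE.Ch1

/-!
# Project RE: the range of admissible s
-/

namespace Pool.Agent.Helper59.RE

open Finset

/-- The asymptotic inequality used to choose the range. -/
theorem Ch2_asym (δ : ℝ) (hδ0 : 0 < δ) (hδ1 : δ < 1) :
    ∃ T : ℕ, ∀ s : ℕ, T ≤ s →
      (2 * (s : ℝ)) ^ (⌊(s : ℝ) ^ (1 - δ)⌋₊) * (2 / 3 : ℝ) ^ ((s - 1) / 10) ≤ 3 := by
  have h1 : (fun x : ℝ => Real.log x) =o[Filter.atTop] (fun x : ℝ => x ^ (δ / 2)) :=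
    isLittleO_log_rpow_atTop (by positivity)
  have hev : ∀ᶠ s : ℕ in Filter.atTop, Real.log (2 * s) ≤ 1 * ((2 * s : ℝ) ^ (δ / 2)) := by
    have h2 := h1.bound (show (0 : ℝ) < 1 by norm_num)
    have ht : Filter.Tendsto (fun s : ℕ => (2 * s : ℝ)) Filter.atTop Filter.atTop :=
      Filter.Tendsto.const_mul_atTop (by norm_num) tendsto_natCast_atTop_atTop
    have h3 := ht.eventually h2
    filter_upwards [h3, Filter.eventually_ge_atTop 1] with s hs h1s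
    have hs1 : (1 : ℝ) ≤ s := by exact_mod_cast h1s
    have e1 : (0 : ℝ) ≤ (2 * (s : ℝ)) ^ (δ / 2) := by positivity
    rw [Real.norm_eq_abs, Real.norm_eq_abs, abs_of_nonneg e1] at hs
    exact (le_abs_self _).trans hs
  have hsmall : ∀ᶠ s : ℕ in Filter.atTop, (100 : ℝ) ≤ (s : ℝ) ^ (δ / 2) := by
    have ht : Filter.Tendsto (fun s : ℕ => (s : ℝ) ^ (δ / 2)) Filter.atTop Filter.atTop :=
      (tendsto_rpow_atTop (by positivity)).comp tendsto_natCast_atTop_atTop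
    exact ht.eventually_ge_atTop 100
  obtain ⟨T, hT⟩ := Filter.eventually_atTop.mp
    (hev.and (hsmall.and (Filter.eventually_ge_atTop 100)))
  refine ⟨T, fun s hs => ?_⟩
  obtain ⟨ha, hb, hc⟩ := hT s hs
  have hs100 : (100 : ℝ) ≤ s := by exact_mod_cast hc
  have hspos : (0 : ℝ) < s := by linarith
  set R := ⌊(s : ℝ) ^ (1 - δ)⌋₊ with hR
  have hRle : (R : ℝ) ≤ (s : ℝ) ^ (1 - δ) := Nat.floor_le (by positivity)
  -- logarithm of the left side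
  have hlog2 : Real.log (2 * s) ≤ 2 * (s : ℝ) ^ (δ / 2) := by
    refine ha.trans ?_
    rw [one_mul, Real.mul_rpow (by norm_num) hspos.le]
    refine mul_le_mul_of_nonneg_right ?_ (by positivity)
    calc (2 : ℝ) ^ (δ / 2) ≤ 2 ^ (1 : ℝ) := Real.rpow_le_rpow_of_exponent_le (by norm_num) (by linarith)
      _ = 2 := by norm_num
  have hlogpos : 0 ≤ Real.log (2 * s) := Real.log_nonneg (by linarith)
  have h4 : (R : ℝ) * Real.log (2 * s) ≤ s / 50 := by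
    calc (R : ℝ) * Real.log (2 * s) ≤ (s : ℝ) ^ (1 - δ) * (2 * (s : ℝ) ^ (δ / 2)) :=
          mul_le_mul hRle hlog2 hlogpos (by positivity)
      _ = 2 * (s : ℝ) ^ (1 - δ / 2) := by
          rw [mul_left_comm, ← Real.rpow_add hspos]; ring_nf
      _ ≤ s / 50 := by
          have e2 : (s : ℝ) ^ (1 - δ / 2) * (s : ℝ) ^ (δ / 2) = s := by
            rw [← Real.rpow_add hspos]; norm_num
          have e3 : (0 : ℝ) ≤ (s : ℝ) ^ (1 - δ / 2) := by positivity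
          nlinarith [mul_le_mul_of_nonneg_left hb e3]
  have h5 : (s : ℝ) / 10 - 1 ≤ (((s - 1) / 10 : ℕ) : ℝ) := by
    have : s ≤ 10 * ((s - 1) / 10) + 10 := by omega
    have h' : (s : ℝ) ≤ 10 * (((s - 1) / 10 : ℕ) : ℝ) + 10 := by exact_mod_cast this
    linarith
  have hl23 : Real.log (2 / 3 : ℝ) ≤ -(1 / 3) := by
    have := Real.log_le_sub_one_of_pos (show (0 : ℝ) < 2 / 3 by norm_num)
    linarith
  have h6 : (2 * (s : ℝ)) ^ R = Real.exp (R * Real.log (2 * s)) := by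
    rw [mul_comm (R : ℝ), Real.exp_mul, Real.exp_log (by positivity), Real.rpow_natCast]
  have h7 : (2 / 3 : ℝ) ^ ((s - 1) / 10) = Real.exp ((((s - 1) / 10 : ℕ) : ℝ) * Real.log (2 / 3)) := by
    rw [mul_comm ((((s - 1) / 10 : ℕ) : ℝ)), Real.exp_mul, Real.exp_log (by positivity),
      Real.rpow_natCast]
  rw [h6, h7, ← Real.exp_add]
  have h8 : (R : ℝ) * Real.log (2 * s) + (((s - 1) / 10 : ℕ) : ℝ) * Real.log (2 / 3) ≤ 0 := by
    have h9 : (((s - 1) / 10 : ℕ) : ℝ) * Real.log (2 / 3) ≤ ((s : ℝ) / 10 - 1) * (-(1 / 3)) := by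
      have hn : (0 : ℝ) ≤ (((s - 1) / 10 : ℕ) : ℝ) := by positivity
      nlinarith [mul_le_mul_of_nonneg_left hl23 hn]
    linarith
  calc Real.exp _ ≤ Real.exp 0 := Real.exp_le_exp.mpr h8
    _ ≤ 3 := by norm_num

theorem Ch2_pow (s : ℕ) (hs : 9 ≤ s) (m : ℕ) (hm : m ≤ s) :
    NN (s - 1 + m) (2 * (s - 1 + m) / 5) ≤ (2 * s) ^ m * NN (s - 1) (2 * (s - 1) / 5) := by
  induction m with
  | zero => simp
  | succ m ih =>
    have h1 := NN_step (s - 1 + m) (by omega)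
    have h2 := ih (by omega)
    calc NN (s - 1 + (m + 1)) (2 * (s - 1 + (m + 1)) / 5)
        = NN (s - 1 + m + 1) (2 * (s - 1 + m + 1) / 5) := by rw [Nat.add_assoc (s - 1) m 1]
      _ ≤ (s - 1 + m + 1) * NN (s - 1 + m) (2 * (s - 1 + m) / 5) := h1
      _ ≤ (2 * s) * ((2 * s) ^ m * NN (s - 1) (2 * (s - 1) / 5)) :=
          Nat.mul_le_mul (by omega) h2
      _ = (2 * s) ^ (m + 1) * NN (s - 1) (2 * (s - 1) / 5) := by ring

theorem Ch2_large (Z : ℝ) (T : ℕ) :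
    ∃ s : ℕ, T < s ∧ Z ≤ 3 / 4 * (NN s (s / 4 + 1) : ℝ) := by
  refine ⟨8 * (⌈Z⌉₊ + T + 1), by omega, ?_⟩
  set n := ⌈Z⌉₊ + T + 1 with hn
  have h1 : 8 * n / 4 + 1 = 2 * n + 1 := by omega
  rw [h1]
  have h2 : 2 * n ≤ NN (8 * n) (2 * n + 1) := by
    unfold NN
    have h3 : 8 * n - (2 * n + 1) ≤ (8 * n - (2 * n + 1)).factorial := Nat.self_le_factorial _
    have h4 : 1 ≤ (2 * n + 1).factorial := Nat.factorial_pos _
    have h4' : 1 * (8 * n - (2 * n + 1)).factorial ≤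
        (2 * n + 1).factorial * (8 * n - (2 * n + 1)).factorial := Nat.mul_le_mul_right _ h4
    have h4'' : 2 * n ≤ 8 * n - (2 * n + 1) := by omega
    rw [one_mul] at h4'
    exact h4''.trans (h3.trans h4')
  have h5 : Z ≤ n := by
    calc Z ≤ ⌈Z⌉₊ := Nat.le_ceil Z
      _ ≤ n := by exact_mod_cast (by omega)
  have h6 : (2 * n : ℝ) ≤ (NN (8 * n) (2 * n + 1) : ℝ) := by exact_mod_cast h2
  have h7 : (0 : ℝ) ≤ n := by positivity
  linarith

theorem valid_range (δ : ℝ) (hδ0 : 0 < δ) (hδ1 : δ < 1) (S : ℕ) :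
    ∃ Z₀ : ℝ, 1 ≤ Z₀ ∧ ∀ Z : ℝ, Z₀ ≤ Z → ∃ s R : ℕ, S ≤ s ∧ 1 ≤ R ∧ R ≤ s ∧
      (s : ℝ) ^ (1 - δ) ≤ 2 * R ∧ Z ≤ (s : ℝ) ^ s ∧
      ∀ i < R, Z ≤ 3 / 4 * (NN (s + i) ((s + i) / 4 + 1) : ℝ) ∧
        1 / 4 * (NN (s + i) (2 * (s + i) / 5) : ℝ) ≤ Z := by
  obtain ⟨T₀, hT₀⟩ := Ch2_asym δ hδ0 hδ1
  set T := T₀ + S + 200 with hT
  refine ⟨(NN (T + 1) ((T + 1) / 4 + 1) : ℝ) + 1, by linarith [(Nat.cast_nonneg (NN (T + 1) ((T + 1) / 4 + 1)) : (0 : ℝ) ≤ _)], fun Z hZ => ?_⟩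
  classical
  have hex := Ch2_large Z T
  set s := Nat.find hex with hs
  obtain ⟨hs1, hs2⟩ := Nat.find_spec hex
  rw [← hs] at hs1 hs2
  have hne : s ≠ T + 1 := by
    intro h
    rw [h] at hs2
    have : (0 : ℝ) ≤ (NN (T + 1) ((T + 1) / 4 + 1) : ℝ) := Nat.cast_nonneg _
    linarith
  have hmin : 3 / 4 * (NN (s - 1) ((s - 1) / 4 + 1) : ℝ) < Z := by
    have h1 : ¬ (T < s - 1 ∧ Z ≤ 3 / 4 * (NN (s - 1) ((s - 1) / 4 + 1) : ℝ)) :=
      Nat.find_min hex (by omega)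
    by_contra h2
    exact h1 ⟨by omega, not_lt.mp h2⟩
  have hs200 : 200 ≤ s := by omega
  have hsR : (200 : ℝ) ≤ s := by exact_mod_cast hs200
  set R := ⌊(s : ℝ) ^ (1 - δ)⌋₊ with hR
  have hpow1 : (1 : ℝ) ≤ (s : ℝ) ^ (1 - δ) := Real.one_le_rpow (by linarith) (by linarith)
  have hR1 : 1 ≤ R := by
    rw [hR]; exact Nat.le_floor (by simpa using hpow1)
  have hRs : R ≤ s := by
    rw [hR]
    apply Nat.floor_le_of_le
    calc (s : ℝ) ^ (1 - δ) ≤ (s : ℝ) ^ (1 : ℝ) :=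
          Real.rpow_le_rpow_of_exponent_le (by linarith) (by linarith)
      _ = s := Real.rpow_one _
  refine ⟨s, R, by omega, hR1, hRs, ?_, ?_, ?_⟩
  · have h1 : (s : ℝ) ^ (1 - δ) < R + 1 := Nat.lt_floor_add_one _
    have h2 : (1 : ℝ) ≤ R := by exact_mod_cast hR1
    linarith
  · have h1 : NN s (s / 4 + 1) ≤ s.factorial := by
      unfold NN
      exact Nat.le_of_dvd (Nat.factorial_pos _) (Nat.factorial_mul_factorial_dvd_factorial (by omega))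
    have h2 : s.factorial ≤ s ^ s := Nat.factorial_le_pow s
    have h3 : (NN s (s / 4 + 1) : ℝ) ≤ (s : ℝ) ^ s := by exact_mod_cast h1.trans h2
    have h4 : (0 : ℝ) ≤ (NN s (s / 4 + 1) : ℝ) := Nat.cast_nonneg _
    linarith
  · intro i hi
    refine ⟨?_, ?_⟩
    · have h1 := NN_quarter_mono s (s + i) (by omega) (by omega)
      have h2 : (NN s (s / 4 + 1) : ℝ) ≤ (NN (s + i) ((s + i) / 4 + 1) : ℝ) := by exact_mod_cast h1
      linarith
    · have h1 := Ch2_pow s (by omega) (i + 1) (by omega)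
      have h2 : s - 1 + (i + 1) = s + i := by omega
      rw [h2] at h1
      have h3 := NN_ratio (s - 1) (by omega)
      have h4 := hT₀ s (by omega)
      rw [← hR] at h4
      have h5 : (NN (s + i) (2 * (s + i) / 5) : ℝ) ≤
          (2 * (s : ℝ)) ^ (i + 1) * (NN (s - 1) (2 * (s - 1) / 5) : ℝ) := by exact_mod_cast h1
      have h6 : (2 * (s : ℝ)) ^ (i + 1) ≤ (2 * (s : ℝ)) ^ R :=
        pow_le_pow_right₀ (by linarith) (by omega)
      have hn1 : (0 : ℝ) ≤ (NN (s - 1) ((s - 1) / 4 + 1) : ℝ) := Nat.cast_nonneg _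
      have hn2 : (0 : ℝ) ≤ (NN (s - 1) (2 * (s - 1) / 5) : ℝ) := Nat.cast_nonneg _
      have h7 : (NN (s + i) (2 * (s + i) / 5) : ℝ) ≤ 3 * (NN (s - 1) ((s - 1) / 4 + 1) : ℝ) := by
        calc (NN (s + i) (2 * (s + i) / 5) : ℝ)
            ≤ (2 * (s : ℝ)) ^ (i + 1) * (NN (s - 1) (2 * (s - 1) / 5) : ℝ) := h5
          _ ≤ (2 * (s : ℝ)) ^ R *
              ((2 / 3 : ℝ) ^ ((s - 1) / 10) * (NN (s - 1) ((s - 1) / 4 + 1) : ℝ)) :=
              mul_le_mul h6 h3 hn2 (by positivity)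
          _ = ((2 * (s : ℝ)) ^ R * (2 / 3 : ℝ) ^ ((s - 1) / 10)) *
              (NN (s - 1) ((s - 1) / 4 + 1) : ℝ) := by ring
          _ ≤ 3 * (NN (s - 1) ((s - 1) / 4 + 1) : ℝ) := mul_le_mul_of_nonneg_right h4 hn1
      linarith

end Pool.Agent.Helper59.RE
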