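import Pool.Agent.Helper59.RE.Ch1

/-!
# Project RE: the least j with Z / j! (s-j)! ≥ 1/4
-/

namespace Pool.Agent.Helper59.RE

open Finset

/-- `j` is the least number in `[s/4+1, 2s/5]` with `Z / j! (s-j)! ≥ 1/4`. -/
def IsJ (Z : ℝ) (s j : ℕ) : Prop :=
  s / 4 + 1 ≤ j ∧ j ≤ 2 * s / 5 ∧ 1 / 4 ≤ Z / (NN s j : ℝ) ∧
    ∀ i, s / 4 + 1 ≤ i → i < j → Z / (NN s i : ℝ) < 1 / 4

theorem ch3_NN_pos (s j : ℕ) : (0 : ℝ) < NN s j := by
  have : 0 < NN s j := by unfold NN; positivity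
  exact_mod_cast this

theorem exists_isJ (Z : ℝ) (hZ : 0 < Z) (s : ℕ) (hs : 100 ≤ s)
    (h1 : 1 / 4 * (NN s (2 * s / 5) : ℝ) ≤ Z) : ∃ j, IsJ Z s j := by
  classical
  have hex : ∃ j, s / 4 + 1 ≤ j ∧ j ≤ 2 * s / 5 ∧ 1 / 4 ≤ Z / (NN s j : ℝ) := by
    refine ⟨2 * s / 5, by omega, le_rfl, ?_⟩
    rw [le_div_iff₀ (ch3_NN_pos _ _)]
    exact h1
  refine ⟨Nat.find hex, (Nat.find_spec hex).1, (Nat.find_spec hex).2.1, (Nat.find_spec hex).2.2,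
    ?_⟩
  intro i hi hlt
  have h2 := Nat.find_min hex hlt
  by_contra h3
  push Not at h3
  exact h2 ⟨hi, hlt.le.trans (Nat.find_spec hex).2.1, h3⟩

theorem isJ_hi (Z : ℝ) (hZ : 0 < Z) (s j : ℕ) (hs : 100 ≤ s)
    (h1 : Z ≤ 3 / 4 * (NN s (s / 4 + 1) : ℝ)) (hj : IsJ Z s j) : Z / (NN s j : ℝ) ≤ 3 / 4 := by
  obtain ⟨ha, hb, hc, hd⟩ := hj
  rcases Nat.eq_or_lt_of_le ha with h | h
  · rw [← h, div_le_iff₀ (ch3_NN_pos _ _)]
    exact h1
  · have h2 := hd (j - 1) (by omega) (by omega)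
    have h3 := NN_succ s (j - 1) (by omega)
    rw [Nat.sub_add_cancel (by omega)] at h3
    have h4 : s - (j - 1) ≤ 3 * j := by omega
    have h5 : NN s (j - 1) * j ≤ NN s j * (3 * j) := by
      rw [h3]
      exact Nat.mul_le_mul_left _ h4
    have h6 : NN s (j - 1) ≤ 3 * NN s j := by
      have h7 : NN s (j - 1) * j ≤ (3 * NN s j) * j := by
        calc NN s (j - 1) * j ≤ NN s j * (3 * j) := h5
          _ = (3 * NN s j) * j := by ring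
      exact Nat.le_of_mul_le_mul_right h7 (by omega)
    have h8 : (NN s (j - 1) : ℝ) ≤ 3 * NN s j := by exact_mod_cast h6
    have hp := ch3_NN_pos s (j - 1)
    rw [div_lt_iff₀ hp] at h2
    rw [div_le_iff₀ (ch3_NN_pos _ _)]
    linarith

theorem isJ_next (Z : ℝ) (hZ : 0 < Z) (s j j' : ℕ) (hs : 100 ≤ s)
    (h1 : Z ≤ 3 / 4 * (NN s (s / 4 + 1) : ℝ)) (hj : IsJ Z s j) (hj' : IsJ Z (s + 1) j') :
    j + 2 ≤ j' := by
  have hhi := isJ_hi Z hZ s j hs h1 hj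
  obtain ⟨ha, hb, hc, hd⟩ := hj
  obtain ⟨ha', hb', hc', hd'⟩ := hj'
  by_contra hlt
  push Not at hlt
  have h2 : NN (s + 1) (j + 1) = (j + 1) * NN s j := by
    unfold NN
    rw [Nat.factorial_succ, Nat.add_sub_add_right]
    ring
  have h3 : NN (s + 1) (j + 1) ≤ NN (s + 1) j' := NN_anti (s + 1) j' (j + 1) (by omega) (by omega)
  have h4 : (NN (s + 1) (j + 1) : ℝ) = (j + 1) * NN s j := by exact_mod_cast h2
  have h5 : (NN (s + 1) (j + 1) : ℝ) ≤ NN (s + 1) j' := by exact_mod_cast h3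
  rw [div_le_iff₀ (ch3_NN_pos _ _)] at hhi
  rw [le_div_iff₀ (ch3_NN_pos _ _)] at hc'
  have hj26 : (26 : ℝ) ≤ j := by
    have : 26 ≤ j := by omega
    exact_mod_cast this
  have hp := ch3_NN_pos s j
  rw [h4] at h5
  nlinarith

end Pool.Agent.Helper59.RE
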