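import Pool.Agent.Helper59.RE.Ch2
import Pool.Agent.Helper59.RE.Ch3

/-!
# Project RE: existence of the chain
-/

namespace Pool.Agent.Helper59.RE

open Finset

/-- The last factor is exponentially small. -/
theorem Ch4_lin (Z : ℝ) (hZ : 0 < Z) (s t J : ℕ) (hs : 1000 ≤ t) (hst : s ≤ t)
    (h1 : t / 4 + 1 ≤ J) (h2 : J ≤ 2 * t / 5) (h3 : Z / (NN t J : ℝ) ≤ 3 / 4) :
    Z / (((t - J).factorial : ℕ) : ℝ) ^ 2 ≤ Real.exp (-(s : ℝ)) := by
  set K := t - J with hK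
  have hJf : (0 : ℝ) < (J.factorial : ℝ) := by exact_mod_cast Nat.factorial_pos _
  have hKf : (0 : ℝ) < (K.factorial : ℝ) := by exact_mod_cast Nat.factorial_pos _
  have hNN : (NN t J : ℝ) = (J.factorial : ℝ) * (K.factorial : ℝ) := by
    simp [NN, hK]
  have e1 : Z / (K.factorial : ℝ) ^ 2 = Z / (NN t J : ℝ) * ((J.factorial : ℝ) / (K.factorial : ℝ)) := by
    rw [hNN]; field_simp
  have h4 : J.factorial * (J + 1) ^ (K - J) ≤ K.factorial := by
    have := Nat.factorial_mul_pow_le_factorial (n := K - J) (m := J)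
    rwa [show J + (K - J) = K by omega] at this
  have h5 : (t : ℝ) / 5 ≤ ((K - J : ℕ) : ℝ) := by
    have : t ≤ 5 * (K - J) := by omega
    have h' : (t : ℝ) ≤ 5 * ((K - J : ℕ) : ℝ) := by exact_mod_cast this
    linarith
  have h6 : Real.exp 5 ≤ (J : ℝ) + 1 := by
    have a1 : (243 : ℝ) ≤ (J : ℝ) + 1 := by
      have : 243 ≤ J + 1 := by omega
      exact_mod_cast this
    have a2 : Real.exp 5 = Real.exp 1 ^ 5 := by rw [← Real.exp_nat_mul]; norm_num
    have a3 : Real.exp 1 ≤ 3 := by linarith [Real.exp_one_lt_d9]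
    calc Real.exp 5 = Real.exp 1 ^ 5 := a2
      _ ≤ 3 ^ 5 := pow_le_pow_left₀ (Real.exp_pos _).le a3 5
      _ ≤ (J : ℝ) + 1 := by norm_num; linarith
  have h7 : Real.exp (t : ℝ) ≤ ((J : ℝ) + 1) ^ (K - J) := by
    calc Real.exp (t : ℝ) ≤ Real.exp (((K - J : ℕ) : ℝ) * 5) := Real.exp_le_exp.mpr (by linarith)
      _ = Real.exp 5 ^ (K - J) := by rw [Real.exp_nat_mul]
      _ ≤ ((J : ℝ) + 1) ^ (K - J) := pow_le_pow_left₀ (Real.exp_pos _).le h6 _
  have h8 : (J.factorial : ℝ) * Real.exp (t : ℝ) ≤ (K.factorial : ℝ) := by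
    calc (J.factorial : ℝ) * Real.exp (t : ℝ) ≤ (J.factorial : ℝ) * ((J : ℝ) + 1) ^ (K - J) :=
          mul_le_mul_of_nonneg_left h7 hJf.le
      _ ≤ (K.factorial : ℝ) := by exact_mod_cast h4
  have h9 : (J.factorial : ℝ) / (K.factorial : ℝ) ≤ Real.exp (-(t : ℝ)) := by
    rw [div_le_iff₀ hKf, Real.exp_neg]
    rw [le_inv_mul_iff₀ (Real.exp_pos _)]
    linarith [mul_comm (J.factorial : ℝ) (Real.exp (t : ℝ))]
  have h10 : Real.exp (-(t : ℝ)) ≤ Real.exp (-(s : ℝ)) := by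
    apply Real.exp_le_exp.mpr
    have : (s : ℝ) ≤ t := by exact_mod_cast hst
    linarith
  have h11 : 0 ≤ Z / (NN t J : ℝ) := by positivity
  rw [e1]
  calc Z / (NN t J : ℝ) * ((J.factorial : ℝ) / (K.factorial : ℝ))
      ≤ 1 * Real.exp (-(t : ℝ)) := mul_le_mul (by linarith) h9 (by positivity) (by norm_num)
    _ = Real.exp (-(t : ℝ)) := one_mul _
    _ ≤ Real.exp (-(s : ℝ)) := h10

theorem Ch4_gap (Z : ℝ) (_hZ : 0 < Z) (s t J J' : ℕ) (hs : 1000 ≤ s) (hst : s ≤ t)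
    (h1 : t / 4 + 1 ≤ J) (hJ : J + 2 ≤ J') (h3 : Z / (NN t J : ℝ) ≤ 3 / 4) :
    Z / ((J'.factorial : ℝ) * ((t - J).factorial : ℝ)) ≤ 12 / (s : ℝ) ^ 2 := by
  set K := t - J with hK
  have hJf : (0 : ℝ) < (J.factorial : ℝ) := by exact_mod_cast Nat.factorial_pos _
  have hJf' : (0 : ℝ) < (J'.factorial : ℝ) := by exact_mod_cast Nat.factorial_pos _
  have hKf : (0 : ℝ) < (K.factorial : ℝ) := by exact_mod_cast Nat.factorial_pos _
  have hNN : (NN t J : ℝ) = (J.factorial : ℝ) * (K.factorial : ℝ) := by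
    simp [NN, hK]
  have hspos : (0 : ℝ) < s := by
    have : (1000 : ℝ) ≤ s := by exact_mod_cast hs
    linarith
  have h4 : (J + 2).factorial ≤ J'.factorial := Nat.factorial_le hJ
  have h5 : ((J : ℝ) + 2) * (((J : ℝ) + 1) * (J.factorial : ℝ)) ≤ (J'.factorial : ℝ) := by
    have : ((J + 2).factorial : ℝ) ≤ (J'.factorial : ℝ) := by exact_mod_cast h4
    rw [Nat.factorial_succ, Nat.factorial_succ] at this
    push_cast at this
    linarith
  have h6 : (s : ℝ) / 4 ≤ J := by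
    have : s ≤ 4 * J := by omega
    have h' : (s : ℝ) ≤ 4 * (J : ℝ) := by exact_mod_cast this
    linarith
  have h7 : (s : ℝ) ^ 2 / 16 * (J.factorial : ℝ) ≤ (J'.factorial : ℝ) := by
    refine le_trans ?_ h5
    have a1 : (s : ℝ) ^ 2 / 16 ≤ ((J : ℝ) + 2) * ((J : ℝ) + 1) := by nlinarith
    calc (s : ℝ) ^ 2 / 16 * (J.factorial : ℝ) ≤ (((J : ℝ) + 2) * ((J : ℝ) + 1)) * (J.factorial : ℝ) :=
          mul_le_mul_of_nonneg_right a1 hJf.le
      _ = _ := by ring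
  rw [hNN, div_le_iff₀ (by positivity)] at h3
  rw [div_le_div_iff₀ (by positivity) (by positivity)]
  have h8 : Z * (s : ℝ) ^ 2 ≤ 3 / 4 * ((J.factorial : ℝ) * (K.factorial : ℝ)) * (s : ℝ) ^ 2 :=
    mul_le_mul_of_nonneg_right h3 (by positivity)
  have h9 := mul_le_mul_of_nonneg_right h7 hKf.le
  nlinarith

theorem chain_exists (δ : ℝ) (hδ0 : 0 < δ) (hδ1 : δ < 1) (S : ℕ) :
    ∃ Z₀ : ℝ, 1 ≤ Z₀ ∧ ∀ Z : ℝ, Z₀ ≤ Z → ∃ (s R : ℕ) (j k : ℕ → ℕ), S ≤ s ∧ 1 ≤ R ∧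
      (s : ℝ) ^ (1 - δ) ≤ 2 * R ∧ Z ≤ (s : ℝ) ^ s ∧ Chain Z s R j k := by
  classical
  obtain ⟨Z₀, hZ₀, hval⟩ := valid_range δ hδ0 hδ1 (S + 1000)
  refine ⟨Z₀, hZ₀, fun Z hZ => ?_⟩
  obtain ⟨s, R, hS, hR1, hRs, hpow, hss, hcond⟩ := hval Z hZ
  have hZpos : 0 < Z := by linarith
  have hex : ∀ i, ∃ J, i < R → IsJ Z (s + i) J := by
    intro i
    by_cases hi : i < R
    · obtain ⟨J, hJ⟩ := exists_isJ Z hZpos (s + i) (by omega) (hcond i hi).2
      exact ⟨J, fun _ => hJ⟩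
    · exact ⟨0, fun h => absurd h hi⟩
  choose J hJ using hex
  have hhi : ∀ i, i < R → Z / (NN (s + i) (J i) : ℝ) ≤ 3 / 4 := fun i hi =>
    isJ_hi Z hZpos (s + i) (J i) (by omega) (hcond i hi).1 (hJ i hi)
  have hnext : ∀ i, i + 1 < R → J i + 2 ≤ J (i + 1) := fun i hi =>
    isJ_next Z hZpos (s + i) (J i) (J (i + 1)) (by omega) (hcond i (by omega)).1 (hJ i (by omega))
      (hJ (i + 1) hi)
  have hb1 : ∀ i, i < R → (s + i) / 4 + 1 ≤ J i := fun i hi => (hJ i hi).1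
  have hb2 : ∀ i, i < R → J i ≤ 2 * (s + i) / 5 := fun i hi => (hJ i hi).2.1
  refine ⟨s, R, fun i => if i < R then J i else s + (R - 1) - J (R - 1),
    fun i => s + i - J i, by omega, hR1, hpow, hss, ?_⟩
  have hjs : ∀ i, i < R → (if i < R then J i else s + (R - 1) - J (R - 1)) = J i :=
    fun i hi => if_pos hi
  have hstep : ∀ i, i < R →
      J i + 2 ≤ (if i + 1 < R then J (i + 1) else s + (R - 1) - J (R - 1)) := by
    intro i hi
    by_cases h : i + 1 < R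
    · rw [if_pos h]; exact hnext i h
    · rw [if_neg h]
      have hiR : R - 1 = i := by omega
      rw [hiR]
      have := hb2 i hi
      omega
  have hNNe : ∀ i, i < R → (NN (s + i) (J i) : ℝ) =
      ((J i).factorial : ℝ) * ((s + i - J i).factorial : ℝ) := by
    intro i _
    simp [NN]
  refine ⟨?_, ?_, ?_, ?_, ?_, ?_, ?_, ?_, ?_⟩
  · intro i hi
    have := hstep i hi
    simp only [hjs i hi]
    omega
  · simp
  · intro i hi
    have h1 := hnext i hi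
    have h2 := hb2 (i + 1) hi
    have h3 := hb2 i (by omega)
    show s + (i + 1) - J (i + 1) < s + i - J i
    omega
  · intro i hi
    simp only [hjs i hi]
    rw [← hNNe i hi]
    exact (hJ i hi).2.2.1
  · intro i hi
    simp only [hjs i hi]
    rw [← hNNe i hi]
    exact hhi i hi
  · intro i hi
    exact Ch4_gap Z hZpos s (s + i) (J i) _ (by omega) (by omega) (hb1 i hi) (hstep i hi) (hhi i hi)
  · exact Ch4_lin Z hZpos s (s + (R - 1)) (J (R - 1)) (by omega) (by omega) (hb1 _ (by omega))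
      (hb2 _ (by omega)) (hhi _ (by omega))
  · have h0 : (0 : ℕ) < R := by omega
    simp only [hjs 0 h0]
    have h1 := hb1 0 h0
    have h2 : s ≤ 4 * J 0 := by omega
    have h3 : (s : ℝ) ≤ 4 * (J 0 : ℝ) := by exact_mod_cast h2
    linarith
  · intro i hi
    have h1 : s + i - J i ≤ 2 * s := by omega
    exact_mod_cast h1

end Pool.Agent.Helper59.RE
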