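import Pool.Agent.Helper59.RE.AV

/-!
# Project RE: the middle digits
-/

namespace Pool.Agent.Helper59.RE

open Finset

/-- Averaging a product of functions `ψ i`, where `ψ i` depends on the digits below `j (i+1)` only
and is small on average over the digit `j i`. -/
theorem mid (p : ℕ → ℝ) (hp0 : ∀ k, 0 ≤ p k) (hp1 : ∀ k, p k ≤ 1) (q R : ℕ) (j : ℕ → ℕ)
    (hq : q ≤ j 0) (hj : ∀ i < R, j i < j (i + 1)) (ψ : ℕ → Finset ℕ → ℝ) (c : ℕ → ℝ)
    (hdep : ∀ i < R, ∀ T : Finset ℕ, ψ i T = ψ i (T.filter (· < j (i + 1))))
    (hnn : ∀ i < R, ∀ T : Finset ℕ, 0 ≤ ψ i T)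
    (hflip : ∀ i < R, ∀ T : Finset ℕ, T ⊆ Ico q (j (i + 1)) → j i ∉ T →
      (1 - p (j i)) * ψ i T + p (j i) * ψ i (insert (j i) T) ≤ c i) :
    av p (Ico q (j R)) (fun T => ∏ i ∈ range R, ψ i T) ≤ ∏ i ∈ range R, c i := by
  classical
  have hc0 : ∀ i < R, 0 ≤ c i := by
    intro i hi
    have h1 := hflip i hi ∅ (Finset.empty_subset _) (Finset.notMem_empty _)
    have h2 := hnn i hi ∅
    have h3 := hnn i hi (insert (j i) ∅)
    have a0 := hp0 (j i)
    have a1 := hp1 (j i)
    have h4 : 0 ≤ (1 - p (j i)) * ψ i ∅ := mul_nonneg (by linarith) h2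
    have h5 : 0 ≤ p (j i) * ψ i (insert (j i) ∅) := mul_nonneg a0 h3
    linarith
  have hjm : ∀ n i, i + n ≤ R → j i ≤ j (i + n) := by
    intro n
    induction n with
    | zero => intro i _; simp
    | succ n ih =>
      intro i hi
      have h1 := ih i (by omega)
      have h2 := hj (i + n) (by omega)
      have : i + (n + 1) = (i + n) + 1 := by ring
      rw [this]
      omega
  have hjm' : ∀ i i', i ≤ i' → i' ≤ R → j i ≤ j i' := by
    intro i i' h1 h2
    have := hjm (i' - i) i (by omega)
    rwa [show i + (i' - i) = i' by omega] at this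
  suffices H : ∀ n ≤ R, av p (Ico q (j n)) (fun T => ∏ i ∈ range n, ψ i T) ≤
      ∏ i ∈ range n, c i from H R le_rfl
  intro n
  induction n with
  | zero =>
    intro _
    simp only [Finset.range_zero, Finset.prod_empty]
    rw [av_const]
  | succ n ih =>
    intro hn
    have hnR : n < R := by omega
    have ihn := ih (by omega)
    have hqn : q ≤ j n := hq.trans (hjm' 0 n (by omega) (by omega))
    have hnn1 : j n < j (n + 1) := hj n hnR
    set U := Ico q (j n) with hU
    set V := Ico (j n + 1) (j (n + 1)) with hV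
    have hS : Ico q (j (n + 1)) = insert (j n) (U ∪ V) := by
      ext x
      simp only [hU, hV, Finset.mem_insert, Finset.mem_union, Finset.mem_Ico]
      omega
    have hnot : j n ∉ U ∪ V := by
      simp only [hU, hV, Finset.mem_union, Finset.mem_Ico]
      omega
    have hUV : Disjoint U V := by
      rw [Finset.disjoint_left]
      intro x hx hx'
      simp only [hU, hV, Finset.mem_Ico] at hx hx'
      omega
    rw [hS, av_insert p _ _ hnot, av_union p U V hUV]
    -- the earlier factors do not see the new digits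
    have hQ : ∀ T ⊆ U, ∀ T' : Finset ℕ, (∀ x ∈ T', j n ≤ x) →
        ∏ i ∈ range n, ψ i (T ∪ T') = ∏ i ∈ range n, ψ i T := by
      intro T hT T' hT'
      refine Finset.prod_congr rfl (fun i hi => ?_)
      have hin : i < n := Finset.mem_range.mp hi
      have hiR : i < R := by omega
      rw [hdep i hiR (T ∪ T'), hdep i hiR T]
      congr 1
      ext x
      simp only [Finset.mem_filter, Finset.mem_union]
      constructor
      · rintro ⟨h1 | h1, h2⟩
        · exact ⟨h1, h2⟩
        · have h3 := hT' x h1
          have h4 := hjm' (i + 1) n (by omega) (by omega)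
          omega
      · rintro ⟨h1, h2⟩
        exact ⟨Or.inl h1, h2⟩
    have hstep : ∀ T ⊆ U, av p V (fun T' => (1 - p (j n)) • ∏ i ∈ range (n + 1), ψ i (T ∪ T') +
        p (j n) • ∏ i ∈ range (n + 1), ψ i (insert (j n) (T ∪ T'))) ≤
        c n * ∏ i ∈ range n, ψ i T := by
      intro T hT
      rw [← av_const p V (c n * ∏ i ∈ range n, ψ i T)]
      refine av_mono p hp0 hp1 V _ _ (fun T' hT' => ?_)
      have hT'x : ∀ x ∈ T', j n ≤ x := by
        intro x hx
        have := Finset.mem_Ico.mp (hT' hx)
        omega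
      have hins : insert (j n) (T ∪ T') = T ∪ insert (j n) T' := by
        ext x
        simp only [Finset.mem_insert, Finset.mem_union]
        tauto
      have hT'x2 : ∀ x ∈ insert (j n) T', j n ≤ x := by
        intro x hx
        rcases Finset.mem_insert.mp hx with h | h
        · omega
        · exact hT'x x h
      rw [Finset.prod_range_succ, Finset.prod_range_succ, hQ T hT T' hT'x, hins,
        hQ T hT _ hT'x2, ← hins]
      have hQ0 : 0 ≤ ∏ i ∈ range n, ψ i T :=
        Finset.prod_nonneg (fun i hi => hnn i (by have := Finset.mem_range.mp hi; omega) T)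
      have hsub : T ∪ T' ⊆ Ico q (j (n + 1)) := by
        rw [hS]
        exact (Finset.union_subset_union hT hT').trans (Finset.subset_insert _ _)
      have hnT : j n ∉ T ∪ T' := fun h => hnot (Finset.union_subset_union hT hT' h)
      have hf := hflip n hnR (T ∪ T') hsub hnT
      have := mul_le_mul_of_nonneg_left hf hQ0
      simp only [smul_eq_mul]
      linarith
    refine (av_mono p hp0 hp1 U _ _ hstep).trans ?_
    rw [av_mul_left, Finset.prod_range_succ, mul_comm]
    exact mul_le_mul_of_nonneg_right ihn (hc0 n hnR)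

end Pool.Agent.Helper59.RE
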