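import Pool.Agent.Helper59.RE.Top
import Pool.Agent.Helper59.RE.Mid

/-!
# Project RE: the key lemma (van der Corput for random factorial series)
-/

namespace Pool.Agent.Helper59.RE

open Finset

theorem core_av_mul (p : ℕ → ℝ) (S : Finset ℕ) (c : ℂ) (F : Finset ℕ → ℂ) :
    av p S (fun T => c * F T) = c * av p S F := by
  unfold av
  rw [Finset.mul_sum]
  refine Finset.sum_congr rfl (fun T _ => ?_)
  rw [mul_smul_comm]

theorem core_mu_nonneg (p : ℕ → ℝ) (hp0 : ∀ k, 0 ≤ p k) (hp1 : ∀ k, p k ≤ 1) (k : ℕ) :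
    0 ≤ mu p k := le_min (hp0 k) (by linarith [hp1 k])

theorem core_mu_half (p : ℕ → ℝ) (k : ℕ) : mu p k ≤ 1 / 2 := by
  unfold mu
  rcases le_total (p k) (1 - p k) with h | h
  · rw [min_eq_left h]; linarith
  · rw [min_eq_right h]; linarith

theorem core_mu_beta (p : ℕ → ℝ) (hp0 : ∀ k, 0 ≤ p k) (hp1 : ∀ k, p k ≤ 1) (k : ℕ) :
    mu p k ≤ 2 * (p k * (1 - p k)) := by
  unfold mu
  have h0 := hp0 k
  have h1 := hp1 k
  rcases le_total (p k) (1 - p k) with h | h
  · rw [min_eq_left h]; nlinarith
  · rw [min_eq_right h]; nlinarith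

theorem core_beta_half (p : ℕ → ℝ) (k : ℕ) : 2 * (p k * (1 - p k)) ≤ 1 / 2 := by
  nlinarith [sq_nonneg (p k - 1 / 2)]

theorem core_beta_nonneg (p : ℕ → ℝ) (hp0 : ∀ k, 0 ≤ p k) (hp1 : ∀ k, p k ≤ 1) (k : ℕ) :
    0 ≤ 2 * (p k * (1 - p k)) := by
  have h0 := hp0 k
  have h1 := hp1 k
  have : 0 ≤ p k * (1 - p k) := mul_nonneg h0 (by linarith)
  linarith

/-- The inner average over the top digits. -/
theorem core_inner (p : ℕ → ℝ) (hp0 : ∀ k, 0 ≤ p k) (hp1 : ∀ k, p k ≤ 1) (Z : ℝ) (hZ : 0 ≤ Z)
    (R : ℕ) (k : ℕ → ℕ) (K M : ℕ) (hK : 1 ≤ K)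
    (hinj : Set.InjOn k (Set.Iio R)) (hk : ∀ i < R, k i ∈ Ico K M) (b' w : ℝ) (f g : ℝ → ℝ)
    (F1 : ∀ x y : ℝ, b' ≤ x → 0 ≤ y → x + y ≤ b' + w → |f (x + y) - f x - g x * y| ≤ Z * y ^ 2)
    (x0 : ℝ) (hx0 : b' ≤ x0) (hx1 : x0 + 2 / (K.factorial : ℝ) ≤ b' + w ∨
      ∀ T' ⊆ Ico K M, x0 + xs T' ≤ b' + w) :
    ‖av p (Ico K M) (fun T' => e (f (x0 + xs T')))‖ ≤
      2 * Real.pi * (Z * (2 / (K.factorial : ℝ)) ^ 2) + ∏ i ∈ range R,
      (1 - 2 * (p (k i) * (1 - p (k i))) *
        Real.sin (Real.pi * (g x0 / ((k i).factorial : ℝ))) ^ 2) := by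
  have hx1' : ∀ T' ⊆ Ico K M, x0 + xs T' ≤ b' + w := by
    intro T' hT'
    rcases hx1 with h | h
    · have := xs_le' K M hK T' hT'
      linarith
    · exact h T' hT'
  have hsplit : (fun T' : Finset ℕ => e (f (x0 + xs T'))) =
      (fun T' => e (f x0) * e (g x0 * xs T') +
        (e (f (x0 + xs T')) - e (f x0) * e (g x0 * xs T'))) := by
    funext T'
    ring
  rw [hsplit, av_add]
  refine (norm_add_le _ _).trans ?_
  rw [add_comm (2 * Real.pi * _)]
  refine add_le_add ?_ ?_
  · rw [core_av_mul, norm_mul, norm_e, one_mul]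
    exact top p hp0 hp1 (Ico K M) (g x0) R k hinj hk
  · refine (av_norm p hp0 hp1 _ _).trans ?_
    rw [← av_const p (Ico K M) (2 * Real.pi * (Z * (2 / (K.factorial : ℝ)) ^ 2))]
    refine av_mono p hp0 hp1 _ _ _ (fun T' hT' => ?_)
    rw [← e_add]
    refine (norm_e_sub _ _).trans ?_
    refine mul_le_mul_of_nonneg_left ?_ (by positivity)
    have h1 := F1 x0 (xs T') hx0 (xs_nonneg T') (hx1' T' hT')
    have h2 : f (x0 + xs T') - (f x0 + g x0 * xs T') = f (x0 + xs T') - f x0 - g x0 * xs T' := by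
      ring
    rw [h2]
    refine h1.trans (mul_le_mul_of_nonneg_left ?_ hZ)
    exact pow_le_pow_left₀ (xs_nonneg T') (xs_le' K M hK T' hT') 2

theorem core (p : ℕ → ℝ) (hp0 : ∀ k, 0 ≤ p k) (hp1 : ∀ k, p k ≤ 1) (Z : ℝ) (s R : ℕ)
    (hs : 1000 ≤ s) (hR : 1 ≤ R) (j k : ℕ → ℕ) (hc : Chain Z s R j k) (q M : ℕ) (hq1 : 1 ≤ q)
    (hq : q ≤ j 0) (hM : k 0 < M)
    (hμ : ∀ i < R, 1500 / (s : ℝ) ^ 2 ≤ mu p (j i))
    (b' w : ℝ) (hw : 2 / (q.factorial : ℝ) ≤ w) (f g : ℝ → ℝ)
    (F1 : ∀ x y : ℝ, b' ≤ x → 0 ≤ y → x + y ≤ b' + w → |f (x + y) - f x - g x * y| ≤ Z * y ^ 2)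
    (F2 : ∀ x y : ℝ, b' ≤ x → 0 ≤ y → x + y ≤ b' + w →
      Z * y ≤ g (x + y) - g x ∧ g (x + y) - g x ≤ 1.01 * Z * y) :
    ‖av p (Ico q M) (fun T => e (f (b' + xs T)))‖ ≤
      8 * Real.pi * Real.exp (-(s : ℝ)) + ∏ i ∈ range R, (1 - 0.2 * (mu p (k i) * mu p (j i))) := by
  classical
  have hsR : (0 : ℝ) < s := by
    have : (1000 : ℝ) ≤ s := by exact_mod_cast hs
    linarith
  -- positivity of Z
  have hfac : ∀ n : ℕ, (0 : ℝ) < (n.factorial : ℝ) := fun n => by exact_mod_cast n.factorial_pos
  have hZ : 0 < Z := by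
    by_contra hneg
    push Not at hneg
    have h1 := hc.lo 0 (by omega)
    have h2 : Z / ((j 0).factorial * (k 0).factorial : ℝ) ≤ 0 :=
      div_nonpos_of_nonpos_of_nonneg hneg (by positivity)
    linarith
  -- monotonicity
  have hjm : ∀ n i, i + n ≤ R → j i ≤ j (i + n) := by
    intro n
    induction n with
    | zero => intro i _; simp
    | succ n ih =>
      intro i hi
      have h1 := ih i (by omega)
      have h2 := hc.jmono (i + n) (by omega)
      have : i + (n + 1) = (i + n) + 1 := by ring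
      rw [this]
      omega
  have hjm' : ∀ i i', i ≤ i' → i' ≤ R → j i ≤ j i' := by
    intro i i' h1 h2
    have := hjm (i' - i) i (by omega)
    rwa [show i + (i' - i) = i' by omega] at this
  have hkm : ∀ n i, i + n + 1 < R + 0 → k (i + n + 1) < k i := by
    intro n
    induction n with
    | zero => intro i hi; exact hc.kanti i (by omega)
    | succ n ih =>
      intro i hi
      have h1 := ih i (by omega)
      have h2 := hc.kanti (i + n + 1) (by omega)
      have : i + (n + 1) + 1 = (i + n + 1) + 1 := by ring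
      rw [this]
      omega
  have hkm' : ∀ i i', i < i' → i' < R → k i' < k i := by
    intro i i' h1 h2
    have := hkm (i' - i - 1) i (by omega)
    rwa [show i + (i' - i - 1) + 1 = i' by omega] at this
  set K := j R with hKdef
  have hKk : K = k (R - 1) := hc.jR
  have hKle : ∀ i < R, K ≤ k i := by
    intro i hi
    rw [hKk]
    rcases Nat.lt_or_ge i (R - 1) with h | h
    · exact (hkm' i (R - 1) h (by omega)).le
    · have : i = R - 1 := by omega
      rw [this]
  have hkM : ∀ i < R, k i < M := by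
    intro i hi
    rcases Nat.eq_zero_or_pos i with h | h
    · rw [h]; exact hM
    · exact lt_trans (hkm' 0 i h hi) hM
  have hj0K : j 0 < K := by
    have h1 : j 0 < j 1 := hc.jmono 0 (by omega)
    have h2 := hjm' 1 R hR le_rfl
    omega
  have hK1 : 1 ≤ K := by omega
  have hqK : q ≤ K := by omega
  have hKM : K ≤ M := (hKle 0 (by omega)).trans hM.le
  have hinj : Set.InjOn k (Set.Iio R) := by
    intro i hi i' hi' heq
    simp only [Set.mem_Iio] at hi hi'
    rcases lt_trichotomy i i' with h | h | h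
    · have := hkm' i i' h hi'; omega
    · exact h
    · have := hkm' i' i h hi; omega
  -- the split
  have hU : Ico q M = Ico q K ∪ Ico K M := (Finset.Ico_union_Ico_eq_Ico hqK hKM).symm
  have hdisj : Disjoint (Ico q K) (Ico K M) := Finset.Ico_disjoint_Ico_consecutive q K M
  rw [hU, av_union p _ _ hdisj]
  refine (av_norm p hp0 hp1 _ _).trans ?_
  -- the functions psi
  set β : ℕ → ℝ := fun i => 2 * (p (k i) * (1 - p (k i))) with hβ
  have hβ0 : ∀ i, 0 ≤ β i := fun i => core_beta_nonneg p hp0 hp1 (k i)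
  have hβ1 : ∀ i, β i ≤ 1 / 2 := fun i => core_beta_half p (k i)
  set ψ : ℕ → Finset ℕ → ℝ := fun i T =>
    1 - β i * Real.sin (Real.pi * (g (b' + xs (T ∩ Ico q (j (i + 1)))) /
      ((k i).factorial : ℝ))) ^ 2 + 100 * β i / (s : ℝ) ^ 2 with hψ
  -- the union is a subset
  have hxsU : ∀ T ⊆ Ico q K, ∀ T' ⊆ Ico K M, xs (T ∪ T') = xs T + xs T' ∧
      xs T + xs T' ≤ 2 / (q.factorial : ℝ) := by
    intro T hT T' hT'
    have h1 : xs (T ∪ T') = xs T + xs T' :=
      xs_union T T' (Finset.disjoint_of_subset_left hT (Finset.disjoint_of_subset_right hT' hdisj))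
    refine ⟨h1, ?_⟩
    rw [← h1]
    refine xs_le' q M hq1 _ ?_
    rw [hU]
    exact Finset.union_subset_union hT hT'
  have hstep1 : ∀ T : Finset ℕ, T ⊆ Ico q K →
      ‖av p (Ico K M) (fun T' => e (f (b' + xs (T ∪ T'))))‖ ≤
        8 * Real.pi * Real.exp (-(s : ℝ)) + ∏ i ∈ range R, ψ i T := by
    intro T hT
    have hcongr : av p (Ico K M) (fun T' => e (f (b' + xs (T ∪ T')))) =
        av p (Ico K M) (fun T' => e (f ((b' + xs T) + xs T'))) := by
      refine av_congr p _ _ _ (fun T' hT' => ?_)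
      rw [(hxsU T hT T' hT').1, add_assoc]
    rw [hcongr]
    refine (core_inner p hp0 hp1 Z hZ.le R k K M hK1 hinj
      (fun i hi => Finset.mem_Ico.mpr ⟨hKle i hi, hkM i hi⟩) b' w f g F1 (b' + xs T)
      (by linarith [xs_nonneg T]) (Or.inr ?_)).trans ?_
    · intro T' hT'
      have := (hxsU T hT T' hT').2
      linarith
    · refine add_le_add ?_ ?_
      · have h1 : Z * (2 / (K.factorial : ℝ)) ^ 2 = 4 * (Z / ((k (R - 1)).factorial : ℝ) ^ 2) := by
          rw [hKk]
          ring
        rw [h1]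
        have h2 := hc.lin
        have hpi := Real.pi_pos
        calc 2 * Real.pi * (4 * (Z / ((k (R - 1)).factorial : ℝ) ^ 2))
            = 8 * Real.pi * (Z / ((k (R - 1)).factorial : ℝ) ^ 2) := by ring
          _ ≤ 8 * Real.pi * Real.exp (-(s : ℝ)) :=
            mul_le_mul_of_nonneg_left h2 (by positivity)
      · refine Finset.prod_le_prod ?_ ?_
        · intro i _
          have h1 : Real.sin (Real.pi * (g (b' + xs T) / ((k i).factorial : ℝ))) ^ 2 ≤ 1 :=
            Real.sin_sq_le_one _
          have h2 := hβ0 i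
          have h3 := hβ1 i
          have h4 : 0 ≤ Real.sin (Real.pi * (g (b' + xs T) / ((k i).factorial : ℝ))) ^ 2 :=
            sq_nonneg _
          simp only [hβ] at h2 h3
          nlinarith
        · intro i hi
          have hiR : i < R := Finset.mem_range.mp hi
          -- the truncated digit string
          set T1 := T ∩ Ico q (j (i + 1)) with hT1
          set T2 := T \ Ico q (j (i + 1)) with hT2
          have hTu : T1 ∪ T2 = T := by
            rw [hT1, hT2]
            ext x
            simp only [Finset.mem_union, Finset.mem_inter, Finset.mem_sdiff]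
            tauto
          have hTd : Disjoint T1 T2 := by
            rw [hT1, hT2]
            exact Finset.disjoint_left.mpr (fun x h1 h2 => by
              rw [Finset.mem_inter] at h1
              rw [Finset.mem_sdiff] at h2
              exact h2.2 h1.2)
          have hxT : xs T = xs T1 + xs T2 := by
            conv_lhs => rw [← hTu]
            exact xs_union T1 T2 hTd
          have hT2s : T2 ⊆ Ico (j (i + 1)) K := by
            intro x hx
            rw [hT2, Finset.mem_sdiff] at hx
            have h1 := Finset.mem_Ico.mp (hT hx.1)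
            rw [Finset.mem_Ico]
            refine ⟨?_, h1.2⟩
            by_contra h
            exact hx.2 (Finset.mem_Ico.mpr ⟨h1.1, by omega⟩)
          have hj1 : 1 ≤ j (i + 1) := by
            have := hjm' 0 (i + 1) (by omega) (by omega)
            omega
          have hx2 : xs T2 ≤ 2 / ((j (i + 1)).factorial : ℝ) := xs_le' _ K hj1 T2 hT2s
          have hx20 := xs_nonneg T2
          have hxTle : xs T ≤ 2 / (q.factorial : ℝ) := xs_le' q K hq1 T hT
          have hF2 := F2 (b' + xs T1) (xs T2) (by linarith [xs_nonneg T1]) hx20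
            (by rw [add_assoc, ← hxT]; linarith)
          rw [add_assoc, ← hxT] at hF2
          have hki := hfac (k i)
          have hji := hfac (j (i + 1))
          have hgap := hc.gap i hiR
          have hdiff : |g (b' + xs T1) / ((k i).factorial : ℝ) -
              g (b' + xs T) / ((k i).factorial : ℝ)| ≤ 24.24 / (s : ℝ) ^ 2 := by
            rw [← sub_div, abs_div, abs_of_pos hki]
            have hb : |g (b' + xs T1) - g (b' + xs T)| ≤ 1.01 * Z * (2 /
                ((j (i + 1)).factorial : ℝ)) := by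
              have h1 : 1.01 * Z * xs T2 ≤ 1.01 * Z * (2 / ((j (i + 1)).factorial : ℝ)) :=
                mul_le_mul_of_nonneg_left hx2 (by positivity)
              have h2 : 0 ≤ Z * xs T2 := by positivity
              rw [abs_le]
              constructor <;> linarith [hF2.1, hF2.2]
            calc |g (b' + xs T1) - g (b' + xs T)| / ((k i).factorial : ℝ)
                ≤ (1.01 * Z * (2 / ((j (i + 1)).factorial : ℝ))) / ((k i).factorial : ℝ) :=
                  div_le_div_of_nonneg_right hb hki.le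
              _ = 2.02 * (Z / ((j (i + 1)).factorial * (k i).factorial : ℝ)) := by
                  field_simp
                  ring
              _ ≤ 2.02 * (12 / (s : ℝ) ^ 2) := mul_le_mul_of_nonneg_left hgap (by norm_num)
              _ = 24.24 / (s : ℝ) ^ 2 := by ring
          have hlip := sin_sq_lip (g (b' + xs T1) / ((k i).factorial : ℝ))
            (g (b' + xs T) / ((k i).factorial : ℝ))
          have hpi := Real.pi_lt_d2
          have hpi0 := Real.pi_pos
          have hbound : Real.sin (Real.pi * (g (b' + xs T1) / ((k i).factorial : ℝ))) ^ 2 -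
              Real.sin (Real.pi * (g (b' + xs T) / ((k i).factorial : ℝ))) ^ 2 ≤
              100 / (s : ℝ) ^ 2 := by
            have h1 := (le_abs_self _).trans hlip
            have h2 : Real.pi * |g (b' + xs T1) / ((k i).factorial : ℝ) -
              g (b' + xs T) / ((k i).factorial : ℝ)| ≤ Real.pi * (24.24 / (s : ℝ) ^ 2) :=
              mul_le_mul_of_nonneg_left hdiff hpi0.le
            have h3 : Real.pi * (24.24 / (s : ℝ) ^ 2) ≤ 100 / (s : ℝ) ^ 2 := by
              rw [mul_div_assoc']
              refine div_le_div_of_nonneg_right ?_ (by positivity)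
              nlinarith
            linarith
          have h5 := mul_le_mul_of_nonneg_left hbound (hβ0 i)
          have h6 : β i * (100 / (s : ℝ) ^ 2) = 100 * β i / (s : ℝ) ^ 2 := by ring
          rw [h6] at h5
          simp only [hψ]
          rw [← hT1]
          simp only [hβ] at h5 ⊢
          linarith
  have hmono := av_mono p hp0 hp1 (Ico q K) _ _ hstep1
  refine hmono.trans ?_
  rw [av_add p (Ico q K) (fun _ => 8 * Real.pi * Real.exp (-(s : ℝ))), av_const]
  refine add_le_add le_rfl ?_
  -- the middle digits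
  set c : ℕ → ℝ := fun i => 1 - 0.27 * β i * mu p (j i) + 100 * β i / (s : ℝ) ^ 2 with hcdef
  have hmid := mid p hp0 hp1 q R j hq hc.jmono ψ c ?_ ?_ ?_
  · refine hmid.trans (Finset.prod_le_prod ?_ ?_)
    · intro i _
      have h1 := hβ0 i
      have h2 := hβ1 i
      have h3 := core_mu_half p (j i)
      have h4 := core_mu_nonneg p hp0 hp1 (j i)
      have h5 : 0 ≤ 100 * β i / (s : ℝ) ^ 2 := by positivity
      simp only [hcdef]
      nlinarith
    · intro i hi
      have hiR : i < R := Finset.mem_range.mp hi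
      have h1 := hβ0 i
      have h4 := core_mu_nonneg p hp0 hp1 (j i)
      have h6 := core_mu_beta p hp0 hp1 (k i)
      have h7 := hμ i hiR
      have h8 : (1500 : ℝ) / (s : ℝ) ^ 2 = 15 * (100 / (s : ℝ) ^ 2) := by ring
      have h9 : 100 * β i / (s : ℝ) ^ 2 = β i * (100 / (s : ℝ) ^ 2) := by ring
      rw [h8] at h7
      simp only [hcdef]
      rw [h9]
      set t := 100 / (s : ℝ) ^ 2 with ht
      have ht0 : 0 ≤ t := by positivity
      have h10 : mu p (k i) ≤ β i := h6
      have h11 : mu p (k i) * mu p (j i) ≤ β i * mu p (j i) :=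
        mul_le_mul_of_nonneg_right h10 h4
      have h12 : β i * (15 * t) ≤ β i * mu p (j i) := mul_le_mul_of_nonneg_left h7 h1
      nlinarith
  · -- hdep
    intro i hi T
    simp only [hψ]
    have : T.filter (· < j (i + 1)) ∩ Ico q (j (i + 1)) = T ∩ Ico q (j (i + 1)) := by
      ext x
      simp only [Finset.mem_inter, Finset.mem_filter, Finset.mem_Ico]
      tauto
    rw [this]
  · -- nonnegativity
    intro i hi T
    have h1 := hβ0 i
    have h2 := hβ1 i
    have h3 : Real.sin (Real.pi * (g (b' + xs (T ∩ Ico q (j (i + 1)))) /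
      ((k i).factorial : ℝ))) ^ 2 ≤ 1 := Real.sin_sq_le_one _
    have h4 : 0 ≤ Real.sin (Real.pi * (g (b' + xs (T ∩ Ico q (j (i + 1)))) /
      ((k i).factorial : ℝ))) ^ 2 := sq_nonneg _
    have h5 : 0 ≤ 100 * β i / (s : ℝ) ^ 2 := by positivity
    simp only [hψ]
    nlinarith
  · -- switching one digit
    intro i hi T hT hjT
    have hjq : q ≤ j i := hq.trans (hjm' 0 i (by omega) hi.le)
    have hTi : T ∩ Ico q (j (i + 1)) = T := Finset.inter_eq_left.mpr hT
    have hins : insert (j i) T ⊆ Ico q (j (i + 1)) := by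
      intro x hx
      rcases Finset.mem_insert.mp hx with h | h
      · rw [h, Finset.mem_Ico]
        exact ⟨hjq, hc.jmono i hi⟩
      · exact hT h
    have hTi' : insert (j i) T ∩ Ico q (j (i + 1)) = insert (j i) T :=
      Finset.inter_eq_left.mpr hins
    have hx1 := xs_insert T (j i) hjT
    have hxle := xs_le' q _ hq1 _ hins
    have hy0 : (0 : ℝ) ≤ 1 / ((j i).factorial : ℝ) := by positivity
    have hF2 := F2 (b' + xs T) (1 / ((j i).factorial : ℝ)) (by linarith [xs_nonneg T]) hy0
      (by rw [add_assoc, ← hx1]; linarith)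
    rw [add_assoc, ← hx1] at hF2
    have hki := hfac (k i)
    have hji := hfac (j i)
    set t := g (b' + xs T) / ((k i).factorial : ℝ) with ht
    set u := (g (b' + xs (insert (j i) T)) - g (b' + xs T)) / ((k i).factorial : ℝ) with hu
    have htu : g (b' + xs (insert (j i) T)) / ((k i).factorial : ℝ) = t + u := by
      rw [ht, hu]
      ring
    have hu1 : 1 / 4 ≤ u := by
      refine (hc.lo i hi).trans ?_
      rw [hu, le_div_iff₀ hki]
      refine le_trans (le_of_eq ?_) hF2.1
      field_simp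
    have hu2 : u ≤ 0.76 := by
      have h1 := hc.hi i hi
      have h2 : u ≤ 1.01 * (Z / ((j i).factorial * (k i).factorial : ℝ)) := by
        rw [hu, div_le_iff₀ hki]
        refine hF2.2.trans (le_of_eq ?_)
        field_simp
      linarith
    have hfl := flip (p (j i)) (β i) (100 * β i / (s : ℝ) ^ 2) t u (hp0 _) (hp1 _) (hβ0 i) hu1 hu2
    simp only [hψ]
    rw [hTi, hTi', htu, ← ht]
    simp only [hcdef, mu]
    exact hfl

end Pool.Agent.Helper59.RE
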