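import Pool.Agent.Helper59.RE.Core
import Pool.Agent.Helper59.RE.Ch4
import Pool.Agent.Helper59.RE.Calc1
import Pool.Agent.Helper59.RE.Calc3
import Pool.Agent.Helper59.RE.Asy
import Pool.Agent.Helper59.RE.Asy2
import Pool.Agent.Helper59.RE.AV
import Pool.Agent.Helper59.RE.Bas

/-!
# Project RE: the correlations, finitely many digits
-/

namespace Pool.Agent.Helper59.RE

open Finset Polynomial

/-- The indices of a chain: `j i` lies between `j 0` and `j R`. -/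
theorem CorrFin_j {Z : ℝ} {s R : ℕ} {j k : ℕ → ℕ} (hc : Chain Z s R j k) :
    ∀ i, i ≤ R → j 0 ≤ j i := by
  intro i
  induction i with
  | zero => intro _; exact le_rfl
  | succ i ih =>
    intro hi
    exact (ih (by omega)).trans (hc.jmono i (by omega)).le

/-- The indices of a chain: `j i ≤ j R`. -/
theorem CorrFin_j' {Z : ℝ} {s R : ℕ} {j k : ℕ → ℕ} (hc : Chain Z s R j k) :
    ∀ d, d ≤ R → j (R - d) ≤ j R := by
  intro d
  induction d with
  | zero => intro _; simp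
  | succ d ih =>
    intro hd
    have h1 := hc.jmono (R - (d + 1)) (by omega)
    have h2 : R - (d + 1) + 1 = R - d := by omega
    rw [h2] at h1
    exact h1.le.trans (ih (by omega))

/-- The indices of a chain: `k (R - 1) ≤ k i`. -/
theorem CorrFin_k {Z : ℝ} {s R : ℕ} {j k : ℕ → ℕ} (hc : Chain Z s R j k) :
    ∀ d, d + 1 ≤ R → k (R - 1) ≤ k (R - 1 - d) := by
  intro d
  induction d with
  | zero => intro _; simp
  | succ d ih =>
    intro hd
    have h1 := hc.kanti (R - 1 - (d + 1)) (by omega)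
    have h2 : R - 1 - (d + 1) + 1 = R - 1 - d := by omega
    rw [h2] at h1
    exact (ih (by omega)).trans h1.le

/-- All indices of a chain lie between `s / 4` and `2 s`. -/
theorem CorrFin_range {Z : ℝ} {s R : ℕ} {j k : ℕ → ℕ} (hR : 1 ≤ R) (hc : Chain Z s R j k)
    (i : ℕ) (hi : i < R) :
    ((s : ℝ) / 4 ≤ j i ∧ (j i : ℝ) ≤ 2 * s) ∧ ((s : ℝ) / 4 ≤ k i ∧ (k i : ℝ) ≤ 2 * s) := by
  have h0 : (s : ℝ) / 4 ≤ j 0 := hc.jlo
  have h1 : (j 0 : ℝ) ≤ j i := by exact_mod_cast CorrFin_j hc i hi.le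
  have h2 : (j i : ℝ) ≤ j R := by
    have := CorrFin_j' hc (R - i) (by omega)
    rw [show R - (R - i) = i by omega] at this
    exact_mod_cast this
  have h3 : (j R : ℝ) = k (R - 1) := by exact_mod_cast hc.jR
  have h4 : (k (R - 1) : ℝ) ≤ k i := by
    have := CorrFin_k hc (R - 1 - i) (by omega)
    rw [show R - 1 - (R - 1 - i) = i by omega] at this
    exact_mod_cast this
  have h5 := hc.khi (R - 1) (by omega)
  have h6 := hc.khi i hi
  exact ⟨⟨by linarith, by linarith⟩, ⟨by linarith, h6⟩⟩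

/-- The case of one pattern of the digits between `q` and `q'`. -/
theorem CorrFin_inner (P : ℝ[X]) (b'' w Z Z' : ℝ) (m n h : ℕ) (δ : ℝ)
    (p : ℕ → ℝ) (hp0 : ∀ k, 0 ≤ p k) (hp1 : ∀ k, p k ≤ 1) (q' : ℕ) (hq' : 1 ≤ q')
    (hw : w = 2 / (q'.factorial : ℝ)) (hZ0 : 0 ≤ Z) (hZ' : Z' = h * Z)
    (hF : ∀ x ∈ Set.Icc b'' (b'' + w), Z ≤ FF2 P m n x ∧ FF2 P m n x ≤ 1.01 * Z)
    (s R : ℕ) (j k : ℕ → ℕ) (hs : 1000 ≤ s) (hR : 1 ≤ R) (hc : Chain Z' s R j k)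
    (hq'j : q' ≤ j 0)
    (hmu : ∀ k : ℕ, (s : ℝ) / 4 ≤ k → (k : ℝ) ≤ 2 * s →
      (2 * s : ℝ) ^ (-(1 / 2 : ℝ) + δ) ≤ mu p k ∧ 1500 / (s : ℝ) ^ 2 ≤ mu p k)
    (hfin : 8 * Real.pi * Real.exp (-(s : ℝ)) +
        (1 - 0.2 * ((2 * s : ℝ) ^ (-(1 / 2 : ℝ) + δ) * (2 * s : ℝ) ^ (-(1 / 2 : ℝ) + δ))) ^ R ≤
      1 / (m : ℝ) ^ 4) (M : ℕ) (hM : k 0 < M) :
    ‖av p (Ico q' M) (fun T => e (h * FF P m n (b'' + xs T)))‖ ≤ 1 / (m : ℝ) ^ 4 := by
  have hh0 : (0 : ℝ) ≤ h := Nat.cast_nonneg h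
  have hZ'0 : 0 ≤ Z' := by rw [hZ']; positivity
  have hC1 : ∀ x y : ℝ, b'' ≤ x → 0 ≤ y → x + y ≤ b'' + w →
      |(h : ℝ) * FF P m n (x + y) - h * FF P m n x - h * FF1 P m n x * y| ≤ Z' * y ^ 2 ∧
      Z' * y ≤ h * FF1 P m n (x + y) - h * FF1 P m n x ∧
      h * FF1 P m n (x + y) - h * FF1 P m n x ≤ 1.01 * Z' * y := by
    intro x y hx hy hxy
    refine calc1 (fun x => (h : ℝ) * FF P m n x) (fun x => (h : ℝ) * FF1 P m n x)
      (fun x => (h : ℝ) * FF2 P m n x) b'' (b'' + w) Z' hZ'0 ?_ ?_ ?_ x y hx hy hxy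
    · intro x _
      exact (hasDerivAt_FF P m n x).const_mul _
    · intro x _
      exact (hasDerivAt_FF1 P m n x).const_mul _
    · intro x hx
      obtain ⟨h1, h2⟩ := hF x hx
      rw [hZ']
      refine ⟨mul_le_mul_of_nonneg_left h1 hh0, ?_⟩
      have := mul_le_mul_of_nonneg_left h2 hh0
      calc (h : ℝ) * FF2 P m n x ≤ h * (1.01 * Z) := this
        _ = 1.01 * (h * Z) := by ring
  have hcore := core p hp0 hp1 Z' s R hs hR j k hc q' M hq' hq'j hM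
    (fun i hi => (hmu (j i) (CorrFin_range hR hc i hi).1.1 (CorrFin_range hR hc i hi).1.2).2)
    b'' w (by rw [hw]) (fun x => (h : ℝ) * FF P m n x) (fun x => (h : ℝ) * FF1 P m n x)
    (fun x y hx hy hxy => (hC1 x y hx hy hxy).1)
    (fun x y hx hy hxy => (hC1 x y hx hy hxy).2)
  refine hcore.trans (le_trans ?_ hfin)
  have ht0 : (0 : ℝ) ≤ (2 * s : ℝ) ^ (-(1 / 2 : ℝ) + δ) := by positivity
  have hmu1 : ∀ l, mu p l ≤ 1 := fun l => (min_le_left _ _).trans (hp1 l)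
  have hprod : ∏ i ∈ range R, (1 - 0.2 * (mu p (k i) * mu p (j i))) ≤
      ∏ i ∈ range R, (1 - 0.2 * ((2 * s : ℝ) ^ (-(1 / 2 : ℝ) + δ) *
        (2 * s : ℝ) ^ (-(1 / 2 : ℝ) + δ))) := by
    refine prod_le_prod ?_ ?_
    · intro i hi
      have hi' := mem_range.mp hi
      obtain ⟨⟨a1, a2⟩, ⟨a3, a4⟩⟩ := CorrFin_range hR hc i hi'
      have b1 := (hmu (j i) a1 a2).1
      have b2 := (hmu (k i) a3 a4).1
      have c1 : mu p (k i) * mu p (j i) ≤ 1 * 1 :=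
        mul_le_mul (hmu1 _) (hmu1 _) (ht0.trans b1) (by norm_num)
      linarith
    · intro i hi
      have hi' := mem_range.mp hi
      obtain ⟨⟨a1, a2⟩, ⟨a3, a4⟩⟩ := CorrFin_range hR hc i hi'
      have b1 := (hmu (j i) a1 a2).1
      have b2 := (hmu (k i) a3 a4).1
      have c1 := mul_le_mul b2 b1 ht0 (ht0.trans b2)
      linarith
  rw [prod_const, card_range] at hprod
  linarith

theorem corr_fin (P : ℝ[X]) (b' : ℝ) (hb : 1 < b') (q : ℕ) (hq : 1 ≤ q)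
    (hP : ∀ x ∈ Set.Icc b' (b' + 2 / (q.factorial : ℝ)), 0 < P.eval x) (δ : ℝ) (hδ0 : 0 < δ)
    (hδ1 : δ < 1 / 2) (p : ℕ → ℝ) (hp0 : ∀ k, 0 ≤ p k) (hp1 : ∀ k, p k ≤ 1) (k₀ : ℕ)
    (hμ : ∀ k : ℕ, k₀ ≤ k → (k : ℝ) ^ (-(1 / 2 : ℝ) + δ) ≤ mu p k) :
    ∃ m₀ : ℕ, ∀ m : ℕ, m₀ ≤ m → ∀ n < m, ∀ h : ℕ, 1 ≤ h → ∃ M₀ : ℕ, ∀ M : ℕ, M₀ ≤ M →
      ‖av p (Ico q M) (fun T => e (h * FF P m n (b' + xs T)))‖ ≤ 1 / (m : ℝ) ^ 4 := by
  obtain ⟨c, C, hc, hC, m₁, hcalc⟩ := calc3 P b' (2 / (q.factorial : ℝ)) hb (by positivity) hP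
  obtain ⟨S1, hS1⟩ := mu_large δ hδ0 hδ1 p k₀ hμ
  obtain ⟨m2, S2, hfin⟩ := final_small δ hδ0 hδ1
  obtain ⟨m3, hsge⟩ := s_ge c b' hc hb
  obtain ⟨m4, hwid⟩ := width_small C hC
  obtain ⟨Z₀, hZ₀1, hchain⟩ := chain_exists δ hδ0 (by linarith) (max (max S1 S2) 1000)
  obtain ⟨m5, hm5⟩ : ∃ m5 : ℕ, ∀ m, m5 ≤ m → Z₀ ≤ c * b' ^ m := by
    have ht : Filter.Tendsto (fun m : ℕ => c * b' ^ m) Filter.atTop Filter.atTop :=
      (tendsto_pow_atTop_atTop_of_one_lt hb).const_mul_atTop hc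
    obtain ⟨m5, h5⟩ := (ht.eventually_ge_atTop Z₀).exists_forall_of_atTop
    exact ⟨m5, h5⟩
  refine ⟨m₁ + m2 + m3 + m4 + m5 + (8 * q) * (8 * q), ?_⟩
  intro m hm n hn h hh
  have hqq : q ≤ Nat.sqrt m / 8 := by
    rw [Nat.le_div_iff_mul_le (by norm_num), mul_comm, Nat.le_sqrt]
    have := Nat.zero_le (m₁ + m2 + m3 + m4 + m5)
    omega
  obtain ⟨q', hq'def⟩ : ∃ q', q' = Nat.sqrt m / 8 := ⟨_, rfl⟩
  rw [← hq'def] at hqq
  have hq'1 : 1 ≤ q' := hq.trans hqq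
  have hwidm : 2 / (q'.factorial : ℝ) ≤ 1 / (C * m) := by
    rw [hq'def]; exact hwid m (by omega)
  have hh0 : (1 : ℝ) ≤ h := by exact_mod_cast hh
  have key : ∀ T : Finset ℕ, ∃ M₀ : ℕ, T ⊆ Ico q q' → ∀ M, M₀ ≤ M →
      ‖av p (Ico q' M) (fun T' => e (h * FF P m n ((b' + xs T) + xs T')))‖ ≤
        1 / (m : ℝ) ^ 4 := by
    intro T
    by_cases hT : T ⊆ Ico q q'
    · have hx0 := xs_nonneg T
      have hx1 := xs_le q q' hq hqq T hT
      obtain ⟨Z, hZ1, hZ2⟩ := hcalc m (by omega) n hn (b' + xs T) (2 / (q'.factorial : ℝ))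
        (by linarith) (by positivity) hwidm (by linarith)
      have hZ0 : Z₀ ≤ Z := (hm5 m (by omega)).trans hZ1
      have hZpos : 0 ≤ Z := by linarith
      have hZh : Z ≤ h * Z := by nlinarith
      obtain ⟨s, R, j, k, hs, hR, hsR, hZs, hch⟩ := hchain (h * Z) (hZ0.trans hZh)
      have hs1 : S1 ≤ s := ((le_max_left _ _).trans (le_max_left _ _)).trans hs
      have hs2 : S2 ≤ s := ((le_max_right _ _).trans (le_max_left _ _)).trans hs
      have hs3 : 1000 ≤ s := (le_max_right _ _).trans hs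
      have hsm : Real.sqrt m ≤ s :=
        hsge m (by omega) s (by omega) ((hZ1.trans hZh).trans hZs)
      have hq'j : q' ≤ j 0 := by
        have e1 : (q' : ℝ) ≤ (Nat.sqrt m : ℝ) / 8 := by
          rw [hq'def]
          exact_mod_cast Nat.cast_div_le
        have e2 : (Nat.sqrt m : ℝ) ≤ Real.sqrt m := Real.nat_sqrt_le_real_sqrt
        have e3 := hch.jlo
        have e4 : (0 : ℝ) ≤ s := Nat.cast_nonneg s
        have e5 : (q' : ℝ) ≤ j 0 := by linarith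
        exact_mod_cast e5
      refine ⟨k 0 + 1, fun _ M hM => ?_⟩
      exact CorrFin_inner P (b' + xs T) (2 / (q'.factorial : ℝ)) Z (h * Z) m n h δ p hp0 hp1 q'
        hq'1 rfl hZpos rfl hZ2 s R j k hs3 hR hch hq'j (hS1 s hs1)
        (hfin m (by omega) s R hs2 hsm hsR) M (by omega)
    · exact ⟨0, fun hT' => absurd hT' hT⟩
  choose M0 hM0 using key
  refine ⟨max q' ((Ico q q').powerset.sup M0), ?_⟩
  intro M hM
  have hM' : q' ≤ M := (le_max_left _ _).trans hM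
  have hdis : Disjoint (Ico q q') (Ico q' M) := Ico_disjoint_Ico_consecutive q q' M
  have hun : Ico q M = Ico q q' ∪ Ico q' M := (Ico_union_Ico_eq_Ico hqq hM').symm
  rw [hun, av_union p _ _ hdis]
  calc ‖av p (Ico q q') (fun T => av p (Ico q' M)
          (fun T' => e (h * FF P m n (b' + xs (T ∪ T')))))‖
      ≤ av p (Ico q q') (fun T => ‖av p (Ico q' M)
          (fun T' => e (h * FF P m n (b' + xs (T ∪ T'))))‖) := av_norm p hp0 hp1 _ _
    _ ≤ av p (Ico q q') (fun _ => 1 / (m : ℝ) ^ 4) := by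
        refine av_mono p hp0 hp1 _ _ _ ?_
        intro T hT
        have hcg : av p (Ico q' M) (fun T' => e (h * FF P m n (b' + xs (T ∪ T')))) =
            av p (Ico q' M) (fun T' => e (h * FF P m n ((b' + xs T) + xs T'))) := by
          refine av_congr p _ _ _ ?_
          intro T' hT'
          have hd : Disjoint T T' := disjoint_of_subset_left hT (disjoint_of_subset_right hT' hdis)
          simp only [xs_union T T' hd, add_assoc]
        simp only [hcg]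
        refine hM0 T hT M ?_
        exact (le_sup (f := M0) (mem_powerset.mpr hT)).trans ((le_max_right _ _).trans hM)
    _ = 1 / (m : ℝ) ^ 4 := av_const p _ _

end Pool.Agent.Helper59.RE
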