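import Pool.Agent.Helper59.RE.DiscDefs

/-!
# Project RE: from mean squares to almost sure discrepancy bounds
-/

namespace Pool.Agent.Helper59.RE

open Finset MeasureTheory

theorem discA_meas {Ω : Type*} [MeasurableSpace Ω] (u : ℕ → Ω → ℝ) (hu : ∀ i, Measurable (u i))
    (h : ℕ) (J : Finset ℕ) : Measurable fun ω => ‖∑ i ∈ J, e (h * u i ω)‖ ^ 2 := by
  have h1 : Measurable fun ω => ∑ i ∈ J, e (h * u i ω) :=
    Finset.measurable_fun_sum J fun i _ =>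
      continuous_e.measurable.comp (measurable_const.mul (hu i))
  exact h1.norm.pow_const 2

theorem discA_int {Ω : Type*} [MeasurableSpace Ω] (μ : Measure Ω) [IsProbabilityMeasure μ]
    (u : ℕ → Ω → ℝ) (hu : ∀ i, Measurable (u i))
    (h : ℕ) (J : Finset ℕ) : Integrable (fun ω => ‖∑ i ∈ J, e (h * u i ω)‖ ^ 2) μ := by
  refine Integrable.of_bound (discA_meas u hu h J).aestronglyMeasurable ((J.card : ℝ) ^ 2)
    (Filter.Eventually.of_forall fun ω => ?_)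
  rw [Real.norm_of_nonneg (by positivity)]
  refine pow_le_pow_left₀ (norm_nonneg _) ?_ 2
  refine (norm_sum_le _ _).trans ?_
  simp [norm_e]

theorem discA_tile (κ : ℕ → ℝ) (c M : ℕ) :
    ∑ m ∈ range M, ∑ i ∈ Ico (m * c) ((m + 1) * c), κ i = ∑ i ∈ range (M * c), κ i := by
  induction M with
  | zero => simp
  | succ M ih =>
    rw [Finset.sum_range_succ, ih, Finset.range_eq_Ico, Finset.range_eq_Ico,
      Finset.sum_Ico_consecutive κ (Nat.zero_le _) (Nat.mul_le_mul_right c (Nat.le_succ M))]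

theorem discA_blocks {Ω : Type*} [MeasurableSpace Ω] (μ : Measure Ω) [IsProbabilityMeasure μ]
    (u : ℕ → Ω → ℝ) (hu : ∀ i, Measurable (u i)) (κ : ℕ → ℝ) (K : ℝ)
    (hK : ∀ J : Finset ℕ, ∑ i ∈ J, κ i ≤ K)
    (hL2 : ∀ h : ℕ, 1 ≤ h → ∀ J : Finset ℕ,
      ∫ ω, ‖∑ i ∈ J, e (h * u i ω)‖ ^ 2 ∂μ ≤ J.card + ∑ i ∈ J, κ i) (r h : ℕ) (hh : 1 ≤ h) :
    ∫ ω, blocks (fun i => e (h * u i ω)) r ∂μ ≤ (r + 1) * (2 ^ r + K) := by
  unfold blocks
  rw [integral_finsetSum _ fun l _ => integrable_finsetSum _ fun m _ => discA_int μ u hu h _]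
  have hl : ∀ l ∈ range (r + 1), ∫ ω, ∑ m ∈ range (2 ^ (r - l)),
      ‖∑ i ∈ Ico (m * 2 ^ l) ((m + 1) * 2 ^ l), e (h * u i ω)‖ ^ 2 ∂μ ≤ 2 ^ r + K := by
    intro l hl
    have hlr : l ≤ r := by
      have := mem_range.1 hl
      omega
    rw [integral_finsetSum _ fun m _ => discA_int μ u hu h _]
    calc ∑ m ∈ range (2 ^ (r - l)),
          ∫ ω, ‖∑ i ∈ Ico (m * 2 ^ l) ((m + 1) * 2 ^ l), e (h * u i ω)‖ ^ 2 ∂μ
        ≤ ∑ m ∈ range (2 ^ (r - l)),
          (((Ico (m * 2 ^ l) ((m + 1) * 2 ^ l)).card : ℝ) +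
            ∑ i ∈ Ico (m * 2 ^ l) ((m + 1) * 2 ^ l), κ i) :=
          Finset.sum_le_sum fun m _ => hL2 h hh _
      _ = ∑ m ∈ range (2 ^ (r - l)), ((2 : ℝ) ^ l) +
            ∑ m ∈ range (2 ^ (r - l)), ∑ i ∈ Ico (m * 2 ^ l) ((m + 1) * 2 ^ l), κ i := by
          rw [← Finset.sum_add_distrib]
          refine Finset.sum_congr rfl fun m _ => ?_
          rw [Nat.card_Ico]
          congr 1
          have : (m + 1) * 2 ^ l - m * 2 ^ l = 2 ^ l := by
            rw [add_mul, one_mul, Nat.add_sub_cancel_left]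
          rw [this]; push_cast; rfl
      _ = 2 ^ r + ∑ i ∈ range (2 ^ (r - l) * 2 ^ l), κ i := by
          rw [discA_tile, Finset.sum_const, Finset.card_range, nsmul_eq_mul]
          congr 1
          push_cast
          rw [← pow_add]
          congr 1
          omega
      _ ≤ 2 ^ r + K := by
          have := hK (range (2 ^ (r - l) * 2 ^ l))
          linarith
  calc _ ≤ ∑ l ∈ range (r + 1), ((2 : ℝ) ^ r + K) := Finset.sum_le_sum hl
    _ = (r + 1) * (2 ^ r + K) := by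
      rw [Finset.sum_const, Finset.card_range, nsmul_eq_mul]; push_cast; ring

theorem discA_harm (r : ℕ) :
    ∑ h ∈ Icc (1 : ℕ) (4 ^ r), 1 / (h : ℝ) ≤ 1 + r * Real.log 4 := by
  have h1 := harmonic_le_one_add_log (4 ^ r)
  rw [harmonic_eq_sum_Icc] at h1
  push_cast at h1
  rw [Real.log_pow] at h1
  simpa [one_div] using h1

/-- The expectation of `DD`. -/
theorem DD_mean {Ω : Type*} [MeasurableSpace Ω] (μ : Measure Ω) [IsProbabilityMeasure μ]
    (u : ℕ → Ω → ℝ) (hu : ∀ i, Measurable (u i)) (κ : ℕ → ℝ) (hκ0 : ∀ i, 0 ≤ κ i) (K : ℝ)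
    (hK : ∀ J : Finset ℕ, ∑ i ∈ J, κ i ≤ K)
    (hL2 : ∀ h : ℕ, 1 ≤ h → ∀ J : Finset ℕ,
      ∫ ω, ‖∑ i ∈ J, e (h * u i ω)‖ ^ 2 ∂μ ≤ J.card + ∑ i ∈ J, κ i) (r : ℕ) :
    ∫ ω, DD (fun i => u i ω) r ∂μ ≤ (1 + r * Real.log 4) * (r + 1) * (2 ^ r + K) := by
  have hK0 : 0 ≤ K := by simpa using hK ∅
  have hbi : ∀ h : ℕ, Integrable (fun ω => blocks (fun i => e (h * u i ω)) r) μ := by
    intro h
    unfold blocks
    exact integrable_finsetSum _ fun l _ => integrable_finsetSum _ fun m _ =>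
      discA_int μ u hu h _
  unfold DD
  rw [integral_finsetSum _ fun h _ => (hbi h).const_mul _]
  calc ∑ h ∈ Icc (1 : ℕ) (4 ^ r), ∫ ω, 1 / (h : ℝ) * blocks (fun i => e (h * u i ω)) r ∂μ
      ≤ ∑ h ∈ Icc (1 : ℕ) (4 ^ r), 1 / (h : ℝ) * ((r + 1) * (2 ^ r + K)) := by
        refine Finset.sum_le_sum fun h hh => ?_
        rw [integral_const_mul]
        exact mul_le_mul_of_nonneg_left
          (discA_blocks μ u hu κ K hK hL2 r h (mem_Icc.1 hh).1) (by positivity)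
    _ = (∑ h ∈ Icc (1 : ℕ) (4 ^ r), 1 / (h : ℝ)) * ((r + 1) * (2 ^ r + K)) := by
        rw [Finset.sum_mul]
    _ ≤ (1 + r * Real.log 4) * ((r + 1) * (2 ^ r + K)) :=
        mul_le_mul_of_nonneg_right (discA_harm r) (by positivity)
    _ = _ := by ring

end Pool.Agent.Helper59.RE
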