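import Pool.Agent.Helper59.RE.DiscDefs

/-!
# Project RE: from mean squares to almost sure discrepancy bounds
-/

namespace Pool.Agent.Helper59.RE

open Finset MeasureTheory

private lemma DiscB_harm (r : ℕ) :
    ∑ h ∈ Icc (1 : ℕ) (4 ^ r), 1 / (h : ℝ) ≤ 2 * (r + 1) := by
  have h1 := harmonic_le_one_add_log (4 ^ r)
  rw [harmonic_eq_sum_Icc] at h1
  push_cast at h1
  rw [Real.log_pow] at h1
  have h2 : Real.log 4 ≤ 2 := by
    have h3 : Real.log 4 = 2 * Real.log 2 := by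
      rw [show (4 : ℝ) = 2 ^ 2 by norm_num, Real.log_pow]
      push_cast
      ring
    have := Real.log_two_lt_d9
    rw [h3]
    linarith
  have h4 : ∑ h ∈ Icc (1 : ℕ) (4 ^ r), 1 / (h : ℝ) = ∑ h ∈ Icc (1 : ℕ) (4 ^ r), (h : ℝ)⁻¹ :=
    Finset.sum_congr rfl fun h _ => one_div _
  rw [h4]
  have h5 : (r : ℝ) * Real.log 4 ≤ r * 2 := mul_le_mul_of_nonneg_left h2 (Nat.cast_nonneg r)
  linarith

private lemma DiscB_poly {ε : ℝ} (hε : 0 < ε) (r : ℕ) :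
    ((r : ℝ) + 1) ^ 2 ≤ (1 + 2 / (ε * Real.log 2)) ^ 2 * (2 : ℝ) ^ (r * ε) := by
  have hl : 0 < Real.log 2 := Real.log_pos (by norm_num)
  set y : ℝ := ε * Real.log 2 / 2 * r with hy
  have hy0 : 0 ≤ y := by positivity
  have h1 : y + 1 ≤ Real.exp y := Real.add_one_le_exp y
  have h2 : (r : ℝ) = 2 / (ε * Real.log 2) * y := by
    rw [hy]
    field_simp
  have h3 : 0 < 2 / (ε * Real.log 2) := by positivity
  have h4 : (r : ℝ) + 1 ≤ (1 + 2 / (ε * Real.log 2)) * Real.exp y := by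
    rw [h2]
    nlinarith
  have h5 : (2 : ℝ) ^ (r * ε) = Real.exp y ^ 2 := by
    rw [Real.rpow_def_of_pos (by norm_num), ← Real.exp_nat_mul]
    congr 1
    rw [hy]
    push_cast
    ring
  rw [h5, ← mul_pow]
  exact pow_le_pow_left₀ (by positivity) h4 2

/-- A bound for all `DD v r` gives the discrepancy bound. -/
theorem concl_of_DD (v : ℕ → ℝ)
    (h : ∀ ε : ℝ, 0 < ε → ∃ C : ℝ, ∀ r : ℕ, DD v r ≤ C * (2 : ℝ) ^ (r * (1 + ε))) : Concl v := by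
  intro ε hε
  obtain ⟨C, hC⟩ := h ε hε
  set K : ℝ := 1 + 2 / (ε * Real.log 2) with hK
  refine ⟨4 * (1 + Real.sqrt (2 * K ^ 2 * |C|) * 2 ^ (1 / 2 + ε)), ?_⟩
  intro N hN α β hα hαβ hβ
  set r := Nat.log 2 N + 1 with hr
  have hr1 : N ≤ 2 ^ r := (Nat.lt_pow_succ_log_self (by norm_num) N).le
  have hr2 : 2 ^ r ≤ 2 * N := by
    rw [hr, pow_succ]
    have := Nat.pow_log_le_self 2 (show N ≠ 0 by omega)
    omega
  have hr1' : (N : ℝ) ≤ 2 ^ r := by exact_mod_cast hr1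
  have hr2' : (2 : ℝ) ^ r ≤ 2 * N := by exact_mod_cast hr2
  have hN1 : (1 : ℝ) ≤ N := by exact_mod_cast hN
  have h1 := arc_count_w (range N) v (4 ^ r) (Nat.one_le_pow _ _ (by norm_num)) α β hα hαβ hβ
  rw [card_range] at h1
  have h2 : Real.sqrt ((4 ^ r : ℕ) : ℝ) = 2 ^ r := by
    have h3 : ((4 ^ r : ℕ) : ℝ) = (2 ^ r) ^ 2 := by
      push_cast
      rw [← pow_mul, mul_comm r 2, pow_mul]
      norm_num
    rw [h3, Real.sqrt_sq (by positivity)]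
  rw [h2] at h1
  have h4 : (N : ℝ) / 2 ^ r ≤ 1 := by
    rw [div_le_one (by positivity)]
    exact hr1'
  set S := ∑ h ∈ Icc (1 : ℕ) (4 ^ r), 1 / (h : ℝ) * ‖∑ n ∈ range N, e (h * v n)‖ with hS
  have hS0 : 0 ≤ S := Finset.sum_nonneg fun h _ => by positivity
  have h5 : S ^ 2 ≤ (∑ h ∈ Icc (1 : ℕ) (4 ^ r), 1 / (h : ℝ)) *
      ∑ h ∈ Icc (1 : ℕ) (4 ^ r), 1 / (h : ℝ) * ‖∑ n ∈ range N, e (h * v n)‖ ^ 2 := by
    rw [hS]
    refine Finset.sum_sq_le_sum_mul_sum_of_sq_le_mul _ (fun i _ => by positivity)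
      (fun i _ => by positivity) fun i _ => le_of_eq (by ring)
  have h6 : ∑ h ∈ Icc (1 : ℕ) (4 ^ r), 1 / (h : ℝ) * ‖∑ n ∈ range N, e (h * v n)‖ ^ 2 ≤
      (r + 1) * DD v r := by
    unfold DD
    rw [Finset.mul_sum]
    refine Finset.sum_le_sum fun h _ => ?_
    have h7 := dyadic_max (fun i => e (h * v i)) r N hr1
    calc 1 / (h : ℝ) * ‖∑ n ∈ range N, e (h * v n)‖ ^ 2 ≤
        1 / (h : ℝ) * ((r + 1) * blocks (fun i => e (h * v i)) r) :=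
          mul_le_mul_of_nonneg_left h7 (by positivity)
      _ = _ := by ring
  have h8 : DD v r ≤ |C| * (2 : ℝ) ^ (r * (1 + ε)) :=
    (hC r).trans (mul_le_mul_of_nonneg_right (le_abs_self C) (by positivity))
  have h9 : S ^ 2 ≤ 2 * K ^ 2 * |C| * ((2 : ℝ) ^ (r * (1 / 2 + ε))) ^ 2 := by
    have h10 : ((2 : ℝ) ^ (r * (1 / 2 + ε))) ^ 2 = (2 : ℝ) ^ (r * ε) * (2 : ℝ) ^ (r * (1 + ε)) := by
      rw [← Real.rpow_natCast, ← Real.rpow_mul (by norm_num), ← Real.rpow_add (by norm_num)]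
      congr 1
      push_cast
      ring
    have h11 := DiscB_poly hε r
    rw [← hK] at h11
    have h12 : (∑ h ∈ Icc (1 : ℕ) (4 ^ r), 1 / (h : ℝ)) *
        ∑ h ∈ Icc (1 : ℕ) (4 ^ r), 1 / (h : ℝ) * ‖∑ n ∈ range N, e (h * v n)‖ ^ 2 ≤
        (2 * (r + 1)) * ((r + 1) * (|C| * (2 : ℝ) ^ (r * (1 + ε)))) := by
      refine mul_le_mul (DiscB_harm r) (h6.trans ?_)
        (Finset.sum_nonneg fun h _ => by positivity) (by positivity)
      exact mul_le_mul_of_nonneg_left h8 (by positivity)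
    calc S ^ 2 ≤ (2 * (r + 1)) * ((r + 1) * (|C| * (2 : ℝ) ^ (r * (1 + ε)))) := h5.trans h12
      _ = ((r : ℝ) + 1) ^ 2 * (2 * |C| * (2 : ℝ) ^ (r * (1 + ε))) := by ring
      _ ≤ (K ^ 2 * (2 : ℝ) ^ (r * ε)) * (2 * |C| * (2 : ℝ) ^ (r * (1 + ε))) :=
          mul_le_mul_of_nonneg_right h11 (by positivity)
      _ = _ := by rw [h10]; ring
  have h13 : S ≤ Real.sqrt (2 * K ^ 2 * |C|) * (2 : ℝ) ^ (r * (1 / 2 + ε)) := by
    refine abs_le_of_sq_le_sq' ?_ (by positivity) |>.2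
    rw [mul_pow, Real.sq_sqrt (by positivity)]
    exact h9
  have h14 : (2 : ℝ) ^ (r * (1 / 2 + ε)) ≤ 2 ^ (1 / 2 + ε) * (N : ℝ) ^ (1 / 2 + ε) := by
    rw [← Real.mul_rpow (by norm_num) (by positivity), Real.rpow_mul (by norm_num), Real.rpow_natCast]
    exact Real.rpow_le_rpow (by positivity) hr2' (by positivity)
  have h15 : (1 : ℝ) ≤ (N : ℝ) ^ (1 / 2 + ε) := Real.one_le_rpow hN1 (by positivity)
  have h16 : S ≤ Real.sqrt (2 * K ^ 2 * |C|) * (2 ^ (1 / 2 + ε) * (N : ℝ) ^ (1 / 2 + ε)) :=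
    h13.trans (mul_le_mul_of_nonneg_left h14 (Real.sqrt_nonneg _))
  calc |(((range N).filter (fun i => α ≤ Int.fract (v i) ∧ Int.fract (v i) < β)).card : ℝ) -
      (β - α) * N| ≤ 4 * (N / 2 ^ r + S) := h1
    _ ≤ 4 * ((N : ℝ) ^ (1 / 2 + ε) +
        Real.sqrt (2 * K ^ 2 * |C|) * (2 ^ (1 / 2 + ε) * (N : ℝ) ^ (1 / 2 + ε))) := by linarith
    _ = _ := by ring

end Pool.Agent.Helper59.RE
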