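import Pool.Agent.Helper59.RE.DiscA
import Pool.Agent.Helper59.RE.DiscB

/-!
# Project RE: from mean squares to almost sure discrepancy bounds
-/

namespace Pool.Agent.Helper59.RE

open Finset MeasureTheory

theorem discC_int {Ω : Type*} [MeasurableSpace Ω] (μ : Measure Ω) [IsProbabilityMeasure μ]
    (u : ℕ → Ω → ℝ) (hu : ∀ i, Measurable (u i)) (r : ℕ) :
    Integrable (fun ω => DD (fun i => u i ω) r) μ := by
  unfold DD
  refine integrable_finsetSum _ fun h _ => Integrable.const_mul ?_ _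
  unfold blocks
  exact integrable_finsetSum _ fun l _ => integrable_finsetSum _ fun m _ =>
    discA_int μ u hu h _

theorem discC_nonneg (v : ℕ → ℝ) (r : ℕ) : 0 ≤ DD v r := by
  unfold DD blocks
  positivity

theorem discC_summable (K : ℝ) (ε : ℝ) (hε : 0 < ε) :
    Summable fun r : ℕ => (2 : ℝ) ^ (-(r * (1 + ε))) *
      ((1 + r * Real.log 4) * (r + 1) * (2 ^ r + K)) := by
  set ρ : ℝ := (2 : ℝ) ^ (-ε) with hρ
  set σ : ℝ := (2 : ℝ) ^ (-(1 + ε)) with hσ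
  have hρ0 : 0 < ρ := Real.rpow_pos_of_pos (by norm_num) _
  have hσ0 : 0 < σ := Real.rpow_pos_of_pos (by norm_num) _
  have hρ1 : ρ < 1 := Real.rpow_lt_one_of_one_lt_of_neg (by norm_num) (by linarith)
  have hσ1 : σ < 1 := Real.rpow_lt_one_of_one_lt_of_neg (by norm_num) (by linarith)
  have key : ∀ τ : ℝ, 0 < τ → τ < 1 → Summable fun r : ℕ =>
      (1 + (r : ℝ) * Real.log 4) * (r + 1) * τ ^ r := by
    intro τ h0 h1
    have hn : ‖τ‖ < 1 := by rw [Real.norm_of_nonneg h0.le]; exact h1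
    have s0 := summable_pow_mul_geometric_of_norm_lt_one 0 hn
    have s1 := summable_pow_mul_geometric_of_norm_lt_one 1 hn
    have s2 := summable_pow_mul_geometric_of_norm_lt_one 2 hn
    have := (s0.add (s1.mul_left (1 + Real.log 4))).add (s2.mul_left (Real.log 4))
    refine this.congr fun r => ?_
    ring
  have h1 := key ρ hρ0 hρ1
  have h2 := (key σ hσ0 hσ1).mul_left K
  refine (h1.add h2).congr fun r => ?_
  have e1 : (2 : ℝ) ^ (-(r * (1 + ε))) = σ ^ r := by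
    rw [hσ, ← Real.rpow_natCast, ← Real.rpow_mul (by norm_num)]
    congr 1
    ring
  have e2 : σ ^ r * 2 ^ r = ρ ^ r := by
    rw [← mul_pow]
    congr 1
    rw [hσ, hρ]
    nth_rewrite 2 [← Real.rpow_one 2]
    rw [← Real.rpow_add (by norm_num)]
    congr 1
    ring
  rw [e1]
  calc (1 + (r : ℝ) * Real.log 4) * (r + 1) * ρ ^ r + K * ((1 + (r : ℝ) * Real.log 4) * (r + 1) * σ ^ r)
      = (1 + (r : ℝ) * Real.log 4) * (r + 1) * (σ ^ r * 2 ^ r)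
        + K * ((1 + (r : ℝ) * Real.log 4) * (r + 1) * σ ^ r) := by rw [e2]
    _ = _ := by ring

theorem discC_one {Ω : Type*} [MeasurableSpace Ω] (μ : Measure Ω) [IsProbabilityMeasure μ]
    (u : ℕ → Ω → ℝ) (hu : ∀ i, Measurable (u i)) (κ : ℕ → ℝ) (hκ0 : ∀ i, 0 ≤ κ i) (K : ℝ)
    (hK : ∀ J : Finset ℕ, ∑ i ∈ J, κ i ≤ K)
    (hL2 : ∀ h : ℕ, 1 ≤ h → ∀ J : Finset ℕ,
      ∫ ω, ‖∑ i ∈ J, e (h * u i ω)‖ ^ 2 ∂μ ≤ J.card + ∑ i ∈ J, κ i) (ε : ℝ) (hε : 0 < ε) :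
    ∀ᵐ ω ∂μ, ∃ C : ℝ, ∀ r : ℕ, DD (fun i => u i ω) r ≤ C * (2 : ℝ) ^ (r * (1 + ε)) := by
  have hw0 : ∀ r : ℕ, 0 < (2 : ℝ) ^ (-(r * (1 + ε))) := fun r =>
    Real.rpow_pos_of_pos (by norm_num) _
  have hint : ∀ r : ℕ, Integrable (fun ω => (2 : ℝ) ^ (-(r * (1 + ε))) * DD (fun i => u i ω) r) μ :=
    fun r => (discC_int μ u hu r).const_mul _
  have hnn : ∀ (r : ℕ) (ω : Ω), 0 ≤ (2 : ℝ) ^ (-(r * (1 + ε))) * DD (fun i => u i ω) r :=
    fun r ω => mul_nonneg (hw0 r).le (discC_nonneg _ r)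
  have hlin : ∀ r : ℕ, ∫⁻ ω, ENNReal.ofReal ((2 : ℝ) ^ (-(r * (1 + ε))) * DD (fun i => u i ω) r) ∂μ
      ≤ ENNReal.ofReal ((2 : ℝ) ^ (-(r * (1 + ε))) *
        ((1 + r * Real.log 4) * (r + 1) * (2 ^ r + K))) := by
    intro r
    rw [← ofReal_integral_eq_lintegral_ofReal (hint r) (Filter.Eventually.of_forall (hnn r))]
    refine ENNReal.ofReal_le_ofReal ?_
    rw [integral_const_mul]
    exact mul_le_mul_of_nonneg_left (DD_mean μ u hu κ hκ0 K hK hL2 r) (hw0 r).le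
  have hK0 : 0 ≤ K := by simpa using hK ∅
  have hlog : 0 ≤ Real.log 4 := Real.log_nonneg (by norm_num)
  have hfin : ∫⁻ ω, ∑' r : ℕ,
      ENNReal.ofReal ((2 : ℝ) ^ (-(r * (1 + ε))) * DD (fun i => u i ω) r) ∂μ ≠ ⊤ := by
    rw [lintegral_tsum fun r => (hint r).aestronglyMeasurable.aemeasurable.ennreal_ofReal]
    refine ne_top_of_le_ne_top ?_ (ENNReal.tsum_le_tsum hlin)
    rw [← ENNReal.ofReal_tsum_of_nonneg _ (discC_summable K ε hε)]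
    · exact ENNReal.ofReal_ne_top
    · intro r
      have := (hw0 r).le
      positivity
  have hae := ae_lt_top' (AEMeasurable.ennreal_tsum fun r =>
    (hint r).aestronglyMeasurable.aemeasurable.ennreal_ofReal) hfin
  filter_upwards [hae] with ω hω
  refine ⟨(∑' r : ℕ, ENNReal.ofReal ((2 : ℝ) ^ (-(r * (1 + ε))) *
    DD (fun i => u i ω) r)).toReal, fun r => ?_⟩
  have h1 : ENNReal.ofReal ((2 : ℝ) ^ (-(r * (1 + ε))) * DD (fun i => u i ω) r) ≤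
      ∑' r : ℕ, ENNReal.ofReal ((2 : ℝ) ^ (-(r * (1 + ε))) * DD (fun i => u i ω) r) :=
    ENNReal.le_tsum r
  have h2 := (ENNReal.ofReal_le_iff_le_toReal hω.ne).1 h1
  have h3 : DD (fun i => u i ω) r =
      ((2 : ℝ) ^ (-(r * (1 + ε))) * DD (fun i => u i ω) r) * (2 : ℝ) ^ (r * (1 + ε)) := by
    rw [mul_right_comm, ← Real.rpow_add (by norm_num)]
    simp
  rw [h3]
  exact mul_le_mul_of_nonneg_right h2 (Real.rpow_pos_of_pos (by norm_num) _).le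

theorem disc_as {Ω : Type*} [MeasurableSpace Ω] (μ : Measure Ω) [IsProbabilityMeasure μ]
    (u : ℕ → Ω → ℝ) (hu : ∀ i, Measurable (u i)) (κ : ℕ → ℝ) (hκ0 : ∀ i, 0 ≤ κ i)
    (hκ : Summable κ)
    (hL2 : ∀ h : ℕ, 1 ≤ h → ∀ J : Finset ℕ,
      ∫ ω, ‖∑ i ∈ J, e (h * u i ω)‖ ^ 2 ∂μ ≤ J.card + ∑ i ∈ J, κ i) :
    ∀ᵐ ω ∂μ, Concl (fun i => u i ω) := by
  have hK : ∀ J : Finset ℕ, ∑ i ∈ J, κ i ≤ ∑' i, κ i := fun J =>
    hκ.sum_le_tsum J fun i _ => hκ0 i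
  have h1 : ∀ᵐ ω ∂μ, ∀ n : ℕ, ∃ C : ℝ, ∀ r : ℕ,
      DD (fun i => u i ω) r ≤ C * (2 : ℝ) ^ (r * (1 + 1 / ((n : ℝ) + 1))) :=
    ae_all_iff.2 fun n => discC_one μ u hu κ hκ0 _ hK hL2 _ (by positivity)
  filter_upwards [h1] with ω hω
  refine concl_of_DD _ fun ε hε => ?_
  obtain ⟨n, hn⟩ := exists_nat_one_div_lt hε
  obtain ⟨C, hC⟩ := hω n
  refine ⟨max C 0, fun r => (hC r).trans ?_⟩
  have hp : (2 : ℝ) ^ (r * (1 + 1 / ((n : ℝ) + 1))) ≤ (2 : ℝ) ^ (r * (1 + ε)) := by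
    refine Real.rpow_le_rpow_of_exponent_le (by norm_num) ?_
    exact mul_le_mul_of_nonneg_left (by linarith) (Nat.cast_nonneg r)
  calc C * (2 : ℝ) ^ (r * (1 + 1 / ((n : ℝ) + 1)))
      ≤ max C 0 * (2 : ℝ) ^ (r * (1 + 1 / ((n : ℝ) + 1))) :=
        mul_le_mul_of_nonneg_right (le_max_left _ _) (Real.rpow_pos_of_pos (by norm_num) _).le
    _ ≤ max C 0 * (2 : ℝ) ^ (r * (1 + ε)) := mul_le_mul_of_nonneg_left hp (le_max_right _ _)

end Pool.Agent.Helper59.RE
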