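import Pool.Agent.Helper59.RE.Defs

/-!
# Project RE: the dyadic decomposition (Rademacher-Menshov)
-/

namespace Pool.Agent.Helper59.RE

open Finset

/-- The sum of the squares of the dyadic blocks of length at most `2^r` below `2^r`. -/
noncomputable def blocks (v : ℕ → ℂ) (r : ℕ) : ℝ :=
  ∑ l ∈ range (r + 1), ∑ m ∈ range (2 ^ (r - l)),
    ‖∑ i ∈ Ico (m * 2 ^ l) ((m + 1) * 2 ^ l), v i‖ ^ 2

theorem dyadic_dec (r : ℕ) : ∀ (v : ℕ → ℂ) (N : ℕ), N < 2 ^ r → ∃ t : ℕ → ℂ,
    ∑ i ∈ range N, v i = ∑ l ∈ range r, t l ∧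
    ∀ l, l < r → ‖t l‖ ^ 2 ≤ ∑ m ∈ range (2 ^ (r - l)),
      ‖∑ i ∈ Ico (m * 2 ^ l) ((m + 1) * 2 ^ l), v i‖ ^ 2 := by
  induction r with
  | zero =>
    intro v N hN
    have : N = 0 := by simpa using hN
    subst this
    exact ⟨fun _ => 0, by simp, fun l hl => absurd hl (Nat.not_lt_zero l)⟩
  | succ r ih =>
    intro v N hN
    rcases lt_or_ge N (2 ^ r) with h | h
    · obtain ⟨t, h1, h2⟩ := ih v N h
      refine ⟨fun l => if l < r then t l else 0, ?_, ?_⟩
      · rw [h1, Finset.sum_range_succ, if_neg (lt_irrefl r), add_zero]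
        exact Finset.sum_congr rfl fun l hl => by rw [if_pos (Finset.mem_range.1 hl)]
      · intro l _
        beta_reduce
        by_cases hl : l < r
        · rw [if_pos hl]
          refine (h2 l hl).trans ?_
          refine Finset.sum_le_sum_of_subset_of_nonneg ?_ fun _ _ _ => by positivity
          rw [Finset.range_subset_range]
          exact Nat.pow_le_pow_right (by norm_num) (by omega)
        · rw [if_neg hl, norm_zero]
          have : (0 : ℝ) ≤ ∑ m ∈ range (2 ^ (r + 1 - l)),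
            ‖∑ i ∈ Ico (m * 2 ^ l) ((m + 1) * 2 ^ l), v i‖ ^ 2 := Finset.sum_nonneg fun _ _ => by positivity
          simpa using this
    · obtain ⟨t, h1, h2⟩ := ih (fun i => v (2 ^ r + i)) (N - 2 ^ r) (by rw [pow_succ] at hN; omega)
      refine ⟨fun l => if l < r then t l else ∑ i ∈ range (2 ^ r), v i, ?_, ?_⟩
      · rw [Finset.sum_range_succ, if_neg (lt_irrefl r)]
        have e1 : ∑ l ∈ range r, (if l < r then t l else ∑ i ∈ range (2 ^ r), v i) = ∑ l ∈ range r, t l :=
          Finset.sum_congr rfl fun l hl => by rw [if_pos (Finset.mem_range.1 hl)]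
        rw [e1, ← h1]
        have e2 : N = 2 ^ r + (N - 2 ^ r) := by omega
        conv_lhs => rw [e2]
        rw [Finset.sum_range_add, add_comm]
      · intro l hl'
        beta_reduce
        by_cases hl : l < r
        · rw [if_pos hl]
          refine (h2 l hl).trans ?_
          have e1 : ∀ m ∈ range (2 ^ (r - l)), ‖∑ i ∈ Ico (m * 2 ^ l) ((m + 1) * 2 ^ l), v (2 ^ r + i)‖ ^ 2 =
              ‖∑ i ∈ Ico ((2 ^ (r - l) + m) * 2 ^ l) ((2 ^ (r - l) + m + 1) * 2 ^ l), v i‖ ^ 2 := by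
            intro m _
            have e3 : 2 ^ (r - l) * 2 ^ l = 2 ^ r := by rw [← pow_add]; congr 1; omega
            have e4 : (2 ^ (r - l) + m) * 2 ^ l = 2 ^ r + m * 2 ^ l := by rw [add_mul, e3]
            have e5 : (2 ^ (r - l) + m + 1) * 2 ^ l = 2 ^ r + (m + 1) * 2 ^ l := by rw [add_assoc, add_mul, e3]
            rw [e4, e5]
            rw [add_comm (2 ^ r) (m * 2 ^ l), add_comm (2 ^ r) ((m + 1) * 2 ^ l), ← Finset.sum_Ico_add]
          rw [Finset.sum_congr rfl e1]
          have e6 : ∑ m ∈ range (2 ^ (r - l)), ‖∑ i ∈ Ico ((2 ^ (r - l) + m) * 2 ^ l) ((2 ^ (r - l) + m + 1) * 2 ^ l), v i‖ ^ 2 =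
              ∑ m ∈ Ico (2 ^ (r - l)) (2 ^ (r - l) + 2 ^ (r - l)), ‖∑ i ∈ Ico (m * 2 ^ l) ((m + 1) * 2 ^ l), v i‖ ^ 2 := by
            rw [Finset.sum_Ico_eq_sum_range, Nat.add_sub_cancel]
          rw [e6]
          refine Finset.sum_le_sum_of_subset_of_nonneg ?_ fun _ _ _ => by positivity
          intro m hm
          rw [Finset.mem_Ico] at hm
          rw [Finset.mem_range]
          have : 2 ^ (r + 1 - l) = 2 ^ (r - l) + 2 ^ (r - l) := by
            rw [show r + 1 - l = (r - l) + 1 by omega, pow_succ]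
            omega
          omega
        · rw [if_neg hl]
          have hlr : l = r := by omega
          subst hlr
          have e1 : ‖∑ i ∈ range (2 ^ l), v i‖ ^ 2 = ‖∑ i ∈ Ico (0 * 2 ^ l) ((0 + 1) * 2 ^ l), v i‖ ^ 2 := by
            rw [zero_mul, zero_add, one_mul, Finset.range_eq_Ico]
          rw [e1]
          refine Finset.single_le_sum (f := fun m => ‖∑ i ∈ Ico (m * 2 ^ l) ((m + 1) * 2 ^ l), v i‖ ^ 2)
            (fun _ _ => by positivity) ?_
          rw [Finset.mem_range]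
          positivity

theorem dyadic_max (v : ℕ → ℂ) (r N : ℕ) (hN : N ≤ 2 ^ r) :
    ‖∑ i ∈ range N, v i‖ ^ 2 ≤ (r + 1) * blocks v r := by
  have key : ∃ t : ℕ → ℂ, ∑ i ∈ range N, v i = ∑ l ∈ range (r + 1), t l ∧
      ∀ l, l < r + 1 → ‖t l‖ ^ 2 ≤ ∑ m ∈ range (2 ^ (r - l)),
        ‖∑ i ∈ Ico (m * 2 ^ l) ((m + 1) * 2 ^ l), v i‖ ^ 2 := by
    rcases lt_or_eq_of_le hN with h | h
    · obtain ⟨t, h1, h2⟩ := dyadic_dec r v N h
      refine ⟨fun l => if l < r then t l else 0, ?_, ?_⟩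
      · rw [h1, Finset.sum_range_succ, if_neg (lt_irrefl r), add_zero]
        exact Finset.sum_congr rfl fun l hl => by rw [if_pos (Finset.mem_range.1 hl)]
      · intro l _
        beta_reduce
        by_cases hl : l < r
        · rw [if_pos hl]
          exact h2 l hl
        · rw [if_neg hl, norm_zero]
          have : (0 : ℝ) ≤ ∑ m ∈ range (2 ^ (r - l)),
            ‖∑ i ∈ Ico (m * 2 ^ l) ((m + 1) * 2 ^ l), v i‖ ^ 2 := Finset.sum_nonneg fun _ _ => by positivity
          simpa using this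
    · refine ⟨fun l => if l = r then ∑ i ∈ range N, v i else 0, ?_, ?_⟩
      · rw [Finset.sum_ite_eq' , if_pos (Finset.mem_range.2 (Nat.lt_succ_self r))]
      · intro l _
        beta_reduce
        by_cases hl : l = r
        · rw [if_pos hl]
          subst hl
          have e1 : ‖∑ i ∈ range N, v i‖ ^ 2 = ‖∑ i ∈ Ico (0 * 2 ^ l) ((0 + 1) * 2 ^ l), v i‖ ^ 2 := by
            rw [zero_mul, zero_add, one_mul, h, Finset.range_eq_Ico]
          rw [e1]
          refine Finset.single_le_sum (f := fun m => ‖∑ i ∈ Ico (m * 2 ^ l) ((m + 1) * 2 ^ l), v i‖ ^ 2)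
            (fun _ _ => by positivity) ?_
          rw [Finset.mem_range]
          positivity
        · rw [if_neg hl, norm_zero]
          have : (0 : ℝ) ≤ ∑ m ∈ range (2 ^ (r - l)),
            ‖∑ i ∈ Ico (m * 2 ^ l) ((m + 1) * 2 ^ l), v i‖ ^ 2 := Finset.sum_nonneg fun _ _ => by positivity
          simpa using this
  obtain ⟨t, h1, h2⟩ := key
  rw [h1]
  have h3 : ‖∑ l ∈ range (r + 1), t l‖ ^ 2 ≤ (∑ l ∈ range (r + 1), ‖t l‖) ^ 2 :=
    pow_le_pow_left₀ (norm_nonneg _) (norm_sum_le _ _) 2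
  have h4 := sq_sum_le_card_mul_sum_sq (s := range (r + 1)) (f := fun l => ‖t l‖)
  rw [Finset.card_range] at h4
  refine h3.trans (h4.trans ?_)
  push_cast
  refine mul_le_mul_of_nonneg_left ?_ (by positivity)
  unfold blocks
  exact Finset.sum_le_sum fun l hl => h2 l (Finset.mem_range.1 hl)

end Pool.Agent.Helper59.RE
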