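import Pool.Agent.Helper59.RE.ArcCount
import Pool.Agent.Helper59.RE.Dyadic

/-!
# Project RE: from mean squares to almost sure discrepancy bounds, definitions
-/

namespace Pool.Agent.Helper59.RE

open Finset MeasureTheory

/-- The discrepancy bound for one sequence `v`. -/
def Concl (v : ℕ → ℝ) : Prop :=
  ∀ ε : ℝ, 0 < ε → ∃ C : ℝ, ∀ N : ℕ, 1 ≤ N → ∀ α β : ℝ, 0 ≤ α → α < β → β ≤ 1 →
    |(((range N).filter (fun i => α ≤ Int.fract (v i) ∧ Int.fract (v i) < β)).card : ℝ) -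
      (β - α) * N| ≤ C * (N : ℝ) ^ (1 / 2 + ε)

/-- The weighted sum of the block sums over the frequencies `h ≤ 4^r`. -/
noncomputable def DD (v : ℕ → ℝ) (r : ℕ) : ℝ :=
  ∑ h ∈ Icc (1 : ℕ) (4 ^ r), 1 / (h : ℝ) * blocks (fun i => e (h * v i)) r

end Pool.Agent.Helper59.RE
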