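import Pool.Agent.Helper59.RE.FinB

/-!
# Project RE: assembly
-/

namespace Pool.Agent.Helper59.RE

open Finset MeasureTheory ProbabilityTheory Polynomial

theorem main {Ω : Type*} [MeasurableSpace Ω] (μ : Measure Ω) [IsProbabilityMeasure μ]
    (A : Ω → Set ℕ) (hA : ∀ k, MeasurableSet {ω | k ∈ A ω})
    (hind : iIndepSet (fun k : ℕ => {ω | k ∈ A ω}) μ) (δ : ℝ) (hδ0 : 0 < δ)
    (hμ : ∃ k₀ : ℕ, ∀ k : ℕ, k₀ ≤ k →
      (k : ℝ) ^ (-(1 / 2 : ℝ) + δ) ≤ μ.real {ω | k ∈ A ω} ∧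
      μ.real {ω | k ∈ A ω} ≤ 1 - (k : ℝ) ^ (-(1 / 2 : ℝ) + δ))
    (b : ℝ) (P : ℝ[X]) (a : ℕ → ℕ) (ha : StrictMono a) (c : ℕ → ℝ) :
    ∀ᵐ ω ∂μ, 1 < b + xset (A ω) → P.eval (b + xset (A ω)) ≠ 0 →
      Concl (fun i => P.eval (b + xset (A ω)) * (b + xset (A ω)) ^ a i + c i) := by
  classical
  obtain ⟨k₀, hμ⟩ := hμ
  obtain ⟨δ', hδ'⟩ : ∃ δ', δ' = min δ (1 / 4) := ⟨_, rfl⟩
  have hδ'0 : 0 < δ' := by rw [hδ']; exact lt_min hδ0 (by norm_num)
  have hδ'1 : δ' < 1 / 2 := by rw [hδ']; exact lt_of_le_of_lt (min_le_right _ _) (by norm_num)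
  have hδ'2 : δ' ≤ δ := by rw [hδ']; exact min_le_left _ _
  have hmu : ∀ k : ℕ, max k₀ 1 ≤ k →
      (k : ℝ) ^ (-(1 / 2 : ℝ) + δ') ≤ mu (fun k => μ.real {ω | k ∈ A ω}) k := by
    intro k hk
    have hk0 : k₀ ≤ k := (le_max_left _ _).trans hk
    have hk1 : 1 ≤ k := (le_max_right _ _).trans hk
    obtain ⟨h1, h2⟩ := hμ k hk0
    have h3 : (k : ℝ) ^ (-(1 / 2 : ℝ) + δ') ≤ (k : ℝ) ^ (-(1 / 2 : ℝ) + δ) :=
      Real.rpow_le_rpow_of_exponent_le (by exact_mod_cast hk1) (by linarith)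
    unfold mu
    exact le_min (h3.trans h1) (by linarith)
  have hall : ∀ᵐ ω ∂μ, ∀ (q : ℕ) (t : Finset ℕ), 1 ≤ q → 1 < b + xs t →
      (∀ x ∈ Set.Icc (b + xs t) (b + xs t + 2 / (q.factorial : ℝ)), P.eval x ≠ 0) →
      Concl (fun i => P.eval (b + xs t + xset (A ω ∩ Set.Ici q)) *
        (b + xs t + xset (A ω ∩ Set.Ici q)) ^ a i + c i) := by
    rw [ae_all_iff]
    intro q
    rw [ae_all_iff]
    intro t
    by_cases h : 1 ≤ q ∧ 1 < b + xs t ∧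
        ∀ x ∈ Set.Icc (b + xs t) (b + xs t + 2 / (q.factorial : ℝ)), P.eval x ≠ 0
    · filter_upwards [pattern μ A hA hind δ' hδ'0 hδ'1 (max k₀ 1) hmu P (b + xs t) h.2.1 q h.1 h.2.2 a ha c]
        with ω hω _ _ _
      exact hω
    · exact Filter.Eventually.of_forall (fun ω h1 h2 h3 => absurd ⟨h1, h2, h3⟩ h)
  filter_upwards [hall] with ω hω h1 hP
  obtain ⟨X, hX⟩ : ∃ X, X = b + xset (A ω) := ⟨_, rfl⟩
  rw [← hX] at h1 hP ⊢
  have hcont : ∀ᶠ x in nhds X, P.eval x ≠ 0 := P.continuous.continuousAt.eventually_ne hP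
  obtain ⟨η, hη, hη2⟩ := Metric.eventually_nhds_iff.1 hcont
  have hm : 0 < min η (X - 1) := lt_min hη (by linarith)
  obtain ⟨q, hq⟩ := exists_nat_gt (2 / min η (X - 1))
  have hq0 : (0 : ℝ) < q := lt_of_le_of_lt (by positivity) hq
  have hq1 : 1 ≤ q := by
    have : 0 < q := by exact_mod_cast hq0
    omega
  have hqf : (q : ℝ) ≤ (q.factorial : ℝ) := by exact_mod_cast Nat.self_le_factorial q
  have hq2 : 2 / (q.factorial : ℝ) < min η (X - 1) := by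
    rw [div_lt_iff₀ hm] at hq
    rw [div_lt_iff₀ (by linarith)]
    nlinarith
  have hq3 := hq2.trans_le (min_le_left _ _)
  have hq4 := hq2.trans_le (min_le_right _ _)
  have hsplit := xset_split A q ω
  have hr0 := xset_nonneg (A ω ∩ Set.Ici q)
  have hr1 := xset_le (A ω) q hq1
  have e : b + xs (dig A (range q) ω) + xset (A ω ∩ Set.Ici q) = X := by rw [hX, hsplit]; ring
  have h := hω q (dig A (range q) ω) hq1 (by linarith) (by
    intro x hx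
    apply hη2
    rw [Real.dist_eq, abs_lt]
    constructor <;> linarith [hx.1, hx.2])
  rw [e] at h
  exact h

end Pool.Agent.Helper59.RE
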