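import Pool.Agent.Helper59.RE.Prob

/-!
# Project RE: the limit over the number of digits
-/

namespace Pool.Agent.Helper59.RE

open Finset MeasureTheory ProbabilityTheory

theorem Prob2_meas_xs {Ω : Type*} [MeasurableSpace Ω] (A : Ω → Set ℕ)
    (hA : ∀ k, MeasurableSet {ω | k ∈ A ω}) (S : Finset ℕ) :
    Measurable (fun ω => xs (dig A S ω)) := by
  have h : (fun ω => xs (dig A S ω)) =
      fun ω => ∑ k ∈ S, ({ω | k ∈ A ω} : Set Ω).indicator (fun _ => 1 / (k.factorial : ℝ)) ω := by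
    classical
    funext ω
    unfold xs dig
    rw [Finset.sum_filter]
    refine Finset.sum_congr rfl fun k _ => ?_
    by_cases hk : k ∈ A ω
    · rw [if_pos hk, Set.indicator_of_mem]
      exact hk
    · rw [if_neg hk, Set.indicator_of_notMem]
      exact hk
  rw [h]
  exact Finset.measurable_sum _ fun k _ => measurable_const.indicator (hA k)

theorem measurable_xset {Ω : Type*} [MeasurableSpace Ω] (A : Ω → Set ℕ)
    (hA : ∀ k, MeasurableSet {ω | k ∈ A ω}) (q : ℕ) :
    Measurable (fun ω => xset (A ω ∩ Set.Ici q)) := by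
  refine measurable_of_tendsto_metrizable (f := fun (M : ℕ) (ω : Ω) => xs (dig A (Ico q M) ω))
    (fun M => Prob2_meas_xs A hA (Ico q M)) ?_
  rw [tendsto_pi_nhds]
  intro ω
  exact xset_tendsto A q ω

theorem prob_lim {Ω : Type*} [MeasurableSpace Ω] (μ : Measure Ω) [IsProbabilityMeasure μ]
    (A : Ω → Set ℕ) (hA : ∀ k, MeasurableSet {ω | k ∈ A ω})
    (hind : iIndepSet (fun k : ℕ => {ω | k ∈ A ω}) μ) (φ : ℝ → ℝ) (hφ : Continuous φ) (q : ℕ)
    (B : ℝ) (M₀ : ℕ)
    (hB : ∀ M : ℕ, M₀ ≤ M →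
      ‖av (fun k => μ.real {ω | k ∈ A ω}) (Ico q M) (fun T => e (φ (xs T)))‖ ≤ B) :
    ‖∫ ω, e (φ (xset (A ω ∩ Set.Ici q))) ∂μ‖ ≤ B := by
  have h1 : Filter.Tendsto (fun M : ℕ => ∫ ω, e (φ (xs (dig A (Ico q M) ω))) ∂μ) Filter.atTop
      (nhds (∫ ω, e (φ (xset (A ω ∩ Set.Ici q))) ∂μ)) := by
    refine tendsto_integral_of_dominated_convergence (fun _ => (1 : ℝ)) ?_ (integrable_const _) ?_ ?_
    · intro M
      exact ((continuous_e.comp hφ).measurable.comp (Prob2_meas_xs A hA (Ico q M))).aestronglyMeasurable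
    · intro M
      exact Filter.Eventually.of_forall fun ω => (norm_e _).le
    · refine Filter.Eventually.of_forall fun ω => ?_
      exact ((continuous_e.comp hφ).tendsto _).comp (xset_tendsto A q ω)
  refine le_of_tendsto h1.norm ?_
  filter_upwards [Filter.eventually_ge_atTop M₀] with M hM
  rw [prob_av μ A hA hind (Ico q M) (fun T => e (φ (xs T)))]
  exact hB M hM

end Pool.Agent.Helper59.RE
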