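import Pool.Agent.Helper59.RE.CorrFin
import Pool.Agent.Helper59.RE.Prob2

/-!
# Project RE: assembly
-/

namespace Pool.Agent.Helper59.RE

open Finset MeasureTheory ProbabilityTheory Polynomial

/-- The positive case. -/
theorem finA_pos {Ω : Type*} [MeasurableSpace Ω] (μ : Measure Ω) [IsProbabilityMeasure μ]
    (A : Ω → Set ℕ) (hA : ∀ k, MeasurableSet {ω | k ∈ A ω})
    (hind : iIndepSet (fun k : ℕ => {ω | k ∈ A ω}) μ) (δ : ℝ) (hδ0 : 0 < δ) (hδ1 : δ < 1 / 2)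
    (k₀ : ℕ) (hμ : ∀ k : ℕ, k₀ ≤ k →
      (k : ℝ) ^ (-(1 / 2 : ℝ) + δ) ≤ mu (fun k => μ.real {ω | k ∈ A ω}) k)
    (P : ℝ[X]) (b' : ℝ) (hb : 1 < b') (q : ℕ) (hq : 1 ≤ q)
    (hP : ∀ x ∈ Set.Icc b' (b' + 2 / (q.factorial : ℝ)), 0 < P.eval x) :
    ∃ m₀ : ℕ, ∀ m : ℕ, m₀ ≤ m → ∀ n < m, ∀ h : ℕ, 1 ≤ h →
      ‖∫ ω, e (h * FF P m n (b' + xset (A ω ∩ Set.Ici q))) ∂μ‖ ≤ 1 / (m : ℝ) ^ 4 := by
  obtain ⟨m₀, hm₀⟩ := corr_fin P b' hb q hq hP δ hδ0 hδ1 (fun k => μ.real {ω | k ∈ A ω})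
    (fun k => measureReal_nonneg) (fun k => measureReal_le_one) k₀ hμ
  refine ⟨m₀, fun m hm n hn h hh => ?_⟩
  obtain ⟨M₀, hM₀⟩ := hm₀ m hm n hn h hh
  have hcont : Continuous (fun x : ℝ => (h : ℝ) * FF P m n (b' + x)) := by
    unfold FF G0
    have h1 : Continuous (fun x : ℝ => P.eval (b' + x)) :=
      P.continuous.comp (continuous_const.add continuous_id)
    fun_prop
  exact prob_lim μ A hA hind (fun x => (h : ℝ) * FF P m n (b' + x)) hcont q (1 / (m : ℝ) ^ 4) M₀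
    hM₀

theorem finA_FF_neg (P : ℝ[X]) (m n : ℕ) (x : ℝ) : FF (-P) m n x = -FF P m n x := by
  unfold FF
  rw [eval_neg]
  ring

/-- The correlations for the random number `b' + (digits from q on)`. -/
theorem corr {Ω : Type*} [MeasurableSpace Ω] (μ : Measure Ω) [IsProbabilityMeasure μ]
    (A : Ω → Set ℕ) (hA : ∀ k, MeasurableSet {ω | k ∈ A ω})
    (hind : iIndepSet (fun k : ℕ => {ω | k ∈ A ω}) μ) (δ : ℝ) (hδ0 : 0 < δ) (hδ1 : δ < 1 / 2)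
    (k₀ : ℕ) (hμ : ∀ k : ℕ, k₀ ≤ k →
      (k : ℝ) ^ (-(1 / 2 : ℝ) + δ) ≤ mu (fun k => μ.real {ω | k ∈ A ω}) k)
    (P : ℝ[X]) (b' : ℝ) (hb : 1 < b') (q : ℕ) (hq : 1 ≤ q)
    (hP : ∀ x ∈ Set.Icc b' (b' + 2 / (q.factorial : ℝ)), P.eval x ≠ 0) :
    ∃ m₀ : ℕ, ∀ m : ℕ, m₀ ≤ m → ∀ n < m, ∀ h : ℕ, 1 ≤ h →
      ‖∫ ω, e (h * FF P m n (b' + xset (A ω ∩ Set.Ici q))) ∂μ‖ ≤ 1 / (m : ℝ) ^ 4 := by
  have hq0 : (0 : ℝ) ≤ 2 / (q.factorial : ℝ) := by positivity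
  have hb0 : b' ∈ Set.Icc b' (b' + 2 / (q.factorial : ℝ)) := ⟨le_refl _, by linarith⟩
  have hcont : ContinuousOn (fun x => P.eval x) (Set.Icc b' (b' + 2 / (q.factorial : ℝ))) :=
    P.continuous.continuousOn
  rcases lt_or_gt_of_ne (hP b' hb0) with h0 | h0
  · -- negative
    have hneg : ∀ x ∈ Set.Icc b' (b' + 2 / (q.factorial : ℝ)), 0 < (-P).eval x := by
      intro x hx
      rw [eval_neg, neg_pos]
      by_contra hcon
      push Not at hcon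
      have hsub : Set.Icc b' x ⊆ Set.Icc b' (b' + 2 / (q.factorial : ℝ)) :=
        Set.Icc_subset_Icc le_rfl hx.2
      have h1 : (0 : ℝ) ∈ Set.Icc (P.eval b') (P.eval x) := ⟨h0.le, hcon⟩
      obtain ⟨y, hy, hy0⟩ := intermediate_value_Icc hx.1 (hcont.mono hsub) h1
      exact hP y (hsub hy) hy0
    obtain ⟨m₀, hm₀⟩ := finA_pos μ A hA hind δ hδ0 hδ1 k₀ hμ (-P) b' hb q hq hneg
    refine ⟨m₀, fun m hm n hn h hh => ?_⟩
    have h1 := hm₀ m hm n hn h hh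
    have h2 : (∫ ω, e (h * FF (-P) m n (b' + xset (A ω ∩ Set.Ici q))) ∂μ) =
        (starRingEnd ℂ) (∫ ω, e (h * FF P m n (b' + xset (A ω ∩ Set.Ici q))) ∂μ) := by
      rw [← integral_conj]
      congr 1
      funext ω
      rw [conj_e, finA_FF_neg]
      congr 1
      ring
    rw [h2, RCLike.norm_conj] at h1
    exact h1
  · have hpos : ∀ x ∈ Set.Icc b' (b' + 2 / (q.factorial : ℝ)), 0 < P.eval x := by
      intro x hx
      by_contra hcon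
      push Not at hcon
      have hsub : Set.Icc b' x ⊆ Set.Icc b' (b' + 2 / (q.factorial : ℝ)) :=
        Set.Icc_subset_Icc le_rfl hx.2
      have h1 : (0 : ℝ) ∈ Set.Icc (P.eval x) (P.eval b') := ⟨hcon, h0.le⟩
      obtain ⟨y, hy, hy0⟩ := intermediate_value_Icc' hx.1 (hcont.mono hsub) h1
      exact hP y (hsub hy) hy0
    exact finA_pos μ A hA hind δ hδ0 hδ1 k₀ hμ P b' hb q hq hpos

end Pool.Agent.Helper59.RE
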