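import Pool.Agent.Helper59.RE.Defs

/-!
# Project RE: mean squares from correlations
-/

namespace Pool.Agent.Helper59.RE

open Finset MeasureTheory

theorem l2_of_corr {Ω : Type*} [MeasurableSpace Ω] (μ : Measure Ω) [IsProbabilityMeasure μ]
    (u : ℕ → Ω → ℝ) (hu : ∀ i, Measurable (u i)) (κ : ℕ → ℝ)
    (hc : ∀ h : ℕ, 1 ≤ h → ∀ i, ∀ l < i, ‖∫ ω, e (h * (u i ω - u l ω)) ∂μ‖ ≤ κ i) :
    ∀ h : ℕ, 1 ≤ h → ∀ J : Finset ℕ,
      ∫ ω, ‖∑ i ∈ J, e (h * u i ω)‖ ^ 2 ∂μ ≤ J.card + ∑ i ∈ J, 2 * i * κ i := by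
  intro h hh J
  have hκ : ∀ i : ℕ, 1 ≤ i → 0 ≤ κ i := fun i hi =>
    (norm_nonneg _).trans (hc 1 le_rfl i 0 hi)
  have hm : ∀ i, Measurable (fun ω => e (h * u i ω)) := fun i =>
    continuous_e.measurable.comp ((hu i).const_mul _)
  have hm2 : ∀ i l, Measurable (fun ω => e (h * (u i ω - u l ω))) := fun i l =>
    continuous_e.measurable.comp (((hu i).sub (hu l)).const_mul _)
  have hint : ∀ i l, Integrable (fun ω => e (h * (u i ω - u l ω))) μ := fun i l =>
    Integrable.of_bound (hm2 i l).aestronglyMeasurable 1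
      (Filter.Eventually.of_forall fun ω => (norm_e _).le)
  have hSm : ∀ s : Finset ℕ, Measurable (fun ω => ∑ i ∈ s, e (h * u i ω)) := fun s =>
    Finset.measurable_fun_sum s (fun i _ => hm i)
  have hSint : ∀ s : Finset ℕ, Integrable (fun ω => ‖∑ i ∈ s, e (h * u i ω)‖ ^ 2) μ := by
    intro s
    refine Integrable.of_bound ((hSm s).norm.pow_const 2).aestronglyMeasurable ((s.card : ℝ) ^ 2)
      (Filter.Eventually.of_forall fun ω => ?_)
    rw [Real.norm_of_nonneg (by positivity)]
    refine pow_le_pow_left₀ (norm_nonneg _) ?_ 2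
    refine (norm_sum_le _ _).trans ?_
    simp [norm_e]
  induction J using Finset.induction_on_max with
  | empty => simp
  | insert a s hmax ih =>
    have ha : a ∉ s := fun h1 => lt_irrefl a (hmax a h1)
    rw [Finset.card_insert_of_notMem ha, Finset.sum_insert ha]
    have e1 : ∀ ω, ‖∑ i ∈ insert a s, e (h * u i ω)‖ ^ 2 =
        ‖∑ i ∈ s, e (h * u i ω)‖ ^ 2 + 1 + 2 * (∑ l ∈ s, e (h * (u a ω - u l ω))).re := by
      intro ω
      rw [Finset.sum_insert ha, Complex.sq_norm, Complex.normSq_add, ← Complex.sq_norm,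
        ← Complex.sq_norm, norm_e, map_sum, Finset.mul_sum]
      have e2 : ∀ l ∈ s, e (h * u a ω) * (starRingEnd ℂ) (e (h * u l ω)) =
          e (h * (u a ω - u l ω)) := by
        intro l _
        rw [← e_sub, mul_sub]
      rw [Finset.sum_congr rfl e2]
      ring
    have hsumint : Integrable (fun ω => ∑ l ∈ s, e (h * (u a ω - u l ω))) μ :=
      integrable_finsetSum s (fun l _ => hint a l)
    have hre : Integrable (fun ω => 2 * (∑ l ∈ s, e (h * (u a ω - u l ω))).re) μ :=
      hsumint.re.const_mul 2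
    have e3 : ∫ ω, ‖∑ i ∈ insert a s, e (h * u i ω)‖ ^ 2 ∂μ =
        ∫ ω, ‖∑ i ∈ s, e (h * u i ω)‖ ^ 2 ∂μ + 1 +
          2 * (∑ l ∈ s, ∫ ω, e (h * (u a ω - u l ω)) ∂μ).re := by
      simp_rw [e1]
      have hS1 : Integrable (fun ω => ‖∑ i ∈ s, e (h * u i ω)‖ ^ 2 + 1) μ :=
        (hSint s).add (integrable_const 1)
      rw [integral_add hS1 hre,
        integral_add (hSint s) (integrable_const 1), integral_const, probReal_univ,
        integral_const_mul]
      have e4 : ∫ ω, (∑ l ∈ s, e (h * (u a ω - u l ω))).re ∂μ =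
          (∫ ω, ∑ l ∈ s, e (h * (u a ω - u l ω)) ∂μ).re := integral_re hsumint
      rw [e4, integral_finsetSum s (fun l _ => hint a l)]
      simp
    rw [e3]
    have e5 : (∑ l ∈ s, ∫ ω, e (h * (u a ω - u l ω)) ∂μ).re ≤ s.card * κ a := by
      refine (Complex.re_le_norm _).trans ((norm_sum_le _ _).trans ?_)
      refine (Finset.sum_le_card_nsmul s _ (κ a) (fun l hl => hc h hh a l (hmax l hl))).trans ?_
      rw [nsmul_eq_mul]
    have e6 : (s.card : ℝ) * κ a ≤ a * κ a := by
      rcases Nat.eq_zero_or_pos a with h0 | h0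
      · have : s = ∅ := by
          rw [Finset.eq_empty_iff_forall_notMem]
          intro x hx
          have := hmax x hx
          omega
        rw [this, h0]
        simp
      · have h1 : s.card ≤ a := by
          have h2 : s ⊆ range a := fun x hx => mem_range.mpr (hmax x hx)
          simpa using Finset.card_le_card h2
        exact mul_le_mul_of_nonneg_right (by exact_mod_cast h1) (hκ a h0)
    push_cast
    linarith

end Pool.Agent.Helper59.RE
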