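import Pool.Agent.Helper59.RE.FinA
import Pool.Agent.Helper59.RE.L2
import Pool.Agent.Helper59.RE.DiscC

/-!
# Project RE: assembly
-/

namespace Pool.Agent.Helper59.RE

open Finset MeasureTheory ProbabilityTheory Polynomial

private theorem finB_summable (M : ℕ) (hM : 1 ≤ M) :
    Summable (fun i : ℕ => 2 * (i : ℝ) * (if i < M then 1 else 1 / (i : ℝ) ^ 4)) := by
  rw [← summable_nat_add_iff M]
  have h1 : Summable (fun i : ℕ => 2 * (1 / ((i + M : ℕ) : ℝ) ^ 3)) := by
    have h2 : Summable (fun n : ℕ => 1 / (n : ℝ) ^ 3) :=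
      Real.summable_one_div_nat_pow.2 (by norm_num)
    exact ((summable_nat_add_iff M).2 h2).mul_left 2
  refine h1.congr (fun i => ?_)
  rw [if_neg (by omega)]
  have h3 : ((i + M : ℕ) : ℝ) ≠ 0 := by
    have : i + M ≠ 0 := by omega
    exact_mod_cast this
  field_simp

/-- The almost sure statement for fixed digits below `q`. -/
theorem pattern {Ω : Type*} [MeasurableSpace Ω] (μ : Measure Ω) [IsProbabilityMeasure μ]
    (A : Ω → Set ℕ) (hA : ∀ k, MeasurableSet {ω | k ∈ A ω})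
    (hind : iIndepSet (fun k : ℕ => {ω | k ∈ A ω}) μ) (δ : ℝ) (hδ0 : 0 < δ) (hδ1 : δ < 1 / 2)
    (k₀ : ℕ) (hμ : ∀ k : ℕ, k₀ ≤ k →
      (k : ℝ) ^ (-(1 / 2 : ℝ) + δ) ≤ mu (fun k => μ.real {ω | k ∈ A ω}) k)
    (P : ℝ[X]) (b' : ℝ) (hb : 1 < b') (q : ℕ) (hq : 1 ≤ q)
    (hP : ∀ x ∈ Set.Icc b' (b' + 2 / (q.factorial : ℝ)), P.eval x ≠ 0)
    (a : ℕ → ℕ) (ha : StrictMono a) (c : ℕ → ℝ) :
    ∀ᵐ ω ∂μ, Concl (fun i => P.eval (b' + xset (A ω ∩ Set.Ici q)) *
      (b' + xset (A ω ∩ Set.Ici q)) ^ a i + c i) := by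
  obtain ⟨m₀, hm₀⟩ := corr μ A hA hind δ hδ0 hδ1 k₀ hμ P b' hb q hq hP
  set M : ℕ := max m₀ 1 with hM
  have hM1 : 1 ≤ M := le_max_right _ _
  have hMm : m₀ ≤ M := le_max_left _ _
  have hmeasY : Measurable (fun ω => b' + xset (A ω ∩ Set.Ici q)) :=
    measurable_const.add (measurable_xset A hA q)
  set u : ℕ → Ω → ℝ := fun i ω => P.eval (b' + xset (A ω ∩ Set.Ici q)) *
      (b' + xset (A ω ∩ Set.Ici q)) ^ a i + c i with hu
  have humeas : ∀ i, Measurable (u i) := by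
    intro i
    have h1 : Measurable (fun ω => P.eval (b' + xset (A ω ∩ Set.Ici q))) :=
      P.continuous.measurable.comp hmeasY
    exact (h1.mul (hmeasY.pow_const (a i))).add measurable_const
  have hai : ∀ i, i ≤ a i := fun i => ha.le_apply
  have hc : ∀ h : ℕ, 1 ≤ h → ∀ i, ∀ l < i, ‖∫ ω, e (h * (u i ω - u l ω)) ∂μ‖ ≤
      (if i < M then 1 else 1 / (i : ℝ) ^ 4) := by
    intro h hh i l hl
    have hone : ‖∫ ω, e (h * (u i ω - u l ω)) ∂μ‖ ≤ 1 := by
      have h1 := norm_integral_le_of_norm_le_const (μ := μ) (C := 1)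
        (f := fun ω => e (h * (u i ω - u l ω)))
        (Filter.Eventually.of_forall (fun ω => (norm_e _).le))
      simpa using h1
    split_ifs with hi
    · exact hone
    · have hiM : M ≤ i := by omega
      have hi1 : 1 ≤ i := hM1.trans hiM
      have h1 := hm₀ (a i) ((hMm.trans hiM).trans (hai i)) (a l) (ha hl) h hh
      have h2 : ∀ ω, e (h * (u i ω - u l ω)) =
          e (h * FF P (a i) (a l) (b' + xset (A ω ∩ Set.Ici q))) * e (h * (c i - c l)) := by
        intro ω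
        rw [← e_add]
        congr 1
        simp only [hu, FF, G0]
        ring
      have h3 : ‖∫ ω, e (h * (u i ω - u l ω)) ∂μ‖ =
          ‖∫ ω, e (h * FF P (a i) (a l) (b' + xset (A ω ∩ Set.Ici q))) ∂μ‖ := by
        simp only [h2]
        rw [integral_mul_const, norm_mul, norm_e, mul_one]
      rw [h3]
      refine h1.trans ?_
      have hi0 : (0 : ℝ) < i := by exact_mod_cast hi1
      refine one_div_le_one_div_of_le (pow_pos hi0 4) ?_
      exact pow_le_pow_left₀ hi0.le (by exact_mod_cast hai i) 4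
  have hL2 := l2_of_corr μ u humeas _ hc
  refine disc_as μ u humeas (fun i => 2 * (i : ℝ) * (if i < M then 1 else 1 / (i : ℝ) ^ 4)) ?_
    (finB_summable M hM1) hL2
  intro i
  split_ifs <;> positivity

end Pool.Agent.Helper59.RE
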