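import Pool.Agent.Helper59.RE.Bas

/-!
# Project RE: independent digits
-/

namespace Pool.Agent.Helper59.RE

open Finset MeasureTheory ProbabilityTheory

theorem Prob_mem_dig {Ω : Type*} (A : Ω → Set ℕ) (S : Finset ℕ) (ω : Ω) (k : ℕ) :
    k ∈ dig A S ω ↔ k ∈ S ∧ k ∈ A ω := by
  classical
  unfold dig
  simp only [Finset.mem_filter]

theorem Prob_set_eq {Ω : Type*} (A : Ω → Set ℕ) {S T : Finset ℕ} (hT : T ⊆ S) :
    {ω | dig A S ω = T} = ⋂ k ∈ S, (if k ∈ T then {ω | k ∈ A ω} else {ω | k ∈ A ω}ᶜ) := by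
  ext ω
  simp only [Set.mem_setOf_eq, Set.mem_iInter]
  constructor
  · intro h k hk
    split_ifs with hkT
    · rw [← h, Prob_mem_dig] at hkT
      exact hkT.2
    · intro hc
      apply hkT
      rw [← h, Prob_mem_dig]
      exact ⟨hk, hc⟩
  · intro h
    ext k
    rw [Prob_mem_dig]
    constructor
    · rintro ⟨h1, h2⟩
      have h3 := h k h1
      by_contra hkT
      rw [if_neg hkT] at h3
      exact h3 h2
    · intro hkT
      have h3 := h k (hT hkT)
      rw [if_pos hkT] at h3
      exact ⟨hT hkT, h3⟩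

theorem measurable_dig {Ω : Type*} [MeasurableSpace Ω] (A : Ω → Set ℕ)
    (hA : ∀ k, MeasurableSet {ω | k ∈ A ω}) (S T : Finset ℕ) :
    MeasurableSet {ω | dig A S ω = T} := by
  by_cases hT : T ⊆ S
  · rw [Prob_set_eq A hT]
    refine Finset.measurableSet_biInter S fun k _ => ?_
    split_ifs
    · exact hA k
    · exact (hA k).compl
  · have : {ω | dig A S ω = T} = ∅ := by
      ext ω
      simp only [Set.mem_setOf_eq, Set.mem_empty_iff_false, iff_false]
      intro h
      apply hT
      intro k hk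
      rw [← h, Prob_mem_dig] at hk
      exact hk.1
    rw [this]
    exact MeasurableSet.empty

theorem Prob_meas {Ω : Type*} [MeasurableSpace Ω] (μ : Measure Ω) [IsProbabilityMeasure μ]
    (A : Ω → Set ℕ) (hA : ∀ k, MeasurableSet {ω | k ∈ A ω})
    (hind : iIndepSet (fun k : ℕ => {ω | k ∈ A ω}) μ) {S T : Finset ℕ} (hT : T ⊆ S) :
    μ.real {ω | dig A S ω = T} = wt (fun k => μ.real {ω | k ∈ A ω}) S T := by
  rw [Prob_set_eq A hT]
  have h1 := (iIndepSet_iff_iIndep _ _).1 hind
  have h2 := h1.meas_biInter (S := S) (s := fun k => if k ∈ T then {ω | k ∈ A ω} else {ω | k ∈ A ω}ᶜ) (by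
    intro k _
    beta_reduce
    have h3 : MeasurableSet[MeasurableSpace.generateFrom {{ω | k ∈ A ω}}] {ω | k ∈ A ω} :=
      MeasurableSpace.measurableSet_generateFrom (Set.mem_singleton _)
    split_ifs
    · exact h3
    · exact h3.compl)
  rw [Measure.real, h2, ENNReal.toReal_prod]
  unfold wt
  have e1 : ∀ k ∈ S, (μ (if k ∈ T then {ω | k ∈ A ω} else {ω | k ∈ A ω}ᶜ)).toReal =
      if k ∈ T then μ.real {ω | k ∈ A ω} else 1 - μ.real {ω | k ∈ A ω} := by
    intro k _
    split_ifs
    · rfl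
    · exact probReal_compl_eq_one_sub (hA k)
  rw [Finset.prod_congr rfl e1, Finset.prod_ite]
  congr 1
  · refine Finset.prod_congr ?_ fun _ _ => rfl
    ext k
    rw [Finset.mem_filter]
    exact ⟨fun h => h.2, fun h => ⟨hT h, h⟩⟩
  · refine Finset.prod_congr ?_ fun _ _ => rfl
    ext k
    rw [Finset.mem_filter, Finset.mem_sdiff]

theorem prob_av {Ω : Type*} [MeasurableSpace Ω] (μ : Measure Ω) [IsProbabilityMeasure μ]
    (A : Ω → Set ℕ) (hA : ∀ k, MeasurableSet {ω | k ∈ A ω})
    (hind : iIndepSet (fun k : ℕ => {ω | k ∈ A ω}) μ) (S : Finset ℕ) (F : Finset ℕ → ℂ) :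
    ∫ ω, F (dig A S ω) ∂μ = av (fun k => μ.real {ω | k ∈ A ω}) S F := by
  have h1 : ∀ ω, F (dig A S ω) = ∑ T ∈ S.powerset, ({ω | dig A S ω = T} : Set Ω).indicator (fun _ => F T) ω := by
    intro ω
    rw [Finset.sum_eq_single (dig A S ω)]
    · rw [Set.indicator_of_mem]
      exact rfl
    · intro T _ hT
      rw [Set.indicator_of_notMem]
      exact fun h => hT h.symm
    · intro h
      exfalso
      apply h
      rw [Finset.mem_powerset]
      intro k hk
      exact ((Prob_mem_dig A S ω k).1 hk).1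
  simp_rw [h1]
  rw [integral_finset_sum]
  · unfold av
    refine Finset.sum_congr rfl fun T hT => ?_
    rw [integral_indicator_const _ (measurable_dig A hA S T), Prob_meas μ A hA hind (Finset.mem_powerset.1 hT)]
  · intro T _
    exact (integrable_const (F T)).indicator (measurable_dig A hA S T)

end Pool.Agent.Helper59.RE
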