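import Pool.Agent.Helper59.RE.AV
import Pool.Agent.Helper59.RE.Bas
import Pool.Agent.Helper59.RE.Exp

/-!
# Project RE: the top digits
-/

namespace Pool.Agent.Helper59.RE

open Finset

theorem top (p : ℕ → ℝ) (hp0 : ∀ k, 0 ≤ p k) (hp1 : ∀ k, p k ≤ 1) (S : Finset ℕ) (t : ℝ)
    (R : ℕ) (k : ℕ → ℕ) (hinj : Set.InjOn k (Set.Iio R)) (hk : ∀ i < R, k i ∈ S) :
    ‖av p S (fun T => e (t * xs T))‖ ≤ ∏ i ∈ range R,
      (1 - 2 * (p (k i) * (1 - p (k i))) *
        Real.sin (Real.pi * (t / ((k i).factorial : ℝ))) ^ 2) := by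
  classical
  have hexp : ∀ T : Finset ℕ, e (t * xs T) = ∏ l ∈ T, e (t / (l.factorial : ℝ)) := by
    intro T
    induction T using Finset.induction_on with
    | empty => simp [xs, e_zero]
    | insert a T ha ih =>
      rw [Finset.prod_insert ha, ← ih, ← e_add, xs_insert T a ha]
      congr 1
      ring
  have h1 : av p S (fun T => e (t * xs T)) =
      ∏ l ∈ S, (1 - (p l : ℂ) + p l * e (t / (l.factorial : ℝ))) := by
    rw [← av_prod]
    exact av_congr p S _ _ (fun T _ => hexp T)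
  rw [h1, norm_prod]
  set a : ℕ → ℝ := fun l => 1 - 2 * (p l * (1 - p l)) *
    Real.sin (Real.pi * (t / (l.factorial : ℝ))) ^ 2 with ha
  have ha0 : ∀ l, 0 ≤ a l := by
    intro l
    have h2 : Real.sin (Real.pi * (t / (l.factorial : ℝ))) ^ 2 ≤ 1 := Real.sin_sq_le_one _
    have h3 : 0 ≤ Real.sin (Real.pi * (t / (l.factorial : ℝ))) ^ 2 := sq_nonneg _
    have h4 := hp0 l
    have h5 := hp1 l
    have h6 : 0 ≤ p l * (1 - p l) := mul_nonneg h4 (by linarith)
    have h7 : p l * (1 - p l) ≤ 1 / 4 := by nlinarith [sq_nonneg (p l - 1 / 2)]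
    simp only [ha]
    nlinarith
  have ha1 : ∀ l, a l ≤ 1 := by
    intro l
    have h3 : 0 ≤ Real.sin (Real.pi * (t / (l.factorial : ℝ))) ^ 2 := sq_nonneg _
    have h4 := hp0 l
    have h5 := hp1 l
    have h6 : 0 ≤ p l * (1 - p l) := mul_nonneg h4 (by linarith)
    have h7 : 0 ≤ 2 * (p l * (1 - p l)) * Real.sin (Real.pi * (t / (l.factorial : ℝ))) ^ 2 := by
      positivity
    simp only [ha]
    linarith
  have h2 : ∏ l ∈ S, ‖(1 - (p l : ℂ) + p l * e (t / (l.factorial : ℝ)))‖ ≤ ∏ l ∈ S, a l :=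
    Finset.prod_le_prod (fun l _ => norm_nonneg _) (fun l _ => norm_digit (p l) _ (hp0 l) (hp1 l))
  refine h2.trans ?_
  have hsub : (range R).image k ⊆ S := by
    intro x hx
    obtain ⟨i, hi, rfl⟩ := Finset.mem_image.mp hx
    exact hk i (Finset.mem_range.mp hi)
  rw [← Finset.prod_sdiff hsub]
  have h3 : ∏ l ∈ S \ (range R).image k, a l ≤ 1 :=
    Finset.prod_le_one (fun l _ => ha0 l) (fun l _ => ha1 l)
  have h4 : ∏ l ∈ (range R).image k, a l = ∏ i ∈ range R, a (k i) := by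
    refine Finset.prod_image ?_
    intro i hi i' hi' heq
    exact hinj (by simpa using hi) (by simpa using hi') heq
  rw [h4]
  have h5 : 0 ≤ ∏ i ∈ range R, a (k i) := Finset.prod_nonneg (fun i _ => ha0 _)
  exact mul_le_of_le_one_left h5 h3

end Pool.Agent.Helper59.RE
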